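import Mathlib
import Pool.Agent.Lib.MP_4006b4_co_c.Clause

/-!
# Auxiliary definitions for the case `(a, b) = (5, 3)`
-/

open Finset

namespace Pool.Agent.Lib.MP_4006b4_co_c

theorem par53 : Par 5 3 := ⟨by norm_num, by norm_num, by norm_num, by norm_num⟩

/-- Number of edges between `w` and `X`. -/
def kk (G : Str) (w : ℕ) (X : Finset ℕ) : ℕ := ∑ r ∈ X, G.h w r

/-- Number of link ends between `w` and `X`. -/
def nn (G : Str) (w : ℕ) (X : Finset ℕ) : ℕ := ∑ r ∈ X, G.m w r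

/-- Number of edges and links leaving `T` at `w`. -/
def out (G : Str) (w : ℕ) (T : Finset ℕ) : ℕ := ∑ r ∈ G.V \ T, (G.h w r + G.m w r)

/-- Induction hypothesis at the level of `K`. -/
def IHV (K : Str) : Prop := ∀ G' : Str, G'.WF 5 3 →
  (∀ S ⊆ G'.V, S.Nonempty → (-2 : ℤ) ≤ rho 5 3 G' S) → hc G' ≤ hc K → #G'.V < #K.V → Colorable G'

section

variable {a b : ℕ} {G K : Str}

theorem MinCE.ihv (M : MinCE 5 3 G) : IHV G := by
  intro G' wf' hp h1 h2
  exact M.ih G' wf' (fun S hS hne => by have := hp S hS hne; push_cast; linarith)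
    (Or.inr ⟨h1, Or.inl h2⟩)

theorem MinCE.pos2 (M : MinCE 5 3 G) {S : Finset ℕ} (hS : S ⊆ G.V) (hne : S.Nonempty) :
    (-2 : ℤ) ≤ rho 5 3 G S := by
  have := M.pos S hS hne
  push_cast at this
  linarith

theorem MinCE.pr3 (M : MinCE 5 3 G) {S : Finset ℕ} (hS : S ⊆ G.V) (hne : S.Nonempty)
    (hV : S ≠ G.V) : (3 : ℤ) ≤ rho 5 3 G S := by
  have := M.p1' par53 hS hne hV
  push_cast at this
  linarith

theorem cross_w (w : ℕ) (X : Finset ℕ) :
    cross 5 3 G {w} X = 12 * (kk G w X : ℤ) + 5 * (nn G w X : ℤ) := by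
  unfold kk nn
  rw [cross_singleton]
  push_cast
  rw [mul_sum, mul_sum, ← sum_add_distrib]
  refine sum_congr rfl fun v _ => ?_
  unfold wt
  push_cast
  ring

theorem rho_ins (wf : G.WF 5 3) {w : ℕ} {X : Finset ℕ} (h : w ∉ X) :
    rho 5 3 G (insert w X) = (5 * G.t w + 3 * G.s w - 3 : ℤ) + rho 5 3 G X
      - 12 * (kk G w X : ℤ) - 5 * (nn G w X : ℤ) := by
  rw [rho_insert wf h, ← cross_singleton, cross_w]
  unfold rv
  push_cast
  ring

theorem rho_sing (w : ℕ) : rho 5 3 G {w} = (5 * G.t w + 3 * G.s w - 3 : ℤ) := by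
  rw [rho_singleton]
  unfold rv
  push_cast
  ring

theorem cross_union_left' {S S' : Finset ℕ} (h : Disjoint S S') (T : Finset ℕ) :
    cross a b K (S ∪ S') T = cross a b K S T + cross a b K S' T := by
  unfold cross
  rw [sum_union h]

theorem cross_union_right' (S : Finset ℕ) {T T' : Finset ℕ} (h : Disjoint T T') :
    cross a b K S (T ∪ T') = cross a b K S T + cross a b K S T' := by
  unfold cross
  rw [← sum_add_distrib]
  exact sum_congr rfl fun v _ => sum_union h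

/-- Submodularity. -/
theorem rho_submod (wf : K.WF a b) (ha : 1 ≤ a) (X Y : Finset ℕ) :
    rho a b K (X ∪ Y) + rho a b K (X ∩ Y) ≤ rho a b K X + rho a b K Y := by
  have d1 : Disjoint (X \ Y) (X ∩ Y) := disjoint_left.2 fun v h1 h2 =>
    (mem_sdiff.1 h1).2 (mem_inter.1 h2).2
  have d2 : Disjoint (Y \ X) (X ∩ Y) := disjoint_left.2 fun v h1 h2 =>
    (mem_sdiff.1 h1).2 (mem_inter.1 h2).1
  have d3 : Disjoint (X \ Y) Y := sdiff_disjoint
  have e1 : X = (X \ Y) ∪ (X ∩ Y) := by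
    ext v
    simp only [mem_union, mem_sdiff, mem_inter]
    tauto
  have e2 : Y = (Y \ X) ∪ (X ∩ Y) := by
    ext v
    simp only [mem_union, mem_sdiff, mem_inter]
    tauto
  have e3 : X ∪ Y = (X \ Y) ∪ Y := by
    ext v
    simp only [mem_union, mem_sdiff]
    tauto
  have k1 := rho_union wf d1
  rw [← e1] at k1
  have k2 := rho_union wf d2
  rw [← e2] at k2
  have k3 := rho_union wf d3
  rw [← e3] at k3
  have k4 : cross a b K (X \ Y) Y = cross a b K (X \ Y) (Y \ X) + cross a b K (X \ Y) (X ∩ Y) := by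
    rw [← cross_union_right' _ d2, ← e2]
  have k5 : 0 ≤ cross a b K (X \ Y) (Y \ X) := cross_nonneg ha _ _
  linarith

theorem out_eq (w : ℕ) (T : Finset ℕ) : out G w T = kk G w (G.V \ T) + nn G w (G.V \ T) := by
  unfold out kk nn
  rw [sum_add_distrib]

theorem out_mono {w : ℕ} {T T' : Finset ℕ} (h : T ⊆ T') : out G w T' ≤ out G w T := by
  unfold out
  exact sum_le_sum_of_subset (sdiff_subset_sdiff (Subset.refl _) h)

theorem kk_union (w : ℕ) {X Y : Finset ℕ} (h : Disjoint X Y) :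
    kk G w (X ∪ Y) = kk G w X + kk G w Y := by
  unfold kk
  rw [sum_union h]

theorem nn_union (w : ℕ) {X Y : Finset ℕ} (h : Disjoint X Y) :
    nn G w (X ∪ Y) = nn G w X + nn G w Y := by
  unfold nn
  rw [sum_union h]

theorem kk_sdiff (w : ℕ) {X V : Finset ℕ} (h : X ⊆ V) :
    kk G w (V \ X) + kk G w X = kk G w V := by
  unfold kk
  rw [sum_sdiff h]

theorem nn_sdiff (w : ℕ) {X V : Finset ℕ} (h : X ⊆ V) :
    nn G w (V \ X) + nn G w X = nn G w V := by
  unfold nn
  rw [sum_sdiff h]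

theorem kk_pos {w r : ℕ} {X : Finset ℕ} (hr : r ∈ X) : G.h w r ≤ kk G w X :=
  single_le_sum (f := fun r => G.h w r) (fun _ _ => Nat.zero_le _) hr

theorem nn_pos {w r : ℕ} {X : Finset ℕ} (hr : r ∈ X) : G.m w r ≤ nn G w X :=
  single_le_sum (f := fun r => G.m w r) (fun _ _ => Nat.zero_le _) hr

theorem kk_mono (w : ℕ) {X Y : Finset ℕ} (h : X ⊆ Y) : kk G w X ≤ kk G w Y :=
  sum_le_sum_of_subset h

theorem nn_mono (w : ℕ) {X Y : Finset ℕ} (h : X ⊆ Y) : nn G w X ≤ nn G w Y :=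
  sum_le_sum_of_subset h

/-- The edges of a first-part vertex count in `n1`. -/
theorem out_le_n1 {x : ℕ → Bool} {T : Finset ℕ} {w : ℕ} (hw : w ∈ T) (hx : x w = true)
    (S : Finset ℕ) : kk G w S + nn G w S ≤ n1 G x T S := by
  unfold n1 kk nn
  rw [← sum_add_distrib]
  have h1 : ∑ r ∈ S, (G.h w r + G.m w r) = ∑ r ∈ S, if x w then G.h w r + G.m w r else 0 := by
    refine sum_congr rfl fun r _ => ?_
    rw [hx]
    rfl
  rw [h1]
  exact single_le_sum (f := fun v => ∑ r ∈ S, if x v then G.h v r + G.m v r else 0)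
    (fun _ _ => Nat.zero_le _) hw

/-- Restricting a colouring. -/
theorem res_mono {T S : Finset ℕ} (h : S ⊆ T) {x : ℕ → Bool} {A : ℕ → ℕ → ℕ}
    (hc : IsCol (G.res T) x A) : IsCol (G.res S) x A :=
  IsCol.mono (G := G.res T) (G' := G.res S) h (fun _ _ _ _ => le_rfl) (fun _ _ _ _ => le_rfl)
    (fun _ _ => le_rfl) (fun _ _ => le_rfl) hc

end

end Pool.Agent.Lib.MP_4006b4_co_c
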