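import Mathlib
import Pool.Agent.Lib.MP_4006b4_co_c.Ext

/-!
# The extension lemma with spare units
-/

open Finset

namespace Pool.Agent.Lib.MP_4006b4_co_c

/-- Structures with at most as many edges and fewer vertices satisfy the theorem. -/
def IHW (a b : ℕ) (K : Str) : Prop :=
  ∀ G' : Str, G'.WF a b → (∀ S ⊆ G'.V, S.Nonempty → -(b : ℤ) + 1 ≤ rho a b G' S) →
    hc G' ≤ hc K → #G'.V < #K.V → Colorable G'

/-- Boundary edges and links at `T` are removed according to `dh`, `dm` (first index in `T`). -/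
def Str.spr (K : Str) (T : Finset ℕ) (x : ℕ → Bool) (dh dm : ℕ → ℕ → ℕ) : Str where
  V := K.V
  h := fun v w => K.h v w - (if v ∈ T ∧ w ∉ T then dh v w else if v ∉ T ∧ w ∈ T then dh w v else 0)
  m := fun v w => K.m v w - (if v ∈ T ∧ w ∉ T then dm v w else if v ∉ T ∧ w ∈ T then dm w v else 0)
  t := fun r => if r ∈ T then K.t r else K.t r - ∑ v ∈ T, (if x v then dh v r else 0)
  s := fun r => if r ∈ T then K.s r else K.s r - ∑ v ∈ T, (if x v then 0 else dh v r)

section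

variable {a b : ℕ} {G K : Str}

theorem MinCE.ihw (M : MinCE a b G) : IHW a b G := fun G' wf' pos' h1 h2 =>
  M.ih G' wf' pos' (Or.inr ⟨h1, Or.inl h2⟩)

theorem MinCE.ihw_lt (M : MinCE a b G) (h : hc K < hc G) : IHW a b K := fun G' wf' pos' h1 _ =>
  M.ih G' wf' pos' (Or.inl (lt_of_le_of_lt h1 h))

theorem IHW.ex (I : IHW a b K) {G' : Str} (wf' : G'.WF a b) (h1 : hc G' ≤ hc K)
    (h2 : #G'.V < #K.V) (hn : ¬ Colorable G') :
    ∃ S ⊆ G'.V, S.Nonempty ∧ rho a b G' S ≤ -(b : ℤ) := by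
  by_contra hcon
  push Not at hcon
  exact hn (I G' wf' (fun S hS hne => by have := hcon S hS hne; omega) h1 h2)

theorem spr_h_le (T : Finset ℕ) (x : ℕ → Bool) (dh dm : ℕ → ℕ → ℕ) (v w : ℕ) :
    (K.spr T x dh dm).h v w ≤ K.h v w := Nat.sub_le _ _

theorem spr_m_le (T : Finset ℕ) (x : ℕ → Bool) (dh dm : ℕ → ℕ → ℕ) (v w : ℕ) :
    (K.spr T x dh dm).m v w ≤ K.m v w := Nat.sub_le _ _

theorem spr_t_le (T : Finset ℕ) (x : ℕ → Bool) (dh dm : ℕ → ℕ → ℕ) (v : ℕ) :
    (K.spr T x dh dm).t v ≤ K.t v := by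
  show (if v ∈ T then K.t v else _) ≤ _
  split_ifs
  · exact le_rfl
  · exact Nat.sub_le _ _

theorem spr_s_le (T : Finset ℕ) (x : ℕ → Bool) (dh dm : ℕ → ℕ → ℕ) (v : ℕ) :
    (K.spr T x dh dm).s v ≤ K.s v := by
  show (if v ∈ T then K.s v else _) ≤ _
  split_ifs
  · exact le_rfl
  · exact Nat.sub_le _ _

theorem spr_symm (wf : K.WF a b) (T : Finset ℕ) (d : ℕ → ℕ → ℕ) (v w : ℕ) :
    (if v ∈ T ∧ w ∉ T then d v w else if v ∉ T ∧ w ∈ T then d w v else 0)
      = (if w ∈ T ∧ v ∉ T then d w v else if w ∉ T ∧ v ∈ T then d v w else 0) := by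
  by_cases h1 : v ∈ T <;> by_cases h2 : w ∈ T <;> simp [h1, h2]

theorem spr_wf (wf : K.WF a b) (T : Finset ℕ) (x : ℕ → Bool) (dh dm : ℕ → ℕ → ℕ) :
    (K.spr T x dh dm).WF a b where
  hsymm := fun v w => by
    show K.h v w - _ = K.h w v - _
    rw [wf.hsymm v w, spr_symm wf T dh v w]
  msymm := fun v w => by
    show K.m v w - _ = K.m w v - _
    rw [wf.msymm v w, spr_symm wf T dm v w]
  hirr := fun v => by
    show K.h v v - _ = 0
    rw [wf.hirr]
    exact Nat.zero_sub _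
  mirr := fun v => by
    show K.m v v - _ = 0
    rw [wf.mirr]
    exact Nat.zero_sub _
  hle := fun v w => (spr_h_le T x dh dm v w).trans (wf.hle v w)
  tb := fun v hv w hw h => (Nat.add_le_add_right (spr_t_le T x dh dm v) 1).trans
    (wf.tb v hv w hw (fun h0 => h (by
      have := spr_h_le (K := K) T x dh dm v w
      omega)))
  sb := fun v hv w hw h => (Nat.add_le_add_right (spr_s_le T x dh dm v) 1).trans
    (wf.sb v hv w hw (fun h0 => h (by
      have := spr_h_le (K := K) T x dh dm v w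
      omega)))

theorem spr_h_in (T : Finset ℕ) (x : ℕ → Bool) (dh dm : ℕ → ℕ → ℕ) {v w : ℕ}
    (h : v ∈ T ↔ w ∈ T) : (K.spr T x dh dm).h v w = K.h v w := by
  show K.h v w - _ = _
  rw [if_neg (by tauto), if_neg (by tauto)]
  exact Nat.sub_zero _

theorem spr_m_in (T : Finset ℕ) (x : ℕ → Bool) (dh dm : ℕ → ℕ → ℕ) {v w : ℕ}
    (h : v ∈ T ↔ w ∈ T) : (K.spr T x dh dm).m v w = K.m v w := by
  show K.m v w - _ = _
  rw [if_neg (by tauto), if_neg (by tauto)]
  exact Nat.sub_zero _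

theorem spr_h_out (T : Finset ℕ) (x : ℕ → Bool) (dh dm : ℕ → ℕ → ℕ) {v w : ℕ}
    (hv : v ∈ T) (hw : w ∉ T) : (K.spr T x dh dm).h v w = K.h v w - dh v w := by
  show K.h v w - _ = _
  rw [if_pos ⟨hv, hw⟩]

theorem spr_m_out (T : Finset ℕ) (x : ℕ → Bool) (dh dm : ℕ → ℕ → ℕ) {v w : ℕ}
    (hv : v ∈ T) (hw : w ∉ T) : (K.spr T x dh dm).m v w = K.m v w - dm v w := by
  show K.m v w - _ = _
  rw [if_pos ⟨hv, hw⟩]

theorem spr_t_in (T : Finset ℕ) (x : ℕ → Bool) (dh dm : ℕ → ℕ → ℕ) {v : ℕ}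
    (hv : v ∈ T) : (K.spr T x dh dm).t v = K.t v := if_pos hv

theorem spr_s_in (T : Finset ℕ) (x : ℕ → Bool) (dh dm : ℕ → ℕ → ℕ) {v : ℕ}
    (hv : v ∈ T) : (K.spr T x dh dm).s v = K.s v := if_pos hv

theorem spr_t_out (T : Finset ℕ) (x : ℕ → Bool) (dh dm : ℕ → ℕ → ℕ) {v : ℕ}
    (hv : v ∉ T) : (K.spr T x dh dm).t v = K.t v - ∑ u ∈ T, (if x u then dh u v else 0) :=
  if_neg hv

theorem spr_s_out (T : Finset ℕ) (x : ℕ → Bool) (dh dm : ℕ → ℕ → ℕ) {v : ℕ}
    (hv : v ∉ T) : (K.spr T x dh dm).s v = K.s v - ∑ u ∈ T, (if x u then 0 else dh u v) :=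
  if_neg hv

/-- The general extension lemma with spare units. -/
theorem ext_gen (wf : K.WF a b) (I : IHW a b K) (nc : ¬ Colorable K)
    {T : Finset ℕ} (hT : T ⊆ K.V) (hTne : T.Nonempty) {x : ℕ → Bool} {A : ℕ → ℕ → ℕ}
    (hcol : IsCol (K.res T) x A) (dh dm : ℕ → ℕ → ℕ)
    (hdh : ∀ v ∈ T, ∀ r ∈ K.V \ T, dh v r ≤ K.h v r)
    (hdm : ∀ v ∈ T, ∀ r ∈ K.V \ T, dm v r ≤ K.m v r)
    (hcap : ∀ v ∈ T, load K x A T v + 1 + ∑ r ∈ K.V \ T, (dh v r + dm v r) ≤ thr K (x v) v) :
    ∃ S ⊆ K.V \ T, S.Nonempty ∧ rho a b K (T ∪ S) + ((a : ℤ) - b) * (n1 K x T S : ℤ)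
      + (∑ v ∈ T, ∑ r ∈ S, if x v then ((b : ℤ) * (a - 1) - 2 * a + b) * dh v r + b * dm v r
          else ((b : ℤ) * (a - 1) - b) * dh v r + a * dm v r) ≤ rho a b K T - b := by
  classical
  obtain ⟨K', hK'⟩ : ∃ K', K' = K.spr T x dh dm := ⟨_, rfl⟩
  have wf' : K'.WF a b := by rw [hK']; exact spr_wf wf T x dh dm
  have hV' : K'.V = K.V := by rw [hK']; rfl
  have hT' : T ⊆ K'.V := by rw [hV']; exact hT
  have hout : ∀ r ∈ K.V \ T, r ∉ T := fun r hr => (mem_sdiff.1 hr).2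
  have hcol' : IsCol (K'.res T) x A := by
    refine IsCol.mono (G := K.res T) (G' := K'.res T) (fun _ h => h) ?_ ?_ ?_ ?_ hcol
    · intro v _ w _
      rw [hK']
      exact spr_h_le T x dh dm v w
    · intro v _ w _
      rw [hK']
      exact spr_m_le T x dh dm v w
    · intro v hv
      rw [hK']
      exact (spr_t_in (K := K) T x dh dm hv).ge
    · intro v hv
      rw [hK']
      exact (spr_s_in (K := K) T x dh dm hv).ge
  have hn : ¬ Colorable (K'.ctr T x) := by
    rintro ⟨y, B, hy⟩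
    obtain ⟨x', A', h, hx', hl⟩ := comb wf' hT' hcol' hy
    rw [hV'] at hl
    obtain ⟨A2, hA2⟩ : ∃ A2 : ℕ → ℕ → ℕ, ∀ v w, A2 v w
        = A' v w + (if v ∈ T ∧ w ∉ T then dm v w else 0) :=
      ⟨fun v w => A' v w + (if v ∈ T ∧ w ∉ T then dm v w else 0), fun _ _ => rfl⟩
    have hA2o : ∀ v ∈ T, ∀ w, w ∉ T → A2 v w = A' v w + dm v w := by
      intro v hv w hw
      rw [hA2, if_pos ⟨hv, hw⟩]
    have hA2i : ∀ v w, ¬ (v ∈ T ∧ w ∉ T) → A2 v w = A' v w := by
      intro v w hvw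
      rw [hA2, if_neg hvw, add_zero]
    have hA2g : ∀ v w, A' v w ≤ A2 v w := by
      intro v w
      rw [hA2]
      exact Nat.le_add_right _ _
    have hKh : ∀ v ∈ T, ∀ w, w ∉ T → K'.h v w = K.h v w - dh v w := by
      intro v hv w hw
      rw [hK']
      exact spr_h_out T x dh dm hv hw
    have hKi : ∀ v w, (v ∈ T ↔ w ∈ T) → K'.h v w = K.h v w := by
      intro v w hvw
      rw [hK']
      exact spr_h_in T x dh dm hvw
    refine nc ⟨x', A2, ?_, ?_⟩
    · intro v hv w hw hne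
      have h1 := h.cov v (by rw [hV']; exact hv) w (by rw [hV']; exact hw) hne
      have g1 := hA2g v w
      have g2 := hA2g w v
      by_cases hvT : v ∈ T <;> by_cases hwT : w ∈ T
      · rw [hK', spr_m_in T x dh dm (by tauto)] at h1
        omega
      · rw [hK', spr_m_out T x dh dm hvT hwT] at h1
        have g3 := hA2o v hvT w hwT
        omega
      · rw [hK', (spr_wf wf T x dh dm).msymm v w, spr_m_out T x dh dm hwT hvT] at h1
        have g3 := hA2o w hwT v hvT
        rw [wf.msymm v w]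
        omega
      · rw [hK', spr_m_in T x dh dm (by tauto)] at h1
        omega
    · intro v hv
      have hsplit : ∀ f : ℕ → ℕ, ∑ w ∈ K.V, f w = ∑ w ∈ K.V \ T, f w + ∑ w ∈ T, f w :=
        fun f => (sum_sdiff hT).symm
      by_cases hvT : v ∈ T
      · -- vertices of `T`
        have h1 : load K x' A2 K.V v
            ≤ load K' x' A' K.V v + ∑ r ∈ K.V \ T, (dh v r + dm v r) := by
          unfold load
          rw [hsplit, hsplit]
          have e1 : ∑ w ∈ K.V \ T, ((if x' v = x' w then K.h v w else 0) + A2 v w)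
              ≤ ∑ w ∈ K.V \ T, ((if x' v = x' w then K'.h v w else 0) + A' v w)
                + ∑ r ∈ K.V \ T, (dh v r + dm v r) := by
            rw [← sum_add_distrib]
            refine sum_le_sum fun w hw => ?_
            rw [hA2o v hvT w (hout w hw), hKh v hvT w (hout w hw)]
            split_ifs <;> omega
          have e2 : ∑ w ∈ T, ((if x' v = x' w then K.h v w else 0) + A2 v w)
              = ∑ w ∈ T, ((if x' v = x' w then K'.h v w else 0) + A' v w) := by
            refine sum_congr rfl fun w hw => ?_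
            rw [hA2i v w (fun hh => hh.2 hw), hKi v w (by tauto)]
          rw [e2]
          omega
        have h2 := hl v hvT
        have h3 : load K' x A T v = load K x A T v := by
          unfold load
          refine sum_congr rfl fun w hw => ?_
          rw [hK', spr_h_in T x dh dm (by tauto)]
        have h4 := hcap v hvT
        rw [hx' v hvT]
        omega
      · -- vertices outside
        have h0 : v ∈ K.V \ T := mem_sdiff.2 ⟨hv, hvT⟩
        have h1 : load K x' A2 K.V v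
            ≤ load K' x' A' K.V v + ∑ u ∈ T, (if x' u = x' v then dh u v else 0) := by
          unfold load
          rw [hsplit, hsplit]
          have e1 : ∑ w ∈ K.V \ T, ((if x' v = x' w then K.h v w else 0) + A2 v w)
              = ∑ w ∈ K.V \ T, ((if x' v = x' w then K'.h v w else 0) + A' v w) := by
            refine sum_congr rfl fun w hw => ?_
            rw [hA2i v w (fun hh => hvT hh.1), hKi v w (by have := hout w hw; tauto)]
          have e2 : ∑ w ∈ T, ((if x' v = x' w then K.h v w else 0) + A2 v w)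
              ≤ ∑ w ∈ T, ((if x' v = x' w then K'.h v w else 0) + A' v w)
                + ∑ u ∈ T, (if x' u = x' v then dh u v else 0) := by
            rw [← sum_add_distrib]
            refine sum_le_sum fun w hw => ?_
            rw [hA2i v w (fun hh => hvT hh.1), wf'.hsymm v w, hKh w hw v hvT, wf.hsymm v w]
            by_cases hxx : x' v = x' w
            · rw [if_pos hxx, if_pos hxx, if_pos hxx.symm]
              omega
            · rw [if_neg hxx, if_neg hxx]
              omega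
          rw [e1]
          omega
        have h2 := h.cap v (by rw [hV']; exact hv)
        rw [hV'] at h2
        have h3 : ∑ u ∈ T, (if x' u = x' v then dh u v else 0)
            = ∑ u ∈ T, (if x u = x' v then dh u v else 0) :=
          sum_congr rfl fun u hu => by rw [hx' u hu]
        have h4 : thr K' (x' v) v + ∑ u ∈ T, (if x u = x' v then dh u v else 0)
            ≤ thr K (x' v) v ∨ thr K' (x' v) v = 0 := by
          unfold thr
          cases hxv : x' v
          · have e : ∑ u ∈ T, (if x u = false then dh u v else 0)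
                = ∑ u ∈ T, (if x u then 0 else dh u v) := by
              refine sum_congr rfl fun u _ => ?_
              cases x u <;> simp
            rw [if_neg (by simp), if_neg (by simp), hK', spr_s_out T x dh dm hvT, e]
            omega
          · have e : ∑ u ∈ T, (if x u = true then dh u v else 0)
                = ∑ u ∈ T, (if x u then dh u v else 0) := rfl
            rw [if_pos rfl, if_pos rfl, hK', spr_t_out T x dh dm hvT, e]
            omega
        omega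
  have hcard : #(K'.V \ T) < #K.V := by
    rw [hV']
    refine card_lt_card ⟨sdiff_subset, fun h => ?_⟩
    obtain ⟨v, hv⟩ := hTne
    exact (mem_sdiff.1 (h (hT hv))).2 hv
  have hhc : hc (K'.ctr T x) ≤ hc K := by
    refine hc_mono (G := K) (G' := K'.ctr T x) ?_ ?_
    · show K'.V \ T ⊆ K.V
      rw [hV']
      exact sdiff_subset
    · intro v _ w _
      show K'.h v w ≤ K.h v w
      rw [hK']
      exact spr_h_le T x dh dm v w
  obtain ⟨S, hS, hSne, hr⟩ := I.ex (ctr_wf wf' T x) hhc hcard hn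
  have hS' : S ⊆ K.V \ T := by
    have : (K'.ctr T x).V = K.V \ T := by
      show K'.V \ T = _
      rw [hV']
    rw [this] at hS
    exact hS
  refine ⟨S, hS', hSne, ?_⟩
  have hST : ∀ r ∈ S, r ∉ T := fun r hr => hout r (hS' hr)
  have k1 := ctr_rho wf' hT' x (S := S) (by rw [hV']; exact hS'.trans sdiff_subset)
  have k2 : Disjoint T S := disjoint_left.2 fun v hv hvS => hST v hvS hv
  have k3 := rho_union (a := a) (b := b) wf k2
  -- potential of `S` in `K'`
  have k4 : rho a b K' S = rho a b K S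
      - ∑ r ∈ S, ((a : ℤ) * ((K.t r : ℤ) - K'.t r) + b * ((K.s r : ℤ) - K'.s r)) := by
    unfold rho
    have e1 : inner a b K' S = inner a b K S := by
      unfold inner
      refine sum_congr rfl fun v hv => sum_congr rfl fun w hw => ?_
      unfold wt
      have := hST v hv
      have := hST w hw
      rw [hK', spr_h_in T x dh dm (by tauto), spr_m_in T x dh dm (by tauto)]
    have e2 : ∑ r ∈ S, rv a b K' r = ∑ r ∈ S, rv a b K r
        - ∑ r ∈ S, ((a : ℤ) * ((K.t r : ℤ) - K'.t r) + b * ((K.s r : ℤ) - K'.s r)) := by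
      rw [← sum_sub_distrib]
      refine sum_congr rfl fun r _ => ?_
      unfold rv
      ring
    rw [e1, e2]
    ring
  have k5 : ∑ r ∈ S, ((a : ℤ) * ((K.t r : ℤ) - K'.t r) + b * ((K.s r : ℤ) - K'.s r))
      ≤ ∑ v ∈ T, ∑ r ∈ S, (if x v then (a : ℤ) * dh v r else b * dh v r) := by
    rw [sum_comm]
    refine sum_le_sum fun r hr => ?_
    have ht : (K.t r : ℤ) - K'.t r ≤ ∑ v ∈ T, (if x v then (dh v r : ℤ) else 0) := by
      rw [hK', spr_t_out T x dh dm (hST r hr)]
      have : (∑ v ∈ T, (if x v then (dh v r : ℤ) else 0))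
          = ((∑ u ∈ T, (if x u then dh u r else 0) : ℕ) : ℤ) := by
        push_cast
        rfl
      rw [this]
      omega
    have hs : (K.s r : ℤ) - K'.s r ≤ ∑ v ∈ T, (if x v then 0 else (dh v r : ℤ)) := by
      rw [hK', spr_s_out T x dh dm (hST r hr)]
      have : (∑ v ∈ T, (if x v then 0 else (dh v r : ℤ)))
          = ((∑ u ∈ T, (if x u then 0 else dh u r) : ℕ) : ℤ) := by
        push_cast
        rfl
      rw [this]
      omega
    have ha0 : (0 : ℤ) ≤ a := Int.natCast_nonneg _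
    have hb0 : (0 : ℤ) ≤ b := Int.natCast_nonneg _
    calc (a : ℤ) * ((K.t r : ℤ) - K'.t r) + b * ((K.s r : ℤ) - K'.s r)
        ≤ a * (∑ v ∈ T, (if x v then (dh v r : ℤ) else 0))
          + b * ∑ v ∈ T, (if x v then 0 else (dh v r : ℤ)) :=
          add_le_add (mul_le_mul_of_nonneg_left ht ha0) (mul_le_mul_of_nonneg_left hs hb0)
      _ = ∑ v ∈ T, (if x v then (a : ℤ) * dh v r else b * dh v r) := by
          rw [mul_sum, mul_sum, ← sum_add_distrib]
          refine sum_congr rfl fun v _ => ?_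
          split_ifs <;> ring
  have k6 : cross a b K' T S = cross a b K T S
      - ∑ v ∈ T, ∑ r ∈ S, ((b : ℤ) * (a - 1) * dh v r + a * dm v r) := by
    unfold cross
    rw [← sum_sub_distrib]
    refine sum_congr rfl fun v hv => ?_
    rw [← sum_sub_distrib]
    refine sum_congr rfl fun r hr => ?_
    unfold wt
    rw [hK', spr_h_out T x dh dm hv (hST r hr), spr_m_out T x dh dm hv (hST r hr)]
    push_cast [hdh v hv r (hS' hr), hdm v hv r (hS' hr)]
    ring
  have k7 : (n1 K' x T S : ℤ) = (n1 K x T S : ℤ)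
      - ∑ v ∈ T, ∑ r ∈ S, (if x v then (dh v r : ℤ) + dm v r else 0) := by
    unfold n1
    push_cast
    rw [← sum_sub_distrib]
    refine sum_congr rfl fun v hv => ?_
    rw [← sum_sub_distrib]
    refine sum_congr rfl fun r hr => ?_
    split_ifs
    · rw [hK', spr_h_out T x dh dm hv (hST r hr), spr_m_out T x dh dm hv (hST r hr)]
      push_cast [hdh v hv r (hS' hr), hdm v hv r (hS' hr)]
      ring
    · ring
  have k8 : (∑ v ∈ T, ∑ r ∈ S, if x v then ((b : ℤ) * (a - 1) - 2 * a + b) * dh v r + b * dm v r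
          else ((b : ℤ) * (a - 1) - b) * dh v r + a * dm v r)
      = ∑ v ∈ T, ∑ r ∈ S, ((b : ℤ) * (a - 1) * dh v r + a * dm v r)
        - ∑ v ∈ T, ∑ r ∈ S, (if x v then (a : ℤ) * dh v r else b * dh v r)
        - ((a : ℤ) - b) * ∑ v ∈ T, ∑ r ∈ S, (if x v then (dh v r : ℤ) + dm v r else 0) := by
    rw [mul_sum, ← sum_sub_distrib, ← sum_sub_distrib]
    refine sum_congr rfl fun v _ => ?_
    rw [mul_sum, ← sum_sub_distrib, ← sum_sub_distrib]
    refine sum_congr rfl fun r _ => ?_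
    split_ifs <;> ring
  rw [k8, k3]
  rw [k4, k6, k7] at k1
  linarith

theorem sum_pt {T S : Finset ℕ} {v0 r0 : ℕ} (hv0 : v0 ∈ T) (F : ℕ → ℤ) :
    (∑ v ∈ T, ∑ r ∈ S, if v = v0 ∧ r = r0 then F v else 0) = if r0 ∈ S then F v0 else 0 := by
  have e : ∀ v ∈ T, (∑ r ∈ S, if v = v0 ∧ r = r0 then F v else 0)
      = if v = v0 then (if r0 ∈ S then F v0 else 0) else 0 := by
    intro v _
    by_cases h : v = v0
    · subst h
      simp
    · simp [h]
  rw [sum_congr rfl e, sum_ite_eq' T v0, if_pos hv0]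

theorem sum_ptN {R : Finset ℕ} {v v0 r0 : ℕ} (c : ℕ) :
    (∑ r ∈ R, if v = v0 ∧ r = r0 then c else 0) ≤ if v = v0 then c else 0 := by
  by_cases h : v = v0
  · subst h
    simp only [true_and, if_true]
    rw [sum_ite_eq' R r0 (fun _ => c)]
    split_ifs <;> simp
  · simp [h]

/-- One spare unit at `v0`, used on an edge or a link to `r0`. -/
theorem ext1w {K : Str} (wf : K.WF 5 3) (I : IHW 5 3 K) (nc : ¬ Colorable K)
    {T : Finset ℕ} (hT : T ⊆ K.V) {x : ℕ → Bool} {A : ℕ → ℕ → ℕ}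
    (hcol : IsCol (K.res T) x A) {v0 r0 : ℕ} (hv0 : v0 ∈ T) (hr0 : r0 ∈ K.V \ T)
    (hsp : load K x A T v0 + 2 ≤ thr K (x v0) v0) {dh dm : ℕ}
    (h1 : dh ≤ K.h v0 r0) (h2 : dm ≤ K.m v0 r0) (h3 : dh + dm = 1) :
    ∃ S ⊆ K.V \ T, S.Nonempty ∧ rho 5 3 K (T ∪ S) + 2 * (n1 K x T S : ℤ)
      + (if r0 ∈ S then (if x v0 then 3 + 2 * (dh : ℤ) else 5 + 4 * dh) else 0)
      ≤ rho 5 3 K T - 3 := by
  obtain ⟨S, hS, hne, hr⟩ := ext_gen wf I nc hT ⟨v0, hv0⟩ hcol
    (fun v r => if v = v0 ∧ r = r0 then dh else 0) (fun v r => if v = v0 ∧ r = r0 then dm else 0)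
    (by
      intro v _ r _
      show (if v = v0 ∧ r = r0 then dh else 0) ≤ _
      split_ifs with h
      · rw [h.1, h.2]
        exact h1
      · exact Nat.zero_le _)
    (by
      intro v _ r _
      show (if v = v0 ∧ r = r0 then dm else 0) ≤ _
      split_ifs with h
      · rw [h.1, h.2]
        exact h2
      · exact Nat.zero_le _)
    (by
      intro v hv
      have hc : load K x A T v + 1 ≤ thr K (x v) v := hcol.cap v hv
      have e : ∑ r ∈ K.V \ T, ((if v = v0 ∧ r = r0 then dh else 0)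
          + (if v = v0 ∧ r = r0 then dm else 0))
          = ∑ r ∈ K.V \ T, (if v = v0 ∧ r = r0 then 1 else 0) := by
        refine sum_congr rfl fun r _ => ?_
        split_ifs <;> omega
      show load K x A T v + 1 + ∑ r ∈ K.V \ T, ((if v = v0 ∧ r = r0 then dh else 0)
          + (if v = v0 ∧ r = r0 then dm else 0)) ≤ _
      rw [e]
      have := sum_ptN (R := K.V \ T) (v := v) (v0 := v0) (r0 := r0) 1
      by_cases h : v = v0
      · subst h
        rw [if_pos rfl] at this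
        omega
      · rw [if_neg h] at this
        omega)
  refine ⟨S, hS, hne, ?_⟩
  have e : (∑ v ∈ T, ∑ r ∈ S, if x v then (((3 : ℕ) : ℤ) * (((5 : ℕ) : ℤ) - 1) - 2 * ((5 : ℕ) : ℤ)
        + ((3 : ℕ) : ℤ)) * ((if v = v0 ∧ r = r0 then dh else 0 : ℕ) : ℤ)
        + ((3 : ℕ) : ℤ) * ((if v = v0 ∧ r = r0 then dm else 0 : ℕ) : ℤ)
      else (((3 : ℕ) : ℤ) * (((5 : ℕ) : ℤ) - 1) - ((3 : ℕ) : ℤ))
        * ((if v = v0 ∧ r = r0 then dh else 0 : ℕ) : ℤ)
        + ((5 : ℕ) : ℤ) * ((if v = v0 ∧ r = r0 then dm else 0 : ℕ) : ℤ))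
      = ∑ v ∈ T, ∑ r ∈ S, (if v = v0 ∧ r = r0 then
        (if x v then 3 + 2 * (dh : ℤ) else 5 + 4 * dh) else 0) := by
    refine sum_congr rfl fun v _ => sum_congr rfl fun r _ => ?_
    have h3' : (dm : ℤ) = 1 - dh := by
      have : (dh : ℤ) + dm = 1 := by exact_mod_cast h3
      linarith
    by_cases h : v = v0 ∧ r = r0
    · simp only [h, and_self, if_true]
      rw [h3']
      push_cast
      split_ifs <;> ring
    · simp only [h, if_false]
      push_cast
      split_ifs <;> ring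
  rw [e, sum_pt hv0 (fun v => if x v then 3 + 2 * (dh : ℤ) else 5 + 4 * dh)] at hr
  push_cast at hr
  linarith

/-- Two spare units. -/
theorem ext2w {K : Str} (wf : K.WF 5 3) (I : IHW 5 3 K) (nc : ¬ Colorable K)
    {T : Finset ℕ} (hT : T ⊆ K.V) {x : ℕ → Bool} {A : ℕ → ℕ → ℕ}
    (hcol : IsCol (K.res T) x A) {v0 r0 v1 r1 : ℕ} (hv0 : v0 ∈ T) (hr0 : r0 ∈ K.V \ T)
    (hv1 : v1 ∈ T) (hr1 : r1 ∈ K.V \ T)
    (hs0 : load K x A T v0 + 2 + (if v0 = v1 then 1 else 0) ≤ thr K (x v0) v0)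
    (hs1 : load K x A T v1 + 2 ≤ thr K (x v1) v1) {dh0 dm0 dh1 dm1 : ℕ}
    (h0 : dh0 + (if v0 = v1 ∧ r0 = r1 then dh1 else 0) ≤ K.h v0 r0)
    (m0 : dm0 + (if v0 = v1 ∧ r0 = r1 then dm1 else 0) ≤ K.m v0 r0) (e0 : dh0 + dm0 = 1)
    (h1 : dh1 ≤ K.h v1 r1) (m1 : dm1 ≤ K.m v1 r1) (e1 : dh1 + dm1 = 1) :
    ∃ S ⊆ K.V \ T, S.Nonempty ∧ rho 5 3 K (T ∪ S) + 2 * (n1 K x T S : ℤ)
      + (if r0 ∈ S then (if x v0 then 3 + 2 * (dh0 : ℤ) else 5 + 4 * dh0) else 0)
      + (if r1 ∈ S then (if x v1 then 3 + 2 * (dh1 : ℤ) else 5 + 4 * dh1) else 0)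
      ≤ rho 5 3 K T - 3 := by
  obtain ⟨S, hS, hne, hr⟩ := ext_gen wf I nc hT ⟨v0, hv0⟩ hcol
    (fun v r => (if v = v0 ∧ r = r0 then dh0 else 0) + (if v = v1 ∧ r = r1 then dh1 else 0))
    (fun v r => (if v = v0 ∧ r = r0 then dm0 else 0) + (if v = v1 ∧ r = r1 then dm1 else 0))
    (by
      intro v _ r _
      show (if v = v0 ∧ r = r0 then dh0 else 0) + (if v = v1 ∧ r = r1 then dh1 else 0) ≤ _
      by_cases ha : v = v0 ∧ r = r0
      · rw [if_pos ha, ha.1, ha.2]
        exact h0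
      · rw [if_neg ha, zero_add]
        split_ifs with hb
        · rw [hb.1, hb.2]
          exact h1
        · exact Nat.zero_le _)
    (by
      intro v _ r _
      show (if v = v0 ∧ r = r0 then dm0 else 0) + (if v = v1 ∧ r = r1 then dm1 else 0) ≤ _
      by_cases ha : v = v0 ∧ r = r0
      · rw [if_pos ha, ha.1, ha.2]
        exact m0
      · rw [if_neg ha, zero_add]
        split_ifs with hb
        · rw [hb.1, hb.2]
          exact m1
        · exact Nat.zero_le _)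
    (by
      intro v hv
      have hc : load K x A T v + 1 ≤ thr K (x v) v := hcol.cap v hv
      have e : ∑ r ∈ K.V \ T, (((if v = v0 ∧ r = r0 then dh0 else 0)
          + (if v = v1 ∧ r = r1 then dh1 else 0)) + ((if v = v0 ∧ r = r0 then dm0 else 0)
          + (if v = v1 ∧ r = r1 then dm1 else 0)))
          = ∑ r ∈ K.V \ T, (if v = v0 ∧ r = r0 then 1 else 0)
            + ∑ r ∈ K.V \ T, (if v = v1 ∧ r = r1 then 1 else 0) := by
        rw [← sum_add_distrib]
        refine sum_congr rfl fun r _ => ?_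
        split_ifs <;> omega
      show load K x A T v + 1 + ∑ r ∈ K.V \ T, (((if v = v0 ∧ r = r0 then dh0 else 0)
          + (if v = v1 ∧ r = r1 then dh1 else 0)) + ((if v = v0 ∧ r = r0 then dm0 else 0)
          + (if v = v1 ∧ r = r1 then dm1 else 0))) ≤ _
      rw [e]
      have g0 := sum_ptN (R := K.V \ T) (v := v) (v0 := v0) (r0 := r0) 1
      have g1 := sum_ptN (R := K.V \ T) (v := v) (v0 := v1) (r0 := r1) 1
      by_cases ha : v = v0
      · subst ha
        rw [if_pos rfl] at g0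
        split_ifs at hs0 g1 <;> omega
      · rw [if_neg ha] at g0
        by_cases hb : v = v1
        · subst hb
          rw [if_pos rfl] at g1
          omega
        · rw [if_neg hb] at g1
          omega)
  refine ⟨S, hS, hne, ?_⟩
  have e : (∑ v ∈ T, ∑ r ∈ S, if x v then (((3 : ℕ) : ℤ) * (((5 : ℕ) : ℤ) - 1) - 2 * ((5 : ℕ) : ℤ)
        + ((3 : ℕ) : ℤ)) * (((if v = v0 ∧ r = r0 then dh0 else 0)
          + (if v = v1 ∧ r = r1 then dh1 else 0) : ℕ) : ℤ)
        + ((3 : ℕ) : ℤ) * (((if v = v0 ∧ r = r0 then dm0 else 0)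
          + (if v = v1 ∧ r = r1 then dm1 else 0) : ℕ) : ℤ)
      else (((3 : ℕ) : ℤ) * (((5 : ℕ) : ℤ) - 1) - ((3 : ℕ) : ℤ))
        * (((if v = v0 ∧ r = r0 then dh0 else 0)
          + (if v = v1 ∧ r = r1 then dh1 else 0) : ℕ) : ℤ)
        + ((5 : ℕ) : ℤ) * (((if v = v0 ∧ r = r0 then dm0 else 0)
          + (if v = v1 ∧ r = r1 then dm1 else 0) : ℕ) : ℤ))
      = (∑ v ∈ T, ∑ r ∈ S, (if v = v0 ∧ r = r0 then
        (if x v then 3 + 2 * (dh0 : ℤ) else 5 + 4 * dh0) else 0))
        + ∑ v ∈ T, ∑ r ∈ S, (if v = v1 ∧ r = r1 then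
        (if x v then 3 + 2 * (dh1 : ℤ) else 5 + 4 * dh1) else 0) := by
    rw [← sum_add_distrib]
    refine sum_congr rfl fun v _ => ?_
    rw [← sum_add_distrib]
    refine sum_congr rfl fun r _ => ?_
    have h3' : (dm0 : ℤ) = 1 - dh0 := by
      have : (dh0 : ℤ) + dm0 = 1 := by exact_mod_cast e0
      linarith
    have h3'' : (dm1 : ℤ) = 1 - dh1 := by
      have : (dh1 : ℤ) + dm1 = 1 := by exact_mod_cast e1
      linarith
    have c0 : (((if v = v0 ∧ r = r0 then dh0 else 0)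
          + (if v = v1 ∧ r = r1 then dh1 else 0) : ℕ) : ℤ)
        = (if v = v0 ∧ r = r0 then (dh0 : ℤ) else 0) + (if v = v1 ∧ r = r1 then (dh1 : ℤ) else 0) := by
      push_cast
      rfl
    have c1 : (((if v = v0 ∧ r = r0 then dm0 else 0)
          + (if v = v1 ∧ r = r1 then dm1 else 0) : ℕ) : ℤ)
        = (if v = v0 ∧ r = r0 then 1 - (dh0 : ℤ) else 0)
          + (if v = v1 ∧ r = r1 then 1 - (dh1 : ℤ) else 0) := by
      rw [← h3', ← h3'']
      push_cast
      rfl
    rw [c0, c1]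
    push_cast
    split_ifs <;> ring
  rw [e, sum_pt hv0 (fun v => if x v then 3 + 2 * (dh0 : ℤ) else 5 + 4 * dh0),
    sum_pt hv1 (fun v => if x v then 3 + 2 * (dh1 : ℤ) else 5 + 4 * dh1)] at hr
  push_cast at hr
  linarith

/-- No spare unit. -/
theorem ext0w {K : Str} (wf : K.WF 5 3) (I : IHW 5 3 K) (nc : ¬ Colorable K)
    {T : Finset ℕ} (hT : T ⊆ K.V) (hTne : T.Nonempty) {x : ℕ → Bool} {A : ℕ → ℕ → ℕ}
    (hcol : IsCol (K.res T) x A) :
    ∃ S ⊆ K.V \ T, S.Nonempty ∧ rho 5 3 K (T ∪ S) + 2 * (n1 K x T S : ℤ)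
      ≤ rho 5 3 K T - 3 := by
  obtain ⟨S, hS, hne, hr⟩ := ext_gen wf I nc hT hTne hcol (fun _ _ => 0) (fun _ _ => 0)
    (fun _ _ _ _ => Nat.zero_le _) (fun _ _ _ _ => Nat.zero_le _) (by
      intro v hv
      have hc : load K x A T v + 1 ≤ thr K (x v) v := hcol.cap v hv
      simpa using hc)
  refine ⟨S, hS, hne, ?_⟩
  have e : (∑ v ∈ T, ∑ _r ∈ S, if x v then (((3 : ℕ) : ℤ) * (((5 : ℕ) : ℤ) - 1)
      - 2 * ((5 : ℕ) : ℤ) + ((3 : ℕ) : ℤ)) * ((0 : ℕ) : ℤ) + ((3 : ℕ) : ℤ) * ((0 : ℕ) : ℤ)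
      else (((3 : ℕ) : ℤ) * (((5 : ℕ) : ℤ) - 1) - ((3 : ℕ) : ℤ)) * ((0 : ℕ) : ℤ)
        + ((5 : ℕ) : ℤ) * ((0 : ℕ) : ℤ)) = 0 := by
    refine sum_eq_zero fun v _ => sum_eq_zero fun r _ => ?_
    split_ifs <;> simp
  rw [e] at hr
  push_cast at hr
  linarith

end

end Pool.Agent.Lib.MP_4006b4_co_c
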