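import Mathlib
import Pool.Agent.Lib.MP_4006b4_co_c.Aux5
import Pool.Agent.Lib.MP_4006b4_co_c.ExtGen

/-!
# Extension lemmas with spare units (piece E)
-/

open Finset

namespace Pool.Agent.Lib.MP_4006b4_co_c

section

variable {K : Str}

/-- Additional saving (beyond the `2 * n1` term) of a spared edge (`dh = 1`) or link (`dh = 0`). -/
def gain (c : Bool) (dh : ℕ) : ℤ := if c then 3 + 2 * (dh : ℤ) else 5 + 4 * (dh : ℤ)

theorem IHV.toW (ih : IHV K) : IHW 5 3 K := fun G' wf' hp h1 h2 =>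
  ih G' wf' (fun S hS hne => by have := hp S hS hne; push_cast at this; linarith) h1 h2

theorem ext0 (wf : K.WF 5 3) (ih : IHV K) (nc : ¬ Colorable K) {T : Finset ℕ} (hT : T ⊆ K.V)
    (hne : T.Nonempty) {x : ℕ → Bool} {A : ℕ → ℕ → ℕ} (hc : IsCol (K.res T) x A) :
    ∃ S ⊆ K.V \ T, S.Nonempty ∧
      rho 5 3 K (T ∪ S) + 2 * (n1 K x T S : ℤ) ≤ rho 5 3 K T - 3 :=
  ext0w wf ih.toW nc hT hne hc

theorem ext1 (wf : K.WF 5 3) (ih : IHV K) (nc : ¬ Colorable K) {T : Finset ℕ} (hT : T ⊆ K.V)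
    {x : ℕ → Bool} {A : ℕ → ℕ → ℕ} (hc : IsCol (K.res T) x A)
    {v0 r0 dh dm : ℕ} (hv0 : v0 ∈ T) (hr0 : r0 ∈ K.V \ T) (h1 : dh ≤ K.h v0 r0)
    (h2 : dm ≤ K.m v0 r0) (h3 : dh + dm = 1) (hsp : load K x A T v0 + 2 ≤ thr K (x v0) v0) :
    ∃ S ⊆ K.V \ T, S.Nonempty ∧
      rho 5 3 K (T ∪ S) + 2 * (n1 K x T S : ℤ) + (if r0 ∈ S then gain (x v0) dh else 0)
        ≤ rho 5 3 K T - 3 :=
  ext1w wf ih.toW nc hT hc hv0 hr0 hsp h1 h2 h3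

/-- Two spare units, at `(v0, r0)` and `(v1, r1)`; `v0 = v1` (even `r0 = r1`) is allowed. -/
theorem ext2 (wf : K.WF 5 3) (ih : IHV K) (nc : ¬ Colorable K) {T : Finset ℕ} (hT : T ⊆ K.V)
    {x : ℕ → Bool} {A : ℕ → ℕ → ℕ} (hc : IsCol (K.res T) x A)
    {v0 r0 dh0 dm0 v1 r1 dh1 dm1 : ℕ}
    (hv0 : v0 ∈ T) (hr0 : r0 ∈ K.V \ T) (h10 : dh0 ≤ K.h v0 r0) (h20 : dm0 ≤ K.m v0 r0)
    (h30 : dh0 + dm0 = 1)
    (hv1 : v1 ∈ T) (hr1 : r1 ∈ K.V \ T) (h11 : dh1 + dh0 * dl v0 r0 v1 r1 ≤ K.h v1 r1)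
    (h21 : dm1 + dm0 * dl v0 r0 v1 r1 ≤ K.m v1 r1) (h31 : dh1 + dm1 = 1)
    (hsp0 : load K x A T v0 + 2 ≤ thr K (x v0) v0) (hsp1 : load K x A T v1 + 2 ≤ thr K (x v1) v1)
    (hsp : v0 = v1 → load K x A T v0 + 3 ≤ thr K (x v0) v0) :
    ∃ S ⊆ K.V \ T, S.Nonempty ∧
      rho 5 3 K (T ∪ S) + 2 * (n1 K x T S : ℤ) + (if r0 ∈ S then gain (x v0) dh0 else 0)
        + (if r1 ∈ S then gain (x v1) dh1 else 0) ≤ rho 5 3 K T - 3 := by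
  refine ext2w wf ih.toW nc hT hc hv0 hr0 hv1 hr1 ?_ hsp1 ?_ ?_ h30
    (le_trans (Nat.le_add_right _ _) h11) (le_trans (Nat.le_add_right _ _) h21) h31
  · split_ifs with h
    · exact hsp h
    · exact hsp0
  · split_ifs with h
    · obtain ⟨rfl, rfl⟩ := h
      rw [dl_pq] at h11
      omega
    · simpa using h10
  · split_ifs with h
    · obtain ⟨rfl, rfl⟩ := h
      rw [dl_pq] at h21
      omega
    · simpa using h20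

end

end Pool.Agent.Lib.MP_4006b4_co_c
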