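import Mathlib
import Pool.Agent.Lib.MP_4006b4_co_c.ExtS

/-!
# Nearly tight dead structures (3.1 - 3.3, 3.6)
-/

open Finset

namespace Pool.Agent.Lib.MP_4006b4_co_c

/-- A dead structure all of whose proper parts are fine and whose potential is `-3` or `-4`. -/
structure Crit (K : Str) : Prop where
  wf : K.WF 5 3
  nc : ¬ Colorable K
  ih : ∀ G' : Str, G'.WF 5 3 → (∀ S ⊆ G'.V, S.Nonempty → (-2 : ℤ) ≤ rho 5 3 G' S) →
    hc G' ≤ hc K → Colorable G'
  pos : ∀ S ⊆ K.V, S.Nonempty → S ≠ K.V → (-2 : ℤ) ≤ rho 5 3 K S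
  d1 : (-4 : ℤ) ≤ rho 5 3 K K.V
  d2 : rho 5 3 K K.V ≤ -3

section

variable {K : Str}

theorem Crit.ihv (C : Crit K) : IHV K := fun G' w p h _ => C.ih G' w p h

/-- Proper parts are colourable. -/
theorem Crit.colres (C : Crit K) {T : Finset ℕ} (hT : T ⊆ K.V) (hTV : T ≠ K.V) :
    Colorable (K.res T) := by
  refine C.ih (K.res T) (sub_wf C.wf hT (t := K.t) (s := K.s) (fun _ => le_rfl) fun _ => le_rfl)
    (fun S hS hne => ?_) (hc_mono hT fun _ _ _ _ => le_rfl)
  have h1 : rho 5 3 (K.res T) S = rho 5 3 K S :=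
    rho_congr (fun _ _ _ _ => rfl) (fun _ _ _ _ => rfl) (fun _ _ => rfl) fun _ _ => rfl
  rw [h1]
  refine C.pos S (hS.trans hT) hne fun h => hTV ?_
  exact Subset.antisymm hT (h ▸ hS)

/-- 3.1. [Take `T` proper nonempty with minimal `rho`; it is colourable (`C.ih`), `ext0` gives `S`
with `rho (T + S) ≤ rho T - 3`, so `T + S = V`.] -/
theorem Crit.c31 (C : Crit K) {T : Finset ℕ} (hT : T ⊆ K.V) (hne : T.Nonempty) (hTV : T ≠ K.V) :
    rho 5 3 K K.V + 3 ≤ rho 5 3 K T := by
  classical
  obtain ⟨T0, hT0, hmin⟩ := exists_min_image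
    (K.V.powerset.filter fun X => X.Nonempty ∧ X ≠ K.V) (fun X => rho 5 3 K X)
    ⟨T, mem_filter.2 ⟨mem_powerset.2 hT, hne, hTV⟩⟩
  obtain ⟨h0, hne0, hTV0⟩ := mem_filter.1 hT0
  rw [mem_powerset] at h0
  obtain ⟨x, A, hc⟩ := C.colres h0 hTV0
  obtain ⟨S, hS, hSne, hr⟩ := ext0 C.wf C.ihv C.nc h0 hne0 hc
  have hm := hmin T (mem_filter.2 ⟨mem_powerset.2 hT, hne, hTV⟩)
  have hn : (0 : ℤ) ≤ (n1 K x T0 S : ℤ) := Int.natCast_nonneg _
  by_cases hV : T0 ∪ S = K.V
  · rw [hV] at hr
    linarith
  · have := hmin (T0 ∪ S) (mem_filter.2 ⟨mem_powerset.2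
      (union_subset h0 (hS.trans sdiff_subset)), hne0.mono subset_union_left, hV⟩)
    linarith

/-- 3.2, first part: saturation. [`ext1`; every spared edge saves at least 5 in total, the `2 n1`
term counts for state 1.] -/
theorem Crit.sat (C : Crit K) {T : Finset ℕ} (hT : T ⊆ K.V)
    (hr : rho 5 3 K T ≤ rho 5 3 K K.V + 5) {x : ℕ → Bool} {A : ℕ → ℕ → ℕ}
    (hc : IsCol (K.res T) x A) {v r : ℕ} (hv : v ∈ T) (hrV : r ∈ K.V \ T)
    (hvr : K.h v r + K.m v r ≠ 0) : load K x A T v + 1 = thr K (x v) v := by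
  have hcap : load K x A T v + 1 ≤ thr K (x v) v := hc.cap v hv
  by_contra hcon
  have hsp : load K x A T v + 2 ≤ thr K (x v) v := by omega
  have key : ∀ dh dm : ℕ, dh ≤ K.h v r → dm ≤ K.m v r → dh + dm = 1 → False := by
    intro dh dm h1 h2 h3
    obtain ⟨S, hS, hSne, hle⟩ := ext1 C.wf C.ihv C.nc hT hc hv hrV h1 h2 h3 hsp
    have hg : (3 : ℤ) ≤ gain (x v) dh := by
      unfold gain
      split_ifs <;> omega
    have hn : (0 : ℤ) ≤ (n1 K x T S : ℤ) := Int.natCast_nonneg _
    by_cases hV : T ∪ S = K.V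
    · have hrS : r ∈ S := by
        have : r ∈ T ∪ S := hV ▸ (mem_sdiff.1 hrV).1
        rcases mem_union.1 this with h | h
        · exact absurd h (mem_sdiff.1 hrV).2
        · exact h
      rw [hV, if_pos hrS] at hle
      rcases hx : x v with _ | _
      · rw [hx] at hle
        unfold gain at hle
        rw [if_neg (by simp)] at hle
        linarith [Int.natCast_nonneg dh]
      · have h4 := out_le_n1 (G := K) hv hx S
        have h5 := kk_pos (G := K) (w := v) hrS
        have h6 := nn_pos (G := K) (w := v) hrS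
        have h7 : (1 : ℤ) ≤ (n1 K x T S : ℤ) := by
          have : 1 ≤ n1 K x T S := by omega
          exact_mod_cast this
        linarith
    · have h8 := C.c31 (union_subset hT (hS.trans sdiff_subset)) ⟨v, mem_union_left _ hv⟩ hV
      split_ifs at hle <;> linarith
  by_cases hm : K.m v r = 0
  · exact key 1 0 (by omega) (by omega) rfl
  · exact key 0 1 (by omega) (by omega) rfl

/-- 3.2, second part: the boundary is in state 2. [`ext0`: only `V` can be a violator, so
`n1 = 0`.] -/
theorem Crit.st2 (C : Crit K) {T : Finset ℕ} (hT : T ⊆ K.V)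
    (hr : rho 5 3 K T ≤ 0) {x : ℕ → Bool} {A : ℕ → ℕ → ℕ}
    (hc : IsCol (K.res T) x A) {v r : ℕ} (hv : v ∈ T) (hrV : r ∈ K.V \ T)
    (hvr : K.h v r + K.m v r ≠ 0) : x v = false := by
  by_contra hcon
  have hx : x v = true := by simpa using hcon
  obtain ⟨S, hS, hSne, hle⟩ := ext0 C.wf C.ihv C.nc hT ⟨v, hv⟩ hc
  have hn : (0 : ℤ) ≤ (n1 K x T S : ℤ) := Int.natCast_nonneg _
  have hd1 := C.d1
  by_cases hV : T ∪ S = K.V
  · have hrS : r ∈ S := by
      have : r ∈ T ∪ S := hV ▸ (mem_sdiff.1 hrV).1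
      rcases mem_union.1 this with h | h
      · exact absurd h (mem_sdiff.1 hrV).2
      · exact h
    rw [hV] at hle
    have h4 := out_le_n1 (G := K) hv hx S
    have h5 := kk_pos (G := K) (w := v) hrS
    have h6 := nn_pos (G := K) (w := v) hrS
    have h7 : (1 : ℤ) ≤ (n1 K x T S : ℤ) := by
      have : 1 ≤ n1 K x T S := by omega
      exact_mod_cast this
    linarith
  · have h8 := C.c31 (union_subset hT (hS.trans sdiff_subset)) ⟨v, mem_union_left _ hv⟩ hV
    linarith

/-- A part that is not colourable is everything. -/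
theorem Crit.dead (C : Crit K) {T : Finset ℕ} (hT : T ⊆ K.V) (hn : ¬ Colorable (K.res T)) :
    T = K.V := by
  by_contra h
  exact hn (C.colres hT h)

/-- 3.3. [Link: delete it and lower `s z`; a violator `S` has `z ∈ S`, `y ∉ S`, `rho S ≤ 0`.
Edge: delete it, lower `s z` and `s y`; the only other possible violator has `y ∈ S`, `z ∉ S`,
`rho S ≤ 0`; by `sat`, `st2` for `S` and `t z = 0` the set `S + z` is not colourable, so it is `V`;
then `12 * kk + 5 * nn ≤ 3 * s z + 1 ≤ 13`, so `s z = 4`, `kk = 1`, `nn = 0`.] -/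
theorem Crit.sets (C : Crit K) {z y : ℕ} (hz : z ∈ K.V) (hy : y ∈ K.V) (hzt : K.t z = 0)
    (hzy : K.h z y + K.m z y ≠ 0)
    (hdeg : ¬ (K.s z = 4 ∧ kk K z K.V = 1 ∧ nn K z K.V = 0)) :
    ∃ S ⊆ K.V, z ∈ S ∧ y ∉ S ∧ rho 5 3 K S ≤ 0 := by
  have hne : z ≠ y := by
    rintro rfl
    rw [C.wf.hirr, C.wf.mirr] at hzy
    exact hzy rfl
  have hd1 := C.d1
  have hd2 := C.d2
  by_cases hm : K.m z y = 0
  · -- an edge
    have hh : 1 ≤ K.h z y := by omega
    have hh1 : K.h z y = 1 := le_antisymm (C.wf.hle z y) hh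
    obtain ⟨s', hs'⟩ : ∃ s', s' = dec (dec K.s z) y := ⟨_, rfl⟩
    have hsz : s' z = K.s z - 1 := by rw [hs', dec_ne _ hne, dec_self]
    have hsy : s' y = K.s y - 1 := by rw [hs', dec_self, dec_ne _ hne.symm]
    have hsle : ∀ v, s' v ≤ K.s v := by
      intro v
      rw [hs']
      exact (dec_le _ _ _).trans (dec_le _ _ _)
    have hn : ¬ Colorable (K.rem z y 1 0 K.t s') := by
      rintro ⟨x, B, hB⟩
      have hxz : x z = false := by
        by_contra hcon
        have hx : x z = true := by simpa using hcon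
        have h1 := hB.cap z hz
        rw [hx, thr_true] at h1
        have h2 : (K.rem z y 1 0 K.t s').t z = 0 := hzt
        omega
      refine C.nc (restore hy hne hB ?_)
      intro v hv
      have h1 := hB.cap v hv
      change load (K.rem z y 1 0 K.t s') x B K.V v + 1 ≤ _ at h1
      by_cases hvz : v = z
      · subst hvz
        rw [hxz, thr_false] at h1 ⊢
        change _ ≤ s' v at h1
        rw [hsz] at h1
        split_ifs <;> omega
      · by_cases hvy : v = y
        · subst hvy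
          by_cases hxy : x z = x v
          · rw [if_pos ⟨hxy, Or.inr rfl⟩]
            rw [← hxy, hxz, thr_false] at h1 ⊢
            change _ ≤ s' v at h1
            rw [hsy] at h1
            split_ifs <;> omega
          · rw [if_neg (fun h => hxy h.1)]
            have hx : x v = true := by
              rw [hxz] at hxy
              simpa using Ne.symm hxy
            rw [hx, thr_true] at h1 ⊢
            change _ ≤ K.t v at h1
            split_ifs <;> omega
        · rw [if_neg (fun h => by tauto), if_neg hvz]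
          refine h1.trans ?_
          unfold thr
          split_ifs
          · exact le_rfl
          · exact hsle v
    have hcon : ¬ ∀ S ⊆ K.V, S.Nonempty → (-2 : ℤ) ≤ rho 5 3 (K.rem z y 1 0 K.t s') S := by
      intro h
      exact hn (C.ih _ (rem_wf C.wf (fun _ => le_rfl) hsle) h
        (hc_mono (fun _ h => h) fun v _ w _ => Nat.sub_le _ _))
    push Not at hcon
    obtain ⟨S, hS, hSne, hlt⟩ := hcon
    rw [rem_rho C.wf hne (by omega) (Nat.zero_le _), sum_same] at hlt
    have hcost := sum_dec2_le (f := K.s) (u := z) (w := y) S (c := (3 : ℤ)) (by norm_num)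
    rw [← hs'] at hcost
    push_cast at hlt
    by_cases hzS : z ∈ S
    · by_cases hyS : y ∈ S
      · exfalso
        rw [if_pos ⟨hzS, hyS⟩] at hlt
        rw [if_pos hzS, if_pos hyS] at hcost
        by_cases hSV : S = K.V
        · rw [hSV] at hlt hcost
          linarith
        · have := C.pos S hS hSne hSV
          linarith
      · refine ⟨S, hS, hzS, hyS, ?_⟩
        rw [if_neg (fun h => hyS h.2)] at hlt
        rw [if_pos hzS, if_neg hyS] at hcost
        linarith
    · exfalso
      have hSV : S ≠ K.V := fun h => hzS (h ▸ hz)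
      rw [if_neg (fun h => hzS h.1)] at hlt
      rw [if_neg hzS] at hcost
      by_cases hyS : y ∈ S
      · rw [if_pos hyS] at hcost
        have hr0 : rho 5 3 K S ≤ 0 := by linarith
        have hzV : z ∈ K.V \ S := mem_sdiff.2 ⟨hz, hzS⟩
        have hyz : K.h y z + K.m y z ≠ 0 := by rw [C.wf.hsymm y z, C.wf.msymm y z]; exact hzy
        have hdead : ¬ Colorable (K.res (insert z S)) := by
          rintro ⟨x, A, hc⟩
          have hc' : IsCol (K.res S) x A := res_mono (subset_insert _ _) hc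
          have h1 := C.sat hS (by linarith) hc' hyS hzV hyz
          have h2 := C.st2 hS hr0 hc' hyS hzV hyz
          have hxz : x z = false := by
            by_contra hcon
            have hx : x z = true := by simpa using hcon
            have h3 := hc.cap z (mem_insert_self _ _)
            rw [hx, thr_true] at h3
            change _ ≤ K.t z at h3
            omega
          have h3 := hc.cap y (mem_insert_of_mem hyS)
          change load K x A (insert z S) y + 1 ≤ thr K (x y) y at h3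
          have h4 : load K x A S y + 1 ≤ load K x A (insert z S) y := by
            unfold load
            rw [sum_insert hzS, h2, hxz, if_pos rfl, C.wf.hsymm y z, hh1]
            omega
          omega
        have hV : insert z S = K.V := C.dead (insert_subset hz hS) hdead
        have hrho := rho_ins C.wf hzS
        rw [hV, hzt] at hrho
        have hk1 : kk K z K.V = kk K z S := by
          rw [← hV]
          unfold kk
          rw [sum_insert hzS, C.wf.hirr, zero_add]
        have hn1 : nn K z K.V = nn K z S := by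
          rw [← hV]
          unfold nn
          rw [sum_insert hzS, C.wf.mirr, zero_add]
        have hkpos : 1 ≤ kk K z S := by
          have := kk_pos (G := K) (w := z) hyS
          omega
        have hs4 : K.s z ≤ 4 := by
          have := C.wf.sb z hz y hy (by omega)
          omega
        refine hdeg ?_
        rw [hk1, hn1]
        push_cast at hrho
        omega
      · rw [if_neg hyS] at hcost
        have := C.pos S hS hSne hSV
        linarith
  · -- a link
    have hmm : 1 ≤ K.m z y := by omega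
    obtain ⟨s', hs'⟩ : ∃ s', s' = dec K.s z := ⟨_, rfl⟩
    have hsz : s' z = K.s z - 1 := by rw [hs', dec_self]
    have hsle : ∀ v, s' v ≤ K.s v := by
      intro v
      rw [hs']
      exact dec_le _ _ _
    have hn : ¬ Colorable (K.rem z y 0 1 K.t s') := by
      rintro ⟨x, B, hB⟩
      have hxz : x z = false := by
        by_contra hcon
        have hx : x z = true := by simpa using hcon
        have h1 := hB.cap z hz
        rw [hx, thr_true] at h1
        have h2 : (K.rem z y 0 1 K.t s').t z = 0 := hzt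
        omega
      refine C.nc (restore hy hne hB ?_)
      intro v hv
      have h1 := hB.cap v hv
      change load (K.rem z y 0 1 K.t s') x B K.V v + 1 ≤ _ at h1
      by_cases hvz : v = z
      · subst hvz
        rw [hxz, thr_false] at h1 ⊢
        change _ ≤ s' v at h1
        rw [hsz] at h1
        split_ifs <;> omega
      · have h2 : (if x z = x y ∧ (v = z ∨ v = y) then 0 else 0) = 0 := by
          split_ifs <;> rfl
        rw [h2, if_neg hvz]
        refine h1.trans ?_
        unfold thr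
        split_ifs
        · exact le_rfl
        · exact hsle v
    have hcon : ¬ ∀ S ⊆ K.V, S.Nonempty → (-2 : ℤ) ≤ rho 5 3 (K.rem z y 0 1 K.t s') S := by
      intro h
      exact hn (C.ih _ (rem_wf C.wf (fun _ => le_rfl) hsle) h
        (hc_mono (fun _ h => h) fun v _ w _ => Nat.sub_le _ _))
    push Not at hcon
    obtain ⟨S, hS, hSne, hlt⟩ := hcon
    rw [rem_rho C.wf hne (Nat.zero_le _) hmm, sum_same] at hlt
    have hcost := sum_dec_le (f := K.s) (u := z) S (c := (3 : ℤ)) (by norm_num)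
    rw [← hs'] at hcost
    push_cast at hlt
    by_cases hzS : z ∈ S
    · rw [if_pos hzS] at hcost
      by_cases hyS : y ∈ S
      · exfalso
        rw [if_pos ⟨hzS, hyS⟩] at hlt
        by_cases hSV : S = K.V
        · rw [hSV] at hlt hcost
          linarith
        · have := C.pos S hS hSne hSV
          linarith
      · refine ⟨S, hS, hzS, hyS, ?_⟩
        rw [if_neg (fun h => hyS h.2)] at hlt
        linarith
    · exfalso
      have hSV : S ≠ K.V := fun h => hzS (h ▸ hz)
      rw [if_neg (fun h => hzS h.1)] at hlt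
      rw [if_neg hzS] at hcost
      have := C.pos S hS hSne hSV
      linarith

/-- 3.6. [If `y ∉ S`, `I = Z ∩ S`: submodularity and `c31` for `Z ∪ S` (misses `u`) give
`rho I ≤ 1`; `rho I ≤ 0` contradicts minimality; if `rho I = 1` then `rho V = -4` and `z` is
saturated in all colourings of `I` (`sat`), so `I` with `s z` lowered is dead, which gives
`I' ⊆ I`, `z ∈ I'`, `rho I' ≤ 0`.] -/
theorem Crit.uncross (C : Crit K) {z u y : ℕ} (hu : u ∈ K.V) (hzt : K.t z = 0)
    {Z : Finset ℕ} (hZ : Z ⊆ K.V) (hzZ : z ∈ Z) (huZ : u ∉ Z) (hrZ : rho 5 3 K Z ≤ 0)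
    (hmin : ∀ S ⊆ K.V, z ∈ S → u ∉ S → rho 5 3 K S ≤ 0 → #Z ≤ #S)
    (hy : y ∈ Z) (hzy : K.h z y + K.m z y ≠ 0)
    {S : Finset ℕ} (hS : S ⊆ K.V) (hzS : z ∈ S) (huS : u ∉ S) (hrS : rho 5 3 K S ≤ 0) :
    y ∈ S := by
  by_contra hyS
  have hd1 := C.d1
  have hsub := rho_submod C.wf (by norm_num) Z S
  have huZS : u ∉ Z ∪ S := by
    rw [mem_union]
    tauto
  have hU := C.c31 (union_subset hZ hS) ⟨z, mem_union_left _ hzZ⟩ (fun h => huZS (h ▸ hu))
  have hIZ : Z ∩ S ⊂ Z := ⟨inter_subset_left, fun h => hyS (mem_inter.1 (h hy)).2⟩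
  have hcard := card_lt_card hIZ
  have hIV : Z ∩ S ⊆ K.V := inter_subset_left.trans hZ
  have hzI : z ∈ Z ∩ S := mem_inter.2 ⟨hzZ, hzS⟩
  have huI : u ∉ Z ∩ S := fun h => huZ (mem_inter.1 h).1
  have hrI : 1 ≤ rho 5 3 K (Z ∩ S) := by
    by_contra hcon
    have := hmin (Z ∩ S) hIV hzI huI (by omega)
    omega
  have hr5 : rho 5 3 K (Z ∩ S) ≤ rho 5 3 K K.V + 5 := by linarith
  have hyI : y ∈ K.V \ (Z ∩ S) := mem_sdiff.2 ⟨hZ hy, fun h => hyS (mem_inter.1 h).2⟩
  have hn : ¬ Colorable (K.sub (Z ∩ S) K.t (dec K.s z)) := by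
    rintro ⟨x, A, hc⟩
    have hc' : IsCol (K.res (Z ∩ S)) x A :=
      IsCol.mono (G := K.sub (Z ∩ S) K.t (dec K.s z)) (G' := K.res (Z ∩ S))
        (fun _ h => h) (fun _ _ _ _ => le_rfl) (fun _ _ _ _ => le_rfl)
        (fun _ _ => le_rfl) (fun v _ => dec_le _ _ _) hc
    have h1 := C.sat hIV hr5 hc' hzI hyI hzy
    have h2 := hc.cap z hzI
    change load K x A (Z ∩ S) z + 1 ≤ _ at h2
    rcases hx : x z with _ | _
    · rw [hx, thr_false] at h1 h2
      change _ ≤ dec K.s z z at h2
      rw [dec_self] at h2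
      omega
    · rw [hx, thr_true] at h2
      change _ ≤ K.t z at h2
      omega
  have hcon : ¬ ∀ X ⊆ Z ∩ S, X.Nonempty →
      (-2 : ℤ) ≤ rho 5 3 (K.sub (Z ∩ S) K.t (dec K.s z)) X := by
    intro h
    exact hn (C.ih _ (sub_wf C.wf hIV (fun _ => le_rfl) (dec_le _ _)) h
      (hc_mono hIV fun v _ w _ => le_rfl))
  push Not at hcon
  obtain ⟨X, hX, hXne, hlt⟩ := hcon
  rw [rho_thr (G := K) (G' := K.sub (Z ∩ S) K.t (dec K.s z)) rfl rfl X] at hlt
  change rho 5 3 K X - (∑ v ∈ X, ((5 : ℕ) : ℤ) * ((K.t v : ℤ) - K.t v))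
    - (∑ v ∈ X, ((3 : ℕ) : ℤ) * ((K.s v : ℤ) - dec K.s z v)) < _ at hlt
  rw [sum_same] at hlt
  have hcost := sum_dec_le (f := K.s) (u := z) X (c := ((3 : ℕ) : ℤ)) (by norm_num)
  have huX : u ∉ X := fun h => huI (hX h)
  have hXV : X ≠ K.V := fun h => huX (h ▸ hu)
  have hpX := C.pos X (hX.trans hIV) hXne hXV
  by_cases hzX : z ∈ X
  · rw [if_pos hzX] at hcost
    push_cast at hlt hcost
    have := hmin X (hX.trans hIV) hzX huX (by linarith)
    have := card_le_card hX
    omega
  · rw [if_neg hzX] at hcost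
    linarith

/-- 3.7. [Take `Z` of minimal size; by `uncross` and `hall` the vertex `z` has no neighbour in `Z`;
so `rho Z = 3 * (s z - 1) + rho (Z - z)` and `rho (Z - z) ≥ -1` (`c31`, or empty).] -/
theorem Crit.iso (C : Crit K) {z u : ℕ} (hu : u ∈ K.V) (hzt : K.t z = 0)
    (hall : ∀ y ∈ K.V, K.h z y + K.m z y ≠ 0 →
      ∃ S ⊆ K.V, z ∈ S ∧ u ∉ S ∧ y ∉ S ∧ rho 5 3 K S ≤ 0)
    (hex : ∃ y ∈ K.V, K.h z y + K.m z y ≠ 0) : K.s z ≤ 1 := by
  classical
  obtain ⟨y0, hy0, hzy0⟩ := hex
  obtain ⟨S0, hS0, hz0, hu0, _, hr0⟩ := hall y0 hy0 hzy0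
  obtain ⟨Z, hZ, hmin⟩ := exists_min_image
    (K.V.powerset.filter fun X => z ∈ X ∧ u ∉ X ∧ rho 5 3 K X ≤ 0) (fun X => #X)
    ⟨S0, mem_filter.2 ⟨mem_powerset.2 hS0, hz0, hu0, hr0⟩⟩
  obtain ⟨hZV, hzZ, huZ, hrZ⟩ := mem_filter.1 hZ
  rw [mem_powerset] at hZV
  have hmin' : ∀ S ⊆ K.V, z ∈ S → u ∉ S → rho 5 3 K S ≤ 0 → #Z ≤ #S := fun S h1 h2 h3 h4 =>
    hmin S (mem_filter.2 ⟨mem_powerset.2 h1, h2, h3, h4⟩)
  have hno : ∀ y ∈ Z, K.h z y + K.m z y = 0 := by
    intro y hy
    by_contra hzy
    obtain ⟨S, hS, hzS, huS, hyS, hrS⟩ := hall y (hZV hy) hzy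
    exact hyS (C.uncross hu hzt hZV hzZ huZ hrZ hmin' hy hzy hS hzS huS hrS)
  have hins : insert z (Z.erase z) = Z := insert_erase hzZ
  have hrho := rho_ins C.wf (notMem_erase z Z)
  have hk0 : kk K z (Z.erase z) = 0 := by
    unfold kk
    exact sum_eq_zero fun y hy => by have := hno y (mem_of_mem_erase hy); omega
  have hn0 : nn K z (Z.erase z) = 0 := by
    unfold nn
    exact sum_eq_zero fun y hy => by have := hno y (mem_of_mem_erase hy); omega
  rw [hins, hk0, hn0, hzt] at hrho
  have hd1 := C.d1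
  have h1 : (-1 : ℤ) ≤ rho 5 3 K (Z.erase z) := by
    rcases (Z.erase z).eq_empty_or_nonempty with h | h
    · rw [h, rho_empty]
      norm_num
    · have := C.c31 ((erase_subset _ _).trans hZV) h (fun h' => huZ
        (mem_of_mem_erase (h' ▸ hu)))
      linarith
  push_cast at hrho
  omega

end

end Pool.Agent.Lib.MP_4006b4_co_c
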