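import Mathlib
import Pool.Agent.Lib.MP_4006b4_co_c.Ind

/-!
# The final colouring
-/

open Finset

namespace Pool.Agent.Lib.MP_4006b4_co_c

/-- Local energy of a two-colouring. -/
def loc (G : Str) (x : ℕ → Bool) (v : ℕ) : ℕ :=
  ∑ w ∈ G.V, if x v = x w then G.h v w else G.m v w

/-- Energy of a two-colouring. -/
def energy (G : Str) (x : ℕ → Bool) : ℤ :=
  (∑ v ∈ G.V, (loc G x v : ℤ)) + ∑ v ∈ G.V, (if x v then 2 * ((G.s v : ℤ) - 2) else 0)

/-- Degree. -/
def dg (G : Str) (v : ℕ) : ℕ := ∑ w ∈ G.V, (G.h v w + G.m v w)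

/-- Flip one vertex. -/
def flip (x : ℕ → Bool) (v : ℕ) : ℕ → Bool := fun w => if w = v then !x w else x w

theorem flip_self (x : ℕ → Bool) (v : ℕ) : flip x v v = !x v := by simp [flip]

theorem flip_ne (x : ℕ → Bool) {v w : ℕ} (h : w ≠ v) : flip x v w = x w := by simp [flip, h]

section

variable {a b : ℕ} {G : Str}

theorem loc_flip_self (wf : G.WF a b) (x : ℕ → Bool) (v : ℕ) :
    loc G (flip x v) v + loc G x v = dg G v := by
  unfold loc dg
  rw [← sum_add_distrib]
  refine sum_congr rfl fun w _ => ?_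
  by_cases hw : w = v
  · subst hw
    simp [wf.hirr, wf.mirr]
  · rw [flip_self, flip_ne x hw]
    cases x v <;> cases x w <;> simp [add_comm]

theorem energy_flip (wf : G.WF a b) (x : ℕ → Bool) {v : ℕ} (hv : v ∈ G.V) :
    energy G (flip x v) - energy G x
      = 2 * ((loc G (flip x v) v : ℤ) - loc G x v)
        + (if x v then -(2 * ((G.s v : ℤ) - 2)) else 2 * ((G.s v : ℤ) - 2)) := by
  have hins : insert v (G.V.erase v) = G.V := insert_erase hv
  have key : ∀ y : ℕ → Bool, (∑ u ∈ G.V, (loc G y u : ℤ))
      = 2 * (loc G y v : ℤ) + ∑ u ∈ G.V.erase v, ∑ w ∈ G.V.erase v,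
          ((if y u = y w then G.h u w else G.m u w : ℕ) : ℤ) := by
    intro y
    have h1 : ∀ u, (loc G y u : ℤ) = ((if y u = y v then G.h u v else G.m u v : ℕ) : ℤ)
        + ∑ w ∈ G.V.erase v, ((if y u = y w then G.h u w else G.m u w : ℕ) : ℤ) := by
      intro u
      unfold loc
      rw [← hins, sum_insert (notMem_erase v G.V)]
      push_cast
      rw [erase_insert (notMem_erase v G.V)]
    rw [← add_sum_erase G.V (fun u => (loc G y u : ℤ)) hv]
    have h2 : ∑ u ∈ G.V.erase v, (loc G y u : ℤ)
        = (∑ u ∈ G.V.erase v, ((if y u = y v then G.h u v else G.m u v : ℕ) : ℤ))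
          + ∑ u ∈ G.V.erase v, ∑ w ∈ G.V.erase v,
            ((if y u = y w then G.h u w else G.m u w : ℕ) : ℤ) := by
      rw [← sum_add_distrib]
      exact sum_congr rfl fun u _ => h1 u
    have h3 : (∑ u ∈ G.V.erase v, ((if y u = y v then G.h u v else G.m u v : ℕ) : ℤ))
        = (loc G y v : ℤ) := by
      rw [h1 v]
      simp only [wf.hirr, if_true, Nat.cast_zero, zero_add]
      refine sum_congr rfl fun u _ => ?_
      rw [wf.hsymm u v, wf.msymm u v]
      by_cases h : y u = y v
      · rw [if_pos h, if_pos h.symm]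
      · rw [if_neg h, if_neg (fun h' => h h'.symm)]
    rw [h2, h3]
    ring
  have h4 : ∑ u ∈ G.V, (if flip x v u then 2 * ((G.s u : ℤ) - 2) else 0)
      - ∑ u ∈ G.V, (if x u then 2 * ((G.s u : ℤ) - 2) else 0)
      = (if x v then -(2 * ((G.s v : ℤ) - 2)) else 2 * ((G.s v : ℤ) - 2)) := by
    rw [← sum_sub_distrib, ← add_sum_erase G.V _ hv]
    have : ∑ u ∈ G.V.erase v, ((if flip x v u then 2 * ((G.s u : ℤ) - 2) else 0)
      - (if x u then 2 * ((G.s u : ℤ) - 2) else 0)) = 0 := by
      refine sum_eq_zero fun u hu => ?_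
      rw [flip_ne x (ne_of_mem_erase hu), sub_self]
    rw [this, flip_self]
    cases x v <;> simp
  have h5 : ∑ u ∈ G.V.erase v, ∑ w ∈ G.V.erase v,
      ((if flip x v u = flip x v w then G.h u w else G.m u w : ℕ) : ℤ)
      = ∑ u ∈ G.V.erase v, ∑ w ∈ G.V.erase v,
      ((if x u = x w then G.h u w else G.m u w : ℕ) : ℤ) := by
    refine sum_congr rfl fun u hu => sum_congr rfl fun w hw => ?_
    rw [flip_ne x (ne_of_mem_erase hu), flip_ne x (ne_of_mem_erase hw)]
  unfold energy
  rw [key, key, h5]
  linarith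

/-- If every vertex with `s ≤ k` has `t = 2` and `d ≤ s + 1`, and the thresholds are positive,
the structure is colourable. -/
theorem final_col_aux (wf : G.WF a b) (hs : ∀ v ∈ G.V, 1 ≤ G.s v)
    (hz : ∀ v ∈ G.V, G.s v ≤ ∑ w ∈ G.V, G.h v w → G.t v = 2 ∧ dg G v ≤ G.s v + 1) :
    Colorable G := by
  classical
  set Z : Finset ℕ := G.V.filter fun v => G.s v ≤ ∑ w ∈ G.V, G.h v w with hZ
  let xx : Finset ℕ → ℕ → Bool := fun X v => decide (v ∈ X)
  obtain ⟨X, hX, hmin⟩ := exists_min_image Z.powerset (fun X => energy G (xx X))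
    ⟨∅, empty_mem_powerset _⟩
  rw [mem_powerset] at hX
  have hmin' : ∀ v ∈ Z, energy G (xx X) ≤ energy G (flip (xx X) v) := by
    intro v hv
    by_cases h : v ∈ X
    · have e : flip (xx X) v = xx (X.erase v) := by
        funext w
        unfold flip
        by_cases hw : w = v
        · subst hw
          simp [xx, h]
        · simp [xx, hw]
      rw [e]
      exact hmin _ (mem_powerset.2 ((erase_subset _ _).trans hX))
    · have e : flip (xx X) v = xx (insert v X) := by
        funext w
        unfold flip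
        by_cases hw : w = v
        · subst hw
          simp [xx, h]
        · simp [xx, hw]
      rw [e]
      exact hmin _ (mem_powerset.2 (insert_subset hv hX))
  set x := xx X with hx
  have hxm : ∀ v, x v = true ↔ v ∈ X := by
    intro v
    simp [hx, xx]
  have hloc1 : ∀ v ∈ X, loc G x v ≤ 1 ∧ G.t v = 2 := by
    intro v hv
    have hvZ := hX hv
    have hvV : v ∈ G.V := (mem_filter.1 hvZ).1
    have h1 := hmin' v hvZ
    have h2 := energy_flip wf x hvV
    have h3 := loc_flip_self wf x v
    have h4 := hz v hvV (mem_filter.1 hvZ).2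
    rw [if_pos ((hxm v).2 hv)] at h2
    refine ⟨?_, h4.1⟩
    have h5 := hs v hvV
    omega
  have hloc2 : ∀ v ∈ G.V, v ∉ X → (∑ w ∈ G.V, if x v = x w then G.h v w else 0) + 1 ≤ G.s v := by
    intro v hvV hv
    have hxv : x v = false := by
      rw [← Bool.not_eq_true, hxm]
      exact hv
    by_cases hvZ : v ∈ Z
    · have h1 := hmin' v hvZ
      have h2 := energy_flip wf x hvV
      have h3 := loc_flip_self wf x v
      have h4 := hz v hvV (mem_filter.1 hvZ).2
      rw [hxv] at h2
      simp only [Bool.false_eq_true, if_false] at h2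
      have h6 : (∑ w ∈ G.V, if x v = x w then G.h v w else 0) ≤ loc G x v := by
        unfold loc
        refine sum_le_sum fun w _ => ?_
        split_ifs
        · exact le_rfl
        · exact Nat.zero_le _
      have h5 := hs v hvV
      omega
    · have h7 : ∑ w ∈ G.V, G.h v w < G.s v := by
        by_contra hcon
        exact hvZ (mem_filter.2 ⟨hvV, not_lt.1 hcon⟩)
      have h6 : (∑ w ∈ G.V, if x v = x w then G.h v w else 0) ≤ ∑ w ∈ G.V, G.h v w := by
        refine sum_le_sum fun w _ => ?_
        split_ifs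
        · exact le_rfl
        · exact Nat.zero_le _
      omega
  refine ⟨x, fun v w => if x v = true ∧ x w = false then G.m v w else 0, ⟨?_, ?_⟩⟩
  · intro v _ w _ hne
    rcases hxv : x v with _ | _
    · rcases hxw : x w with _ | _
      · rw [hxv, hxw] at hne
        exact absurd rfl hne
      · simp [wf.msymm v w]
    · rcases hxw : x w with _ | _
      · simp
      · rw [hxv, hxw] at hne
        exact absurd rfl hne
  · intro v hvV
    by_cases hv : v ∈ X
    · have hxv := (hxm v).2 hv
      obtain ⟨h1, h2⟩ := hloc1 v hv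
      have : load G x (fun v w => if x v = true ∧ x w = false then G.m v w else 0) G.V v
          = loc G x v := by
        unfold load loc
        refine sum_congr rfl fun w _ => ?_
        rcases hxw : x w with _ | _ <;> simp [hxv, hxw]
      rw [this]
      unfold thr
      rw [hxv, if_pos rfl, h2]
      omega
    · have hxv : x v = false := by
        rw [← Bool.not_eq_true, hxm]
        exact hv
      have : load G x (fun v w => if x v = true ∧ x w = false then G.m v w else 0) G.V v
          = ∑ w ∈ G.V, if x v = x w then G.h v w else 0 := by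
        unfold load
        refine sum_congr rfl fun w _ => ?_
        have h0 : (if x v = true ∧ x w = false then G.m v w else 0) = 0 := by
          rw [if_neg]
          rintro ⟨h, _⟩
          rw [hxv] at h
          exact Bool.false_ne_true h
        change (if x v = x w then G.h v w else 0) +
          (if x v = true ∧ x w = false then G.m v w else 0) = _
        rw [h0, add_zero]
      rw [this]
      unfold thr
      rw [hxv]
      simp only [Bool.false_eq_true, if_false]
      have := hloc2 v hvV hv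
      rw [hxv] at this
      exact this

/-- The final colouring. -/
theorem final_col {G : Str} (wf : G.WF 5 3) (ht : ∀ v ∈ G.V, 1 ≤ G.t v ∧ 1 ≤ G.s v)
    (h2 : ∀ v ∈ G.V, ∀ w ∈ G.V, G.h v w ≠ 0 → G.t v = 2)
    (hb : ∀ v ∈ G.V, (∃ w ∈ G.V, G.h v w ≠ 0) →
      (∑ w ∈ G.V, G.h v w) + 1 ≤ G.s v ∨ (∑ w ∈ G.V, (G.h v w + G.m v w)) ≤ G.s v + 1) :
    Colorable G := by
  refine final_col_aux wf (fun v hv => (ht v hv).2) fun v hv hk => ?_
  have h1 : ∃ w ∈ G.V, G.h v w ≠ 0 := by
    by_contra hcon
    push Not at hcon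
    have := (ht v hv).2
    rw [sum_eq_zero hcon] at hk
    omega
  obtain ⟨w, hw, hhw⟩ := h1
  refine ⟨h2 v hv w hw hhw, ?_⟩
  rcases hb v hv ⟨w, hw, hhw⟩ with h | h
  · omega
  · exact h

end

end Pool.Agent.Lib.MP_4006b4_co_c
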