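import Mathlib
import Pool.Agent.Lib.MP_4006b4_co_c.Aux5

/-!
# The structure `G1`: `w` is put in the first part, its spare unit is used on the edge `wu`
-/

open Finset

namespace Pool.Agent.Lib.MP_4006b4_co_c

/-- `w` is put in the first part, one spare unit is used on the edge `wu`. -/
def Str.g1 (G : Str) (w u : ℕ) : Str where
  V := G.V.erase w
  h := G.h
  m := G.m
  t := fun z => if z = u then G.t z - 1 else if G.h w z = 0 then G.t z else 0
  s := fun z => G.s z - G.m w z

section

variable {G : Str}

theorem g1_t_le (w u v : ℕ) : (G.g1 w u).t v ≤ G.t v := by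
  show (if v = u then G.t v - 1 else if G.h w v = 0 then G.t v else 0) ≤ G.t v
  split_ifs <;> omega

theorem g1_s_le (w u v : ℕ) : (G.g1 w u).s v ≤ G.s v := by
  show G.s v - G.m w v ≤ G.s v
  omega

theorem g1_wf (wf : G.WF 5 3) (w u : ℕ) : (G.g1 w u).WF 5 3 where
  hsymm := wf.hsymm
  msymm := wf.msymm
  hirr := wf.hirr
  mirr := wf.mirr
  hle := wf.hle
  tb := fun v hv r hr h => (Nat.add_le_add_right (g1_t_le w u v) 1).trans
    (wf.tb v (mem_of_mem_erase hv) r (mem_of_mem_erase hr) h)
  sb := fun v hv r hr h => (Nat.add_le_add_right (g1_s_le w u v) 1).trans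
    (wf.sb v (mem_of_mem_erase hv) r (mem_of_mem_erase hr) h)

theorem g1_rv (wf : G.WF 5 3) {w u : ℕ} (hwu : G.h w u ≠ 0) {v : ℕ}
    (ht : G.h w v ≠ 0 → G.t v = 2) :
    rv 5 3 (G.g1 w u) v = rv 5 3 G v - 10 * (G.h w v : ℤ) - 3 * (G.m w v : ℤ)
      + (if v = u then 5 else 0) + 3 * ((G.m w v - G.s v : ℕ) : ℤ) := by
  have h1 : (G.g1 w u).t v = if v = u then G.t v - 1 else if G.h w v = 0 then G.t v else 0 := rfl
  have h2 : (G.g1 w u).s v = G.s v - G.m w v := rfl
  have h3 := wf.hle w v
  have h4 : ((G.g1 w u).s v : ℤ) = G.s v - G.m w v + ((G.m w v - G.s v : ℕ) : ℤ) := by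
    rw [h2]
    omega
  unfold rv
  rw [h4, h1]
  push_cast
  by_cases hv : G.h w v = 0
  · have hvu : v ≠ u := fun h => hwu (h ▸ hv)
    rw [if_neg hvu, if_pos hv, if_neg hvu, hv]
    push_cast
    ring
  · have h5 := ht hv
    have h6 : G.h w v = 1 := by omega
    by_cases hvu : v = u
    · rw [if_pos hvu, if_pos hvu, h5, h6]
      push_cast
      ring
    · rw [if_neg hvu, if_neg hv, if_neg hvu, h5, h6]
      push_cast
      ring

/-- Potential of `G1`. -/
theorem g1_rho (wf : G.WF 5 3) {w u : ℕ} (hwu : G.h w u ≠ 0) {X : Finset ℕ} 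
    (ht : ∀ z ∈ X, G.h w z ≠ 0 → G.t z = 2) :
    rho 5 3 (G.g1 w u) X = rho 5 3 G X - 10 * (kk G w X : ℤ) - 3 * (nn G w X : ℤ)
      + (if u ∈ X then 5 else 0) + 3 * ((∑ y ∈ X, (G.m w y - G.s y) : ℕ) : ℤ) := by
  have e1 : inner 5 3 (G.g1 w u) X = inner 5 3 G X := rfl
  have e2 : ∑ v ∈ X, rv 5 3 (G.g1 w u) v = ∑ v ∈ X, (rv 5 3 G v - 10 * (G.h w v : ℤ)
      - 3 * (G.m w v : ℤ) + (if v = u then 5 else 0) + 3 * ((G.m w v - G.s v : ℕ) : ℤ)) :=
    sum_congr rfl fun v hv => g1_rv wf hwu (ht v hv)
  have e3 : ∑ v ∈ X, (if v = u then (5 : ℤ) else 0) = if u ∈ X then 5 else 0 := by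
    rw [sum_ite_eq']
  unfold rho
  rw [e1, e2, sum_add_distrib, sum_add_distrib, sum_sub_distrib, sum_sub_distrib, ← mul_sum,
    ← mul_sum, ← mul_sum, e3]
  unfold kk nn
  rw [Nat.cast_sum, Nat.cast_sum, Nat.cast_sum]
  ring

theorem g1_hc (wf : G.WF 5 3) {w u : ℕ} (hw : w ∈ G.V) (hu : u ∈ G.V) (hwu : G.h w u ≠ 0) :
    hc (G.g1 w u) < hc G := by
  unfold hc
  have e0 : ∑ v ∈ (G.g1 w u).V, ∑ r ∈ (G.g1 w u).V, (G.g1 w u).h v r
      = ∑ v ∈ G.V.erase w, ∑ r ∈ G.V.erase w, G.h v r := rfl
  rw [e0, ← add_sum_erase G.V (fun v => ∑ r ∈ G.V, G.h v r) hw]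
  have h1 : ∑ v ∈ G.V.erase w, ∑ r ∈ G.V.erase w, G.h v r
      ≤ ∑ v ∈ G.V.erase w, ∑ r ∈ G.V, G.h v r :=
    sum_le_sum fun v _ => sum_le_sum_of_subset (erase_subset _ _)
  have h2 : G.h w u ≤ ∑ r ∈ G.V, G.h w r :=
    single_le_sum (f := fun r => G.h w r) (fun _ _ => Nat.zero_le _) hu
  have h3 : 0 < G.h w u := Nat.pos_of_ne_zero hwu
  omega

/-- Lifting a colouring of a part of `G1`. -/
theorem g1_lift (wf : G.WF 5 3) {w u : ℕ} (ht : G.t w = 2) (hwu : G.h w u ≠ 0)
    {T : Finset ℕ} (hT : T ⊆ G.V) (hw : w ∉ T) {x : ℕ → Bool} {A : ℕ → ℕ → ℕ}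
    (hc : IsCol ((G.g1 w u).res T) x A) :
    ∃ x' A', IsCol (G.res (insert w T)) x' A' ∧ x' w = true ∧ (∀ v ∈ T, x' v = x v) ∧
      load G x' A' (insert w T) w = (if u ∈ T ∧ x u = true then 1 else 0) := by
  have hne : ∀ v ∈ T, v ≠ w := fun v hv h => hw (h ▸ hv)
  -- capacity condition, unfolded
  have hcap : ∀ v ∈ T, load G x A T v + 1 ≤ thr (G.g1 w u) (x v) v := fun v hv => hc.cap v hv
  -- first-part neighbours of `w` in `T`
  have key : ∀ v ∈ T, x v = true → G.h w v ≠ 0 → v = u := by
    intro v hv hx hh
    by_contra hvu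
    have h1 := hcap v hv
    rw [hx, thr_true] at h1
    have h2 : (G.g1 w u).t v = 0 := by
      show (if v = u then G.t v - 1 else if G.h w v = 0 then G.t v else 0) = 0
      rw [if_neg hvu, if_neg hh]
    omega
  have hwu1 : G.h w u = 1 := by
    have := wf.hle w u
    omega
  refine ⟨fun v => if v = w then true else x v,
    fun v r => if v = w then 0 else if r = w then (if x v = true then 0 else G.m w v) else A v r,
    ?_⟩
  have hl : load G (fun v => if v = w then true else x v)
      (fun v r => if v = w then 0 else if r = w then (if x v = true then 0 else G.m w v) else A v r)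
      (insert w T) w = (if u ∈ T ∧ x u = true then 1 else 0) := by
    unfold load
    rw [sum_insert hw]
    have e1 : ((if (fun v => if v = w then true else x v) w
        = (fun v => if v = w then true else x v) w then G.h w w else 0)
        + (fun v r => if v = w then 0 else if r = w then (if x v = true then 0 else G.m w v)
          else A v r) w w) = 0 := by
      simp [wf.hirr]
    have e2 : ∑ r ∈ T, ((if (fun v => if v = w then true else x v) w
        = (fun v => if v = w then true else x v) r then G.h w r else 0)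
        + (fun v r => if v = w then 0 else if r = w then (if x v = true then 0 else G.m w v)
          else A v r) w r) = ∑ r ∈ T, if r = u then (if x u = true then 1 else 0) else 0 := by
      refine sum_congr rfl fun r hr => ?_
      have hrw := hne r hr
      simp only [if_true, if_neg hrw, add_zero]
      by_cases hru : r = u
      · subst hru
        rw [if_pos rfl, hwu1]
        cases x r <;> rfl
      · rw [if_neg hru]
        by_cases hx : x r = true
        · rw [if_pos hx.symm]
          by_contra hh
          exact hru (key r hr hx hh)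
        · rw [if_neg (fun h => hx h.symm)]
    rw [e1, e2, zero_add, sum_ite_eq']
    by_cases h1 : u ∈ T
    · by_cases h2 : x u = true
      · rw [if_pos h1, if_pos h2, if_pos ⟨h1, h2⟩]
      · rw [if_pos h1, if_neg h2, if_neg (fun h => h2 h.2)]
    · rw [if_neg h1, if_neg (fun h => h1 h.1)]
  have hlT : ∀ v ∈ T, load G (fun v => if v = w then true else x v)
      (fun v r => if v = w then 0 else if r = w then (if x v = true then 0 else G.m w v) else A v r)
      (insert w T) v = (if x v = true then G.h w v else G.m w v) + load G x A T v := by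
    intro v hv
    have hvw := hne v hv
    unfold load
    rw [sum_insert hw]
    congr 1
    · simp only [if_true, if_neg hvw]
      by_cases hx : x v = true
      · rw [if_pos hx, if_pos hx, if_pos hx, add_zero, wf.hsymm]
      · rw [if_neg hx, if_neg hx, if_neg hx, zero_add]
    · refine sum_congr rfl fun r hr => ?_
      have hrw := hne r hr
      simp only [if_neg hvw, if_neg hrw]
  refine ⟨⟨?_, ?_⟩, ?_, ?_, hl⟩
  · intro v hv r hr hxx
    have hv' : v ∈ insert w T := hv
    have hr' : r ∈ insert w T := hr
    show G.m v r ≤ _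
    rcases mem_insert.1 hv' with hvw | hvT
    · subst hvw
      rcases mem_insert.1 hr' with hrw | hrT
      · exact absurd (by rw [hrw]) hxx
      · have hrv := hne r hrT
        simp only [if_true, if_neg hrv] at hxx ⊢
        have hxr : ¬ x r = true := fun h => hxx h.symm
        rw [if_neg hxr]
        omega
    · have hvw := hne v hvT
      rcases mem_insert.1 hr' with hrw | hrT
      · subst hrw
        simp only [if_true, if_neg hvw] at hxx ⊢
        rw [if_neg hxx, wf.msymm]
        omega
      · have hrw := hne r hrT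
        simp only [if_neg hvw, if_neg hrw] at hxx ⊢
        exact hc.cov v hvT r hrT hxx
  · intro v hv
    have hv' : v ∈ insert w T := hv
    rcases mem_insert.1 hv' with hvw | hvT
    · subst hvw
      have h1 : load (G.res (insert v T)) (fun r => if r = v then true else x r)
          (fun r q => if r = v then 0 else if q = v then (if x r = true then 0 else G.m v r)
            else A r q) (G.res (insert v T)).V v = (if u ∈ T ∧ x u = true then 1 else 0) := hl
      rw [h1]
      have h2 : thr (G.res (insert v T)) ((fun r => if r = v then true else x r) v) v = G.t v := by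
        simp only [if_true]
        rfl
      rw [h2, ht]
      split_ifs <;> omega
    · have hvw := hne v hvT
      have h1 : load (G.res (insert w T)) (fun r => if r = w then true else x r)
          (fun r q => if r = w then 0 else if q = w then (if x r = true then 0 else G.m w r)
            else A r q) (G.res (insert w T)).V v
            = (if x v = true then G.h w v else G.m w v) + load G x A T v := hlT v hvT
      rw [h1]
      have h2 : thr (G.res (insert w T)) ((fun r => if r = w then true else x r) v) v
          = thr G (x v) v := by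
        simp only [if_neg hvw]
        rfl
      rw [h2]
      have h3 := hcap v hvT
      by_cases hx : x v = true
      · rw [hx, thr_true] at h3
        rw [if_pos hx, hx, thr_true]
        have h4 : (G.g1 w u).t v
            = if v = u then G.t v - 1 else if G.h w v = 0 then G.t v else 0 := rfl
        rw [h4] at h3
        by_cases hvu : v = u
        · rw [if_pos hvu] at h3
          have := wf.hle w v
          omega
        · rw [if_neg hvu] at h3
          by_cases hh : G.h w v = 0
          · rw [if_pos hh] at h3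
            omega
          · exact absurd (key v hvT hx hh) hvu
      · have hx' : x v = false := by simpa using hx
        rw [hx', thr_false] at h3
        rw [if_neg hx, hx', thr_false]
        have h4 : (G.g1 w u).s v = G.s v - G.m w v := rfl
        rw [h4] at h3
        omega
  · simp
  · intro v hv
    simp only [if_neg (hne v hv)]

end

end Pool.Agent.Lib.MP_4006b4_co_c
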