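import Mathlib
import Pool.Agent.Lib.MP_4006b4_co_c.Clause

/-!
# Light vertices
-/

open Finset

namespace Pool.Agent.Lib.MP_4006b4_co_c

section

variable {a b : ℕ} {G : Str}

/-- Boundary vertices of a small set without edges are `(1, 1)` vertices. -/
theorem MinCE.e0 (M : MinCE a b G) (P : Par a b) {T : Finset ℕ} (hT : T ⊆ G.V)
    (hsm : rho a b G T ≤ a) (hno : ∀ p ∈ T, ∀ q ∈ T, G.h p q = 0) {v : ℕ}
    (hv : v ∈ bd G T) : G.t v = 1 ∧ G.s v = 1 := by
  have key : ∀ c : Bool, thr G c v = 1 := by
    intro c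
    have hl : ∀ w ∈ T, load G (fun _ => c) (fun _ _ => 0) T w = 0 := by
      intro w hw
      unfold load
      refine sum_eq_zero fun z hz => ?_
      rw [if_pos rfl, hno w hw z hz]
      rfl
    have hc : IsCol (G.res T) (fun _ => c) (fun _ _ => 0) := by
      refine ⟨fun _ _ _ _ hne => absurd rfl hne, ?_⟩
      intro w hw
      have h1 : load (G.res T) (fun _ => c) (fun _ _ => 0) (G.res T).V w = 0 := hl w hw
      rw [h1]
      have h2 := M.tpos P (hT hw)
      have h3 := M.spos P (hT hw)
      show 0 + 1 ≤ (if c = true then G.t w else G.s w)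
      split_ifs <;> omega
    have h := M.sat P hT hsm hc hv
    rw [hl v (mem_bd.1 hv).1] at h
    exact h.symm
  exact ⟨key true, key false⟩

/-- For an edge `uw` with `t u = 1` there is a small set containing `u` but not `w`. -/
theorem MinCE.f5 (M : MinCE a b G) (P : Par a b) {u w : ℕ} (hu : u ∈ G.V) (hw : w ∈ G.V)
    (hU : (a : ℤ) + 2 * b + 1 ≤ (b : ℤ) * (a - 1)) (hh : G.h u w ≠ 0) (ht : G.t u = 1) :
    ∃ S ⊆ G.V, S.Nonempty ∧ S ≠ G.V ∧ rho a b G S ≤ a ∧ u ∈ S ∧ w ∉ S := by
  have hab := P.hab
  have hb3 := P.hb3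
  have ha0 : (0 : ℤ) ≤ a := Int.natCast_nonneg _
  have hb0 : (0 : ℤ) ≤ b := Int.natCast_nonneg _
  have hne : u ≠ w := fun h => hh (by rw [h]; exact M.wf.hirr w)
  have hn : ¬ Colorable (G.rem u w 1 0 (dec G.t u) (dec (dec G.s u) w)) := by
    rintro ⟨x, B, hc⟩
    have hxu : x u = false := by
      by_contra hx
      have hx' : x u = true := by simpa using hx
      have := hc.cap u hu
      rw [hx', thr_true] at this
      have h5 : (G.rem u w 1 0 (dec G.t u) (dec (dec G.s u) w)).t u = 0 := by
        show dec G.t u u = 0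
        rw [dec_self, ht]
      omega
    refine M.nc (restore hw hne hc ?_)
    intro v hv
    have hcv := hc.cap v hv
    have hVV : (G.rem u w 1 0 (dec G.t u) (dec (dec G.s u) w)).V = G.V := rfl
    rw [hVV] at hcv
    have e1 : (if v = u then 0 else 0) = 0 := by split_ifs <;> rfl
    rw [e1, add_zero]
    have h6 : thr (G.rem u w 1 0 (dec G.t u) (dec (dec G.s u) w)) (x v) v ≤ thr G (x v) v := by
      unfold thr
      split_ifs
      · exact dec_le _ _ _
      · exact (dec_le _ _ _).trans (dec_le _ _ _)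
    split_ifs with h
    · obtain ⟨h1, h2⟩ := h
      have hxv : x v = false := by
        rcases h2 with rfl | rfl
        · exact hxu
        · rw [← h1]
          exact hxu
      rw [hxv, thr_false] at hcv ⊢
      have h7 : (G.rem u w 1 0 (dec G.t u) (dec (dec G.s u) w)).s v = G.s v - 1 := by
        show dec (dec G.s u) w v = _
        rcases h2 with rfl | rfl
        · rw [dec_ne _ hne, dec_self]
        · rw [dec_self, dec_ne _ (Ne.symm hne)]
      rw [h7] at hcv
      omega
    · omega
  obtain ⟨S, hS, hne, hSV, hr⟩ := M.rem2 hu hw hne (dh := 1) (dm := 0) (by omega)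
    (Nat.zero_le _) rfl (fun v => dec_le _ _ _)
    (fun v => (dec_le _ _ _).trans (dec_le _ _ _))
    (cp := a + b) (cq := b) (fun S => by
      have h1 := sum_dec_le (f := G.t) (u := u) S ha0
      have h2 := sum_dec2_le (f := G.s) (u := u) (w := w) S hb0
      split_ifs at h1 h2 ⊢ <;> linarith)
    (by push_cast; linarith) hn
  have h1 := M.p1' P hS hne hSV
  rcases hr with ⟨h1, h2, h3⟩ | ⟨h1, h2, h3⟩
  · exact ⟨S, hS, hne, hSV, by linarith, h1, h2⟩
  · linarith

/-- A vertex with an edge and `t = 1` is a `(1, 1)` vertex. -/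
theorem MinCE.e1 (M : MinCE a b G) (P : Par a b) {u w : ℕ} (hu : u ∈ G.V) (hw : w ∈ G.V)
    (hU : (a : ℤ) + 2 * b + 1 ≤ (b : ℤ) * (a - 1)) (hh : G.h u w ≠ 0) (ht : G.t u = 1) :
    G.s u = 1 := by
  obtain ⟨S, hS, hne, hSV, hsm, h1, h2⟩ := M.f5 P hu hw hU hh ht
  refine (M.e0 P hS hsm (M.anti P hS hne hSV hsm
    ⟨u, hu, w, hw, fun h => h2 h.2, hh⟩) ?_).2
  exact mem_bd.2 ⟨h1, w, mem_sdiff.2 ⟨hw, h2⟩, by omega⟩

theorem MinCE.e2 (M : MinCE a b G) (P : Par a b) {u w : ℕ} (hu : u ∈ G.V) (hw : w ∈ G.V)
    (hh : G.h u w ≠ 0) (h1 : G.t u = 1) (h2 : G.s w = 1) : False := by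
  have hU := P.hU
  have hab := P.hab
  have hb3 := P.hb3
  have ha0 : (0 : ℤ) ≤ a := Int.natCast_nonneg _
  have hb0 : (0 : ℤ) ≤ b := Int.natCast_nonneg _
  have hne : u ≠ w := fun h => hh (by rw [h]; exact M.wf.hirr w)
  obtain ⟨x, B, hc⟩ := M.rem3 P hu hw hne (dh := 1) (dm := 0) (by omega) (Nat.zero_le _) rfl
    (t := dec G.t u) (s := dec G.s w) (fun v => dec_le _ _ _) (fun v => dec_le _ _ _)
    (cp := a) (cq := b) le_rfl (by linarith)
    (fun S => add_le_add (sum_dec_le S ha0) (sum_dec_le S hb0)) (by push_cast; linarith)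
  have hxu : x u = false := by
    by_contra hx
    have hx' : x u = true := by simpa using hx
    have h3 := hc.cap u hu
    rw [hx', thr_true] at h3
    have h4 : (G.rem u w 1 0 (dec G.t u) (dec G.s w)).t u = G.t u - 1 := dec_self _ _
    omega
  have hxw : x w = true := by
    by_contra hx
    have hx' : x w = false := by simpa using hx
    have h3 := hc.cap w hw
    rw [hx', thr_false] at h3
    have h4 : (G.rem u w 1 0 (dec G.t u) (dec G.s w)).s w = G.s w - 1 := dec_self _ _
    omega
  refine M.nc (restore hw hne hc ?_)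
  intro v hv
  have hcv := hc.cap v hv
  have hVV : (G.rem u w 1 0 (dec G.t u) (dec G.s w)).V = G.V := rfl
  rw [hVV] at hcv
  rw [if_neg (by rw [hxu, hxw]; simp), add_zero]
  have e1 : (if v = u then 0 else 0) = 0 := by split_ifs <;> rfl
  rw [e1, add_zero]
  refine hcv.trans ?_
  unfold thr
  split_ifs
  · exact dec_le _ _ _
  · exact dec_le _ _ _

theorem MinCE.e3 (M : MinCE a b G) (P : Par a b) {u : ℕ} (hu : u ∈ G.V)
    (h1 : G.t u = 1) (h2 : G.s u = 1) : ∑ w ∈ G.V \ {u}, (G.h u w + G.m u w) ≤ 2 := by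
  have hab := P.hab
  have hb3 := P.hb3
  have hhk := P.hhk
  have hrV := M.rhoV
  have hr : rho a b G {u} = a := by
    rw [rho_singleton]
    unfold rv
    rw [h1, h2]
    push_cast
    ring
  have hc : IsCol (G.res {u}) (fun _ => true) (fun _ _ => 0) := by
    refine ⟨fun _ _ _ _ hne => absurd rfl hne, ?_⟩
    intro w hw
    have hw' : w = u := mem_singleton.1 hw
    subst hw'
    have : load (G.res {w}) (fun _ => true) (fun _ _ => 0) (G.res {w}).V w = 0 := by
      unfold load
      show ∑ z ∈ {w}, _ = 0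
      rw [sum_singleton]
      show (if true = true then G.h w w else 0) + 0 = 0
      rw [M.wf.hirr]
      rfl
    rw [this]
    show 0 + 1 ≤ G.t w
    omega
  have h3 := M.n1le P (singleton_subset_iff.2 hu) (singleton_nonempty u) hr.le hc
  have h4 : n1 G (fun _ => true) {u} (G.V \ {u}) = ∑ w ∈ G.V \ {u}, (G.h u w + G.m u w) := by
    unfold n1
    rw [sum_singleton]
    rfl
  rw [h4, hr] at h3
  by_contra hcon
  have h5 : (3 : ℤ) ≤ ((∑ w ∈ G.V \ {u}, (G.h u w + G.m u w) : ℕ) : ℤ) := by
    have : 3 ≤ ∑ w ∈ G.V \ {u}, (G.h u w + G.m u w) := by omega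
    exact_mod_cast this
  nlinarith

/-- Adding a vertex `u` with one edge to `p` and one link to `y`. -/
theorem addu (wf : G.WF a b) {u p y : ℕ} (hu : u ∈ G.V) (hpu : p ≠ u)
    (h1 : ∀ w ∈ G.V, w ≠ p → G.h u w = 0) (h2 : ∀ w ∈ G.V, w ≠ y → G.m u w = 0)
    (h3 : G.m u y ≤ 1) (ht : 1 ≤ G.t u) (hs : 1 ≤ G.s u) {x : ℕ → Bool} {B : ℕ → ℕ → ℕ}
    (hc : IsCol (G.res (G.V \ {u})) x B)
    (hsp : x y ≠ x p ∨ load G x B (G.V \ {u}) y + 2 ≤ thr G (x y) y) : Colorable G := by
  classical
  let x' : ℕ → Bool := fun v => if v = u then !(x p) else x v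
  let A' : ℕ → ℕ → ℕ := fun v w => if v = u then 0 else
    if w = u then (if v = y ∧ x y = x p then 1 else 0) else B v w
  have hx'u : x' u = !(x p) := if_pos rfl
  have hx'v : ∀ v, v ≠ u → x' v = x v := fun v hv => if_neg hv
  have hV : ∀ v, v ∈ G.V \ {u} ↔ v ∈ G.V ∧ v ≠ u := by
    intro v
    rw [mem_sdiff, mem_singleton]
  have hins : G.V = insert u (G.V \ {u}) := by
    ext v
    rw [mem_insert, hV]
    by_cases h : v = u
    · subst h
      tauto
    · tauto
  have hun : u ∉ G.V \ {u} := by
    rw [hV]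
    tauto
  refine ⟨x', A', ?_, ?_⟩
  · intro v hv w hw hne
    by_cases hvu : v = u
    · subst hvu
      by_cases hwu : w = v
      · rw [hwu, wf.mirr]
        exact Nat.zero_le _
      · by_cases hwy : w = y
        · subst hwy
          rw [hx'u, hx'v w hwu] at hne
          have hxx : x w = x p := by
            revert hne
            cases x w <;> cases x p <;> simp
          have : A' w v = 1 := by simp [A', hwu, hxx]
          omega
        · rw [h2 w hw hwy]
          exact Nat.zero_le _
    · by_cases hwu : w = u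
      · subst hwu
        rw [wf.msymm]
        by_cases hvy : v = y
        · subst hvy
          rw [hx'u, hx'v v hvu] at hne
          have hxx : x v = x p := by
            revert hne
            cases x v <;> cases x p <;> simp
          have : A' v w = 1 := by simp [A', hvu, hxx]
          omega
        · rw [h2 v hv hvy]
          exact Nat.zero_le _
      · have e1 : A' v w = B v w := by simp [A', hvu, hwu]
        have e2 : A' w v = B w v := by simp [A', hvu, hwu]
        rw [e1, e2]
        rw [hx'v v hvu, hx'v w hwu] at hne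
        exact hc.cov v ((hV v).2 ⟨hv, hvu⟩) w ((hV w).2 ⟨hw, hwu⟩) hne
  · intro v hv
    by_cases hvu : v = u
    · subst hvu
      have : load G x' A' G.V v = 0 := by
        unfold load
        refine sum_eq_zero fun w hw => ?_
        have e1 : A' v w = 0 := if_pos rfl
        rw [e1, add_zero]
        by_cases hwp : w = p
        · subst hwp
          rw [hx'u, hx'v w hpu]
          cases x w <;> simp
        · rw [h1 w hw hwp]
          split_ifs <;> rfl
      rw [this]
      unfold thr
      split_ifs <;> omega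
    · have hvV := (hV v).2 ⟨hv, hvu⟩
      have h4 : load G x B (G.V \ {u}) v + 1 ≤ thr G (x v) v := hc.cap v hvV
      have e1 : load G x' A' G.V v = load G x B (G.V \ {u}) v
          + if v = y ∧ x y = x p then 1 else 0 := by
        unfold load
        have e5 : ∑ w ∈ G.V, ((if x' v = x' w then G.h v w else 0) + A' v w)
            = ((if x' v = x' u then G.h v u else 0) + A' v u)
              + ∑ w ∈ G.V \ {u}, ((if x' v = x' w then G.h v w else 0) + A' v w) := by
          rw [← sum_insert hun (f := fun w => (if x' v = x' w then G.h v w else 0) + A' v w),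
            ← hins]
        rw [e5]
        have e2 : (if x' v = x' u then G.h v u else 0) = 0 := by
          by_cases hvp : v = p
          · subst hvp
            rw [hx'u, hx'v v hpu]
            cases x v <;> simp
          · rw [wf.hsymm, h1 v hv hvp]
            split_ifs <;> rfl
        have e3 : A' v u = if v = y ∧ x y = x p then 1 else 0 := by simp [A', hvu]
        rw [e2, e3, zero_add, add_comm]
        congr 1
        refine sum_congr rfl fun w hw => ?_
        have hwu := ((hV w).1 hw).2
        have e4 : A' v w = B v w := by simp [A', hvu, hwu]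
        rw [e4, hx'v v hvu, hx'v w hwu]
      rw [e1, hx'v v hvu]
      split_ifs with h5
      · obtain ⟨h6, h7⟩ := h5
        subst h6
        rcases hsp with h8 | h8
        · exact absurd h7 h8
        · omega
      · omega

theorem MinCE.e4 (M : MinCE a b G) (P : Par a b) {u p y : ℕ} (hu : u ∈ G.V) (hp : p ∈ G.V)
    (hy : y ∈ G.V) (hh : G.h u p ≠ 0) (hm : G.m u y ≠ 0) (ht : G.t u = 1) (hs : G.s u = 1) :
    False := by
  classical
  have hU := P.hU
  have hab := P.hab
  have hb3 := P.hb3
  have ha0 : (0 : ℤ) ≤ a := Int.natCast_nonneg _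
  have hb0 : (0 : ℤ) ≤ b := Int.natCast_nonneg _
  have ha1 : 1 ≤ a := by have := P.ab; omega
  have hdeg := M.e3 P hu ht hs
  have hpu : p ≠ u := fun h => hh (by rw [h]; exact M.wf.hirr u)
  have hyu : y ≠ u := fun h => hm (by rw [h]; exact M.wf.mirr u)
  have hV : ∀ v, v ∈ G.V \ {u} ↔ v ∈ G.V ∧ v ≠ u := by
    intro v
    rw [mem_sdiff, mem_singleton]
  have hpV := (hV p).2 ⟨hp, hpu⟩
  have hyV := (hV y).2 ⟨hy, hyu⟩
  rw [sum_add_distrib] at hdeg
  have hge : ∀ w ∈ G.V, w ≠ p → G.h u w = 0 := by
    intro w hw hwp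
    by_contra hne
    have hwu : w ≠ u := fun h => hne (by rw [h]; exact M.wf.hirr u)
    have hwV := (hV w).2 ⟨hw, hwu⟩
    have h1 : G.h u w + G.h u p ≤ ∑ w ∈ G.V \ {u}, G.h u w := by
      rw [← add_sum_erase _ _ hwV]
      refine Nat.add_le_add_left ?_ _
      exact single_le_sum (f := fun w => G.h u w) (fun _ _ => Nat.zero_le _)
        (mem_erase.2 ⟨Ne.symm hwp, hpV⟩)
    have h2 : G.m u y ≤ ∑ w ∈ G.V \ {u}, G.m u w :=
      single_le_sum (f := fun w => G.m u w) (fun _ _ => Nat.zero_le _) hyV
    omega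
  have hgp : G.h u p ≤ ∑ w ∈ G.V \ {u}, G.h u w :=
    single_le_sum (f := fun w => G.h u w) (fun _ _ => Nat.zero_le _) hpV
  have hme : ∀ w ∈ G.V, w ≠ y → G.m u w = 0 := by
    intro w hw hwp
    by_contra hne
    have hwu : w ≠ u := fun h => hne (by rw [h]; exact M.wf.mirr u)
    have hwV := (hV w).2 ⟨hw, hwu⟩
    have h1 : G.m u w + G.m u y ≤ ∑ w ∈ G.V \ {u}, G.m u w := by
      rw [← add_sum_erase _ _ hwV]
      refine Nat.add_le_add_left ?_ _
      exact single_le_sum (f := fun w => G.m u w) (fun _ _ => Nat.zero_le _)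
        (mem_erase.2 ⟨Ne.symm hwp, hyV⟩)
    omega
  have hmy : G.m u y ≤ 1 := by
    have h2 : G.m u y ≤ ∑ w ∈ G.V \ {u}, G.m u w :=
      single_le_sum (f := fun w => G.m u w) (fun _ _ => Nat.zero_le _) hyV
    omega
  have hhp : G.h u p = 1 := by
    have := M.wf.hle u p
    omega
  have hVsub : G.V \ {u} ⊆ G.V := sdiff_subset
  have hVne : G.V \ {u} ≠ G.V := by
    intro h
    have : u ∈ G.V \ {u} := by rw [h]; exact hu
    exact ((hV u).1 this).2 rfl
  have hadd : ∀ x B, IsCol (G.res (G.V \ {u})) x B →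
      (x y ≠ x p ∨ load G x B (G.V \ {u}) y + 2 ≤ thr G (x y) y) → False := fun x B hc hsp =>
    M.nc (addu M.wf hu hpu hge hme hmy (by omega) (by omega) hc hsp)
  -- weight of a set together with `u`
  have hins : ∀ S ⊆ G.V \ {u}, rho a b G (insert u S)
      = a + rho a b G S - ∑ w ∈ S, wt a b G u w := by
    intro S hS
    rw [rho_insert M.wf (fun h => ((hV u).1 (hS h)).2 rfl)]
    have : rv a b G u = a := by
      unfold rv
      rw [ht, hs]
      push_cast
      ring
    rw [this]
  have hwp : (b : ℤ) * (a - 1) ≤ wt a b G u p := by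
    unfold wt
    rw [hhp]
    have : (0 : ℤ) ≤ G.m u p := Int.natCast_nonneg _
    push_cast
    nlinarith
  -- step 1: a small set containing `y` and not `p, u`
  obtain ⟨S, hS, hSne, hyS, hpS, hsm⟩ : ∃ S ⊆ G.V \ {u}, S.Nonempty ∧ y ∈ S ∧ p ∉ S ∧
      rho a b G S ≤ a := by
    have hn : ¬ Colorable (G.sub (G.V \ {u}) (dec G.t y) (dec G.s y)) := by
      rintro ⟨x, B, hc⟩
      have hc' : IsCol (G.res (G.V \ {u})) x B :=
        IsCol.mono (G := G.sub (G.V \ {u}) (dec G.t y) (dec G.s y))
          (G' := G.res (G.V \ {u})) (fun _ h => h)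
          (fun _ _ _ _ => le_rfl) (fun _ _ _ _ => le_rfl) (fun v _ => dec_le _ _ _)
          (fun v _ => dec_le _ _ _) hc
      refine hadd x B hc' (Or.inr ?_)
      have h1 : load G x B (G.V \ {u}) y + 1
          ≤ thr (G.sub (G.V \ {u}) (dec G.t y) (dec G.s y)) (x y) y := hc.cap y hyV
      have h2 : thr (G.sub (G.V \ {u}) (dec G.t y) (dec G.s y)) (x y) y
          = thr G (x y) y - 1 := by
        unfold thr
        show (if (x y) = true then dec G.t y y else dec G.s y y) = _
        rw [dec_self, dec_self]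
        split_ifs <;> rfl
      omega
    obtain ⟨S, hS, hSne, hr⟩ := M.sub hVsub hVne (dec_le _ _) (dec_le _ _) hn
    have h1 := sum_dec_le (f := G.t) (u := y) S ha0
    have h2 := sum_dec_le (f := G.s) (u := y) S hb0
    have hpos := M.pos S (hS.trans hVsub) hSne
    have hyS : y ∈ S := by
      by_contra hyS
      rw [if_neg hyS] at h1 h2
      linarith
    rw [if_pos hyS] at h1 h2
    refine ⟨S, hS, hSne, hyS, ?_, by linarith⟩
    intro hpS
    have h3 := hins S hS
    have h4 : (b : ℤ) * (a - 1) + a ≤ ∑ w ∈ S, wt a b G u w := by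
      by_cases hpy : p = y
      · have h6 : wt a b G u p ≤ ∑ w ∈ S, wt a b G u w :=
          single_le_sum (f := fun w => wt a b G u w) (fun w _ => wt_nonneg ha1 _ _ _) hpS
        refine le_trans ?_ h6
        have h7 : (1 : ℤ) ≤ G.m u p := by
          rw [hpy]
          exact_mod_cast Nat.one_le_iff_ne_zero.2 hm
        unfold wt
        rw [hhp]
        push_cast
        nlinarith
      · have h6 : wt a b G u p + wt a b G u y ≤ ∑ w ∈ S, wt a b G u w := by
          rw [← add_sum_erase _ _ hpS]
          refine add_le_add le_rfl ?_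
          exact single_le_sum (f := fun w => wt a b G u w) (fun w _ => wt_nonneg ha1 _ _ _)
            (mem_erase.2 ⟨Ne.symm hpy, hyS⟩)
        have h7 : (a : ℤ) ≤ wt a b G u y := wt_ge P (by omega)
        linarith
    have h5 := M.pos (insert u S) (insert_subset hu (hS.trans hVsub)) (insert_nonempty _ _)
    linarith
  have huS : u ∉ S := fun h => ((hV u).1 (hS h)).2 rfl
  have hSV : S ≠ G.V := fun h => huS (h ▸ hu)
  have hpy : p ≠ y := fun h => hpS (h ▸ hyS)
  have hyy := M.e0 P (hS.trans hVsub) hsm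
    (M.anti P (hS.trans hVsub) hSne hSV hsm ⟨u, hu, p, hp, fun h => huS h.1, hh⟩)
    (mem_bd.2 ⟨hyS, u, mem_sdiff.2 ⟨hu, huS⟩, by rw [M.wf.msymm y u]; omega⟩)
  -- step 2: if `p` and `y` end up adjacent we can finish
  have hfin : ∀ (h' : ℕ → ℕ → ℕ) x B, h' y p ≠ 0 →
      (∀ v w, G.h v w ≤ h' v w) →
      IsCol (⟨G.V \ {u}, h', G.m, G.t, G.s⟩ : Str) x B → False := by
    intro h' x B hyp hge' hc
    have hc' : IsCol (G.res (G.V \ {u})) x B :=
      IsCol.mono (G := ⟨G.V \ {u}, h', G.m, G.t, G.s⟩) (G' := G.res (G.V \ {u})) (fun _ h => h)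
        (fun v _ w _ => hge' v w) (fun _ _ _ _ => le_rfl) (fun v _ => le_rfl)
        (fun v _ => le_rfl) hc
    refine hadd x B hc' (Or.inl ?_)
    intro hxx
    have h1 := hc.cap y hyV
    have h2 : thr (⟨G.V \ {u}, h', G.m, G.t, G.s⟩ : Str) (x y) y = 1 := by
      unfold thr
      show (if (x y) = true then G.t y else G.s y) = 1
      rw [hyy.1, hyy.2]
      split_ifs <;> rfl
    have h3 : load (⟨G.V \ {u}, h', G.m, G.t, G.s⟩ : Str) x B (G.V \ {u}) y = 0 := by
      have h4 : load (⟨G.V \ {u}, h', G.m, G.t, G.s⟩ : Str) x B (G.V \ {u}) y + 1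
        ≤ thr (⟨G.V \ {u}, h', G.m, G.t, G.s⟩ : Str) (x y) y := h1
      omega
    unfold load at h3
    rw [sum_eq_zero_iff] at h3
    have h5 := h3 p hpV
    rw [if_pos hxx] at h5
    exact hyp (by
      have : (⟨G.V \ {u}, h', G.m, G.t, G.s⟩ : Str).h y p = h' y p := rfl
      omega)
  by_cases hpyh : G.h y p = 0
  · -- add the edge `py`
    obtain ⟨G', hG'⟩ : ∃ G' : Str,
      G' = ⟨G.V \ {u}, fun v w => G.h v w + dl p y v w, G.m, G.t, G.s⟩ := ⟨_, rfl⟩
    have hh' : ∀ v w, G'.h v w = G.h v w + dl p y v w := by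
      intro v w
      rw [hG']
    have hdl : ∀ v w, dl p y v w ≠ 0 → (v = p ∧ w = y) ∨ (v = y ∧ w = p) := by
      intro v w h
      by_contra hcon
      exact h (dl_zero hcon)
    have wf' : G'.WF a b := by
      refine ⟨?_, ?_, ?_, ?_, ?_, ?_, ?_⟩
      · intro v w
        rw [hh', hh', M.wf.hsymm, dl_symm]
      · intro v w
        rw [hG']
        exact M.wf.msymm v w
      · intro v
        rw [hh', M.wf.hirr]
        by_contra hne
        rcases hdl v v (by omega) with ⟨h1, h2⟩ | ⟨h1, h2⟩
        · exact hpy (h1.symm.trans h2)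
        · exact hpy (h2.symm.trans h1)
      · intro v
        rw [hG']
        exact M.wf.mirr v
      · intro v w
        rw [hh']
        by_cases h0 : dl p y v w = 0
        · rw [h0]
          exact M.wf.hle v w
        · have h1 := dl_le_one p y v w
          have h2 : G.h v w = 0 := by
            rcases hdl v w h0 with ⟨h1, h2⟩ | ⟨h1, h2⟩
            · rw [h1, h2, M.wf.hsymm]
              exact hpyh
            · rw [h1, h2]
              exact hpyh
          omega
      · intro v hv w hw h
        rw [hG'] at hv hw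
        have hv' : v ∈ G.V := ((hV v).1 hv).1
        have hw' : w ∈ G.V := ((hV w).1 hw).1
        have e : G'.t v = G.t v := by rw [hG']
        rw [e]
        rw [hh'] at h
        by_cases h0 : dl p y v w = 0
        · exact M.wf.tb v hv' w hw' (by omega)
        · rcases hdl v w h0 with ⟨h1, h2⟩ | ⟨h1, h2⟩
          · rw [h1]
            exact M.wf.tb p hp u hu (by rw [M.wf.hsymm]; exact hh)
          · rw [h1, hyy.1]
            have := P.b3
            omega
      · intro v hv w hw h
        rw [hG'] at hv hw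
        have hv' : v ∈ G.V := ((hV v).1 hv).1
        have hw' : w ∈ G.V := ((hV w).1 hw).1
        have e : G'.s v = G.s v := by rw [hG']
        rw [e]
        rw [hh'] at h
        by_cases h0 : dl p y v w = 0
        · exact M.wf.sb v hv' w hw' (by omega)
        · rcases hdl v w h0 with ⟨h1, h2⟩ | ⟨h1, h2⟩
          · rw [h1]
            exact M.wf.sb p hp u hu (by rw [M.wf.hsymm]; exact hh)
          · rw [h1, hyy.2]
            have := P.b3
            have := P.ab
            omega
    have hless : Less G' G := by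
      right
      have hcard : #G'.V < #G.V := by
        rw [hG']
        exact card_lt_card ((Finset.ssubset_iff_subset_ne).2 ⟨hVsub, hVne⟩)
      refine ⟨?_, Or.inl hcard⟩
      have hun : u ∉ G.V \ {u} := fun h => ((hV u).1 h).2 rfl
      have hVins : G.V = insert u (G.V \ {u}) := by
        ext v
        rw [mem_insert, hV]
        by_cases h : v = u
        · subst h
          tauto
        · tauto
      have e1 : hc G = (∑ w ∈ G.V, G.h u w) + ((∑ v ∈ G.V \ {u}, G.h v u)
          + ∑ v ∈ G.V \ {u}, ∑ w ∈ G.V \ {u}, G.h v w) := by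
        unfold hc
        have e2 : ∑ v ∈ G.V, ∑ w ∈ G.V, G.h v w
            = (∑ w ∈ G.V, G.h u w) + ∑ v ∈ G.V \ {u}, ∑ w ∈ G.V, G.h v w := by
          rw [← sum_insert hun (f := fun v => ∑ w ∈ G.V, G.h v w), ← hVins]
        rw [e2, ← sum_add_distrib]
        congr 1
        refine sum_congr rfl fun v _ => ?_
        rw [← sum_insert hun (f := fun w => G.h v w), ← hVins]
      have e3 : hc G' = (∑ v ∈ G.V \ {u}, ∑ w ∈ G.V \ {u}, G.h v w)
          + ∑ v ∈ G.V \ {u}, ∑ w ∈ G.V \ {u}, dl p y v w := by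
        unfold hc
        have e4 : G'.V = G.V \ {u} := by rw [hG']
        rw [e4, ← sum_add_distrib]
        refine sum_congr rfl fun v _ => ?_
        rw [← sum_add_distrib]
        exact sum_congr rfl fun w _ => hh' v w
      have e5 : ∑ v ∈ G.V \ {u}, ∑ w ∈ G.V \ {u}, dl p y v w ≤ 2 := by
        have e6 : ∀ v ∈ G.V \ {u}, ∑ w ∈ G.V \ {u}, dl p y v w
            ≤ (if v = p then 1 else 0) + if v = y then 1 else 0 := by
          intro v _
          by_cases h1 : v = p
          · subst h1
            have e7 : ∑ w ∈ G.V \ {u}, dl v y v w ≤ ∑ w ∈ G.V \ {u}, if w = y then 1 else 0 := by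
              refine sum_le_sum fun w _ => ?_
              unfold dl
              split_ifs <;> omega
            rw [sum_ite_eq'] at e7
            split_ifs at e7 ⊢ <;> omega
          · by_cases h2 : v = y
            · subst h2
              have e7 : ∑ w ∈ G.V \ {u}, dl p v v w
                  ≤ ∑ w ∈ G.V \ {u}, if w = p then 1 else 0 := by
                refine sum_le_sum fun w _ => ?_
                unfold dl
                split_ifs <;> omega
              rw [sum_ite_eq'] at e7
              split_ifs at e7 ⊢ <;> omega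
            · rw [sum_eq_zero (fun w _ => dl_zero_left h1 h2)]
              exact Nat.zero_le _
        refine (sum_le_sum e6).trans ?_
        rw [sum_add_distrib, sum_ite_eq', sum_ite_eq']
        split_ifs <;> omega
      have e8 : 1 ≤ ∑ w ∈ G.V, G.h u w := by
        have : G.h u p ≤ ∑ w ∈ G.V, G.h u w :=
          single_le_sum (f := fun w => G.h u w) (fun _ _ => Nat.zero_le _) hp
        omega
      have e9 : 1 ≤ ∑ v ∈ G.V \ {u}, G.h v u := by
        have : G.h p u ≤ ∑ v ∈ G.V \ {u}, G.h v u :=
          single_le_sum (f := fun v => G.h v u) (fun _ _ => Nat.zero_le _) hpV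
        rw [M.wf.hsymm] at this
        omega
      omega
    have hnc : ¬ Colorable G' := by
      rintro ⟨x, B, hc⟩
      rw [hG'] at hc
      refine hfin _ x B ?_ (fun v w => Nat.le_add_right _ _) hc
      show G.h y p + dl p y y p ≠ 0
      rw [dl_symm, dl_pq]
      omega
    obtain ⟨W, hW, hWne, hr⟩ := M.ihc wf' hless hnc
    have hWV : W ⊆ G.V \ {u} := by
      rw [hG'] at hW
      exact hW
    have hr2 : rho a b G' W = rho a b G W
        - if p ∈ W ∧ y ∈ W then (b : ℤ) * (a - 1) else 0 := by
      rw [rho_mod (G := G) hpy W (-1) 0 (fun _ => 0)]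
      · split_ifs <;> simp [sub_eq_add_neg]
      · intro v _ w _
        rw [hh']
        push_cast
        ring
      · intro v _ w _
        rw [hG']
        simp
      · intro v _
        rw [hG']
        simp [rv]
    rw [hr2] at hr
    have hposW := M.pos W (hWV.trans hVsub) hWne
    have hin : p ∈ W ∧ y ∈ W := by
      by_contra hcon
      rw [if_neg hcon] at hr
      linarith
    rw [if_pos hin] at hr
    have h3 := hins W hWV
    have h4 : wt a b G u p + wt a b G u y ≤ ∑ w ∈ W, wt a b G u w := by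
      rw [← add_sum_erase _ _ hin.1]
      refine add_le_add le_rfl ?_
      exact single_le_sum (f := fun w => wt a b G u w) (fun w _ => wt_nonneg ha1 _ _ _)
        (mem_erase.2 ⟨Ne.symm hpy, hin.2⟩)
    have h5 := M.pos (insert u W) (insert_subset hu (hWV.trans hVsub)) (insert_nonempty _ _)
    have h6 : (a : ℤ) ≤ wt a b G u y := wt_ge P (by omega)
    linarith
  · obtain ⟨x, B, hc⟩ := M.colres hVsub hVne
    exact hfin G.h x B hpyh (fun _ _ => le_rfl) hc

end

end Pool.Agent.Lib.MP_4006b4_co_c
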