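import Mathlib
import Pool.Agent.Lib.MP_4006b4_co_c.Aux5
import Pool.Agent.Lib.MP_4006b4_co_c.Clause2
import Pool.Agent.Lib.MP_4006b4_co_c.End

/-!
# Merging the two neighbours of a net
-/

open Finset

namespace Pool.Agent.Lib.MP_4006b4_co_c

/-- Delete `u` and merge `w2` into `w1`. -/
def Str.mg (G : Str) (u w1 w2 : ℕ) : Str where
  V := G.V \ {u, w2}
  h := fun v w => if v = w1 then (if w = w1 then 0
      else G.h w1 w + G.h w2 w - G.h w1 w * G.h w2 w)
    else if w = w1 then G.h w1 v + G.h w2 v - G.h w1 v * G.h w2 v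
    else G.h v w
  m := fun v w => if v = w1 then (if w = w1 then 0 else G.m w1 w + G.m w2 w)
    else if w = w1 then G.m w1 v + G.m w2 v
    else G.m v w
  t := fun v => if v = w1 then 2 - G.h w1 w2 else G.t v - G.h w1 v * G.h w2 v
  s := fun v => if v = w1 then min (G.s w1) (G.s w2) - G.h w1 w2
    else G.s v - G.h w1 v * G.h w2 v

section

variable {G : Str} {u w1 w2 : ℕ}

theorem mg_h0 : (G.mg u w1 w2).h w1 w1 = 0 := by
  simp [Str.mg]

theorem mg_h1 {y : ℕ} (hy : y ≠ w1) :
    (G.mg u w1 w2).h w1 y = G.h w1 y + G.h w2 y - G.h w1 y * G.h w2 y := by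
  simp [Str.mg, hy]

theorem mg_h1' {y : ℕ} (hy : y ≠ w1) :
    (G.mg u w1 w2).h y w1 = G.h w1 y + G.h w2 y - G.h w1 y * G.h w2 y := by
  simp [Str.mg, hy]

theorem mg_h2 {v w : ℕ} (hv : v ≠ w1) (hw : w ≠ w1) :
    (G.mg u w1 w2).h v w = G.h v w := by
  simp [Str.mg, hv, hw]

theorem mg_m0 : (G.mg u w1 w2).m w1 w1 = 0 := by
  simp [Str.mg]

theorem mg_m1 {y : ℕ} (hy : y ≠ w1) :
    (G.mg u w1 w2).m w1 y = G.m w1 y + G.m w2 y := by
  simp [Str.mg, hy]

theorem mg_m1' {y : ℕ} (hy : y ≠ w1) :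
    (G.mg u w1 w2).m y w1 = G.m w1 y + G.m w2 y := by
  simp [Str.mg, hy]

theorem mg_m2 {v w : ℕ} (hv : v ≠ w1) (hw : w ≠ w1) :
    (G.mg u w1 w2).m v w = G.m v w := by
  simp [Str.mg, hv, hw]

theorem mg_t1 : (G.mg u w1 w2).t w1 = 2 - G.h w1 w2 := by simp [Str.mg]

theorem mg_s1 : (G.mg u w1 w2).s w1 = min (G.s w1) (G.s w2) - G.h w1 w2 := by simp [Str.mg]

theorem mg_t2 {v : ℕ} (hv : v ≠ w1) :
    (G.mg u w1 w2).t v = G.t v - G.h w1 v * G.h w2 v := by simp [Str.mg, hv]

theorem mg_s2 {v : ℕ} (hv : v ≠ w1) :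
    (G.mg u w1 w2).s v = G.s v - G.h w1 v * G.h w2 v := by simp [Str.mg, hv]

theorem mg_mem {v : ℕ} : v ∈ (G.mg u w1 w2).V ↔ v ∈ G.V ∧ v ≠ u ∧ v ≠ w2 := by
  simp [Str.mg]

theorem h01 (wf : G.WF 5 3) (v w : ℕ) : G.h v w = 0 ∨ G.h v w = 1 := by
  have := wf.hle v w
  omega

theorem mg_wf (wf : G.WF 5 3) (hu : u ∈ G.V) (hw1 : w1 ∈ G.V) (hw2 : w2 ∈ G.V)
    (h1 : G.h u w1 ≠ 0) : (G.mg u w1 w2).WF 5 3 where
  hsymm := fun v w => by
    by_cases hv : v = w1
    · by_cases hw : w = w1
      · rw [hv, hw]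
      · rw [hv, mg_h1 hw, mg_h1' hw]
    · by_cases hw : w = w1
      · rw [hw, mg_h1 hv, mg_h1' hv]
      · rw [mg_h2 hv hw, mg_h2 hw hv, wf.hsymm]
  msymm := fun v w => by
    by_cases hv : v = w1
    · by_cases hw : w = w1
      · rw [hv, hw]
      · rw [hv, mg_m1 hw, mg_m1' hw]
    · by_cases hw : w = w1
      · rw [hw, mg_m1 hv, mg_m1' hv]
      · rw [mg_m2 hv hw, mg_m2 hw hv, wf.msymm]
  hirr := fun v => by
    by_cases hv : v = w1
    · rw [hv, mg_h0]
    · rw [mg_h2 hv hv, wf.hirr]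
  mirr := fun v => by
    by_cases hv : v = w1
    · rw [hv, mg_m0]
    · rw [mg_m2 hv hv, wf.mirr]
  hle := fun v w => by
    by_cases hv : v = w1
    · by_cases hw : w = w1
      · rw [hv, hw, mg_h0]
        exact Nat.zero_le _
      · rw [hv, mg_h1 hw]
        rcases h01 wf w1 w with h | h <;> rcases h01 wf w2 w with h' | h' <;> rw [h, h'] <;> decide
    · by_cases hw : w = w1
      · rw [hw, mg_h1' hv]
        rcases h01 wf w1 v with h | h <;> rcases h01 wf w2 v with h' | h' <;> rw [h, h'] <;> decide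
      · rw [mg_h2 hv hw]
        exact wf.hle v w
  tb := fun v hv w hw hne => by
    rw [mg_mem] at hv hw
    by_cases hv1 : v = w1
    · rw [hv1, mg_t1]
      omega
    · rw [mg_t2 hv1]
      have key : ∃ z ∈ G.V, G.h v z ≠ 0 := by
        by_cases hw1' : w = w1
        · rw [hw1', mg_h1' hv1] at hne
          by_cases ha : G.h w1 v = 0
          · by_cases hb : G.h w2 v = 0
            · rw [ha, hb] at hne
              exact absurd rfl hne
            · exact ⟨w2, hw2, by rwa [wf.hsymm]⟩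
          · exact ⟨w1, hw1, by rwa [wf.hsymm]⟩
        · rw [mg_h2 hv1 hw1'] at hne
          exact ⟨w, hw.1, hne⟩
      obtain ⟨z, hz, hz'⟩ := key
      have := wf.tb v hv.1 z hz hz'
      omega
  sb := fun v hv w hw hne => by
    rw [mg_mem] at hv hw
    by_cases hv1 : v = w1
    · rw [hv1, mg_s1]
      have := wf.sb w1 hw1 u hu (by rwa [wf.hsymm])
      omega
    · rw [mg_s2 hv1]
      have key : ∃ z ∈ G.V, G.h v z ≠ 0 := by
        by_cases hw1' : w = w1
        · rw [hw1', mg_h1' hv1] at hne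
          by_cases ha : G.h w1 v = 0
          · by_cases hb : G.h w2 v = 0
            · rw [ha, hb] at hne
              exact absurd rfl hne
            · exact ⟨w2, hw2, by rwa [wf.hsymm]⟩
          · exact ⟨w1, hw1, by rwa [wf.hsymm]⟩
        · rw [mg_h2 hv1 hw1'] at hne
          exact ⟨w, hw.1, hne⟩
      obtain ⟨z, hz, hz'⟩ := key
      have := wf.sb v hv.1 z hz hz'
      omega

/-- Potential of sets not containing the merged vertex. -/
theorem mg_rho_out {S : Finset ℕ} (hS : w1 ∉ S) :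
    rho 5 3 G S - 8 * (∑ v ∈ S, ((G.h w1 v * G.h w2 v : ℕ) : ℤ)) ≤ rho 5 3 (G.mg u w1 w2) S := by
  have hne : ∀ v ∈ S, v ≠ w1 := fun v hv h => hS (h ▸ hv)
  have e1 : rho 5 3 (G.mg u w1 w2) S
      = rho 5 3 (G.sub S (G.mg u w1 w2).t (G.mg u w1 w2).s) S :=
    rho_congr (fun v hv w hw => mg_h2 (hne v hv) (hne w hw))
      (fun v hv w hw => mg_m2 (hne v hv) (hne w hw)) (fun v _ => rfl) (fun v _ => rfl)
  have e2 := rho_thr (a := 5) (b := 3) (G := G)
    (G' := G.sub S (G.mg u w1 w2).t (G.mg u w1 w2).s) rfl rfl S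
  rw [e1, e2, mul_sum]
  have e3 : (∑ v ∈ S, ((5 : ℕ) : ℤ) * ((G.t v : ℤ)
        - (G.sub S (G.mg u w1 w2).t (G.mg u w1 w2).s).t v))
      + (∑ v ∈ S, ((3 : ℕ) : ℤ) * ((G.s v : ℤ)
        - (G.sub S (G.mg u w1 w2).t (G.mg u w1 w2).s).s v))
      ≤ ∑ v ∈ S, 8 * ((G.h w1 v * G.h w2 v : ℕ) : ℤ) := by
    rw [← sum_add_distrib]
    refine sum_le_sum fun v hv => ?_
    have ht : (G.sub S (G.mg u w1 w2).t (G.mg u w1 w2).s).t v = G.t v - G.h w1 v * G.h w2 v :=
      mg_t2 (u := u) (hne v hv)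
    have hs : (G.sub S (G.mg u w1 w2).t (G.mg u w1 w2).s).s v = G.s v - G.h w1 v * G.h w2 v :=
      mg_s2 (u := u) (hne v hv)
    rw [ht, hs]
    have h1 : ∀ n : ℕ, (n : ℤ) - ((n - G.h w1 v * G.h w2 v : ℕ) : ℤ)
        ≤ ((G.h w1 v * G.h w2 v : ℕ) : ℤ) := by
      intro n
      generalize G.h w1 v * G.h w2 v = c
      omega
    have h2 := h1 (G.t v)
    have h3 := h1 (G.s v)
    push_cast at h2 h3 ⊢
    linarith
  linarith

theorem wt53 (v w : ℕ) : wt 5 3 G v w = 12 * (G.h v w : ℤ) + 5 * (G.m v w : ℤ) := by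
  unfold wt
  push_cast
  ring

theorem rv53 (v : ℕ) : rv 5 3 G v = 5 * (G.t v : ℤ) + 3 * (G.s v : ℤ) - 3 := by
  unfold rv
  push_cast
  ring

end

/-- A net with two edges is impossible. -/
theorem MinCE.merge {G : Str} (M : MinCE 5 3 G) {u w1 w2 : ℕ} (hu : u ∈ G.V) (hw1 : w1 ∈ G.V)
    (hw2 : w2 ∈ G.V) (h12 : w1 ≠ w2) (hh1 : G.h u w1 ≠ 0) (hh2 : G.h u w2 ≠ 0)
    (ht : G.t u = 1) (hs : G.s u = 1)
    (hone : ∀ x ∈ G.V, G.h x w1 ≠ 0 ∨ G.h x w2 ≠ 0 → G.t x = 1 → G.s x = 1 → x = u) :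
    False := by
  classical
  have P := par53
  have wf := M.wf
  have hu1 : u ≠ w1 := fun h => hh1 (by rw [h]; exact wf.hirr w1)
  have hu2 : u ≠ w2 := fun h => hh2 (by rw [h]; exact wf.hirr w2)
  have e11 : G.h u w1 = 1 := (h01 wf u w1).resolve_left hh1
  have e12 : G.h u w2 = 1 := (h01 wf u w2).resolve_left hh2
  -- thresholds of the two neighbours
  have tw : ∀ w ∈ G.V, G.h u w ≠ 0 → G.t w = 2 ∧ 1 ≤ G.s w ∧ G.s w ≤ 4 := by
    intro w hw hh
    have h1 := M.tpos P hw
    have h2 := wf.tb w hw u hu (by rwa [wf.hsymm])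
    have h3 := wf.sb w hw u hu (by rwa [wf.hsymm])
    have h4 := M.spos P hw
    refine ⟨?_, h4, by omega⟩
    by_contra hne
    have h5 : G.t w = 1 := by omega
    have h6 := M.e1 P hw hu (by norm_num) (by rwa [wf.hsymm]) h5
    exact M.e2 P hu hw hh ht h6
  obtain ⟨t1, s1a, s1b⟩ := tw w1 hw1 hh1
  obtain ⟨t2, s2a, s2b⟩ := tw w2 hw2 hh2
  -- no further edges at `u`
  have hdeg := M.e3 P hu ht hs
  have hdeg2 : (G.h u w1 + G.m u w1) + ((G.h u w2 + G.m u w2)
      + ∑ w ∈ ((G.V \ {u}).erase w1).erase w2, (G.h u w + G.m u w)) ≤ 2 := by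
    have m1 : w1 ∈ G.V \ {u} := by
      rw [mem_sdiff, mem_singleton]
      exact ⟨hw1, hu1.symm⟩
    have m2 : w2 ∈ (G.V \ {u}).erase w1 := by
      rw [mem_erase, mem_sdiff, mem_singleton]
      exact ⟨h12.symm, hw2, hu2.symm⟩
    rw [add_sum_erase _ (fun w => G.h u w + G.m u w) m2,
      add_sum_erase _ (fun w => G.h u w + G.m u w) m1]
    exact hdeg
  have mu1 : G.m u w1 = 0 := by omega
  have mu2 : G.m u w2 = 0 := by omega
  have hrest : ∀ y ∈ G.V, y ≠ w1 → y ≠ w2 → G.h u y = 0 ∧ G.m u y = 0 := by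
    intro y hy hy1 hy2
    by_cases hyu : y = u
    · rw [hyu]
      exact ⟨wf.hirr u, wf.mirr u⟩
    · have h0 : ∑ w ∈ ((G.V \ {u}).erase w1).erase w2, (G.h u w + G.m u w) = 0 := by omega
      rw [sum_eq_zero_iff] at h0
      have := h0 y (by
        rw [mem_erase, mem_erase, mem_sdiff, mem_singleton]
        exact ⟨hy2, hy1, hy, hyu⟩)
      omega
  -- the potential of `S' ∪ {u, w1, w2}`
  have key : ∀ S' ⊆ G.V, u ∉ S' → w1 ∉ S' → w2 ∉ S' →
      -2 ≤ rho 5 3 G S' + 3 * (G.s w1 : ℤ) + 3 * (G.s w2 : ℤ) - 5 - 12 * (G.h w1 w2 : ℤ)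
        - 5 * (G.m w1 w2 : ℤ) - ∑ y ∈ S', (wt 5 3 G w1 y + wt 5 3 G w2 y) := by
    intro S' hS' n0 n1' n2
    have hin2 : w1 ∉ insert w2 S' := by
      rw [mem_insert]
      tauto
    have hin3 : u ∉ insert w1 (insert w2 S') := by
      rw [mem_insert, mem_insert]
      tauto
    have hpos := M.pos (insert u (insert w1 (insert w2 S'))) (by
      intro z hz
      rw [mem_insert, mem_insert, mem_insert] at hz
      rcases hz with rfl | rfl | rfl | hz
      · exact hu
      · exact hw1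
      · exact hw2
      · exact hS' hz) (insert_nonempty _ _)
    rw [rho_insert wf hin3, rho_insert wf hin2, rho_insert wf n2] at hpos
    have q1 : ∑ w ∈ insert w1 (insert w2 S'), wt 5 3 G u w = 24 := by
      rw [sum_insert hin2, sum_insert n2]
      have : ∑ w ∈ S', wt 5 3 G u w = 0 := by
        refine sum_eq_zero fun y hy => ?_
        obtain ⟨a1, a2⟩ := hrest y (hS' hy) (fun h => n1' (h ▸ hy)) (fun h => n2 (h ▸ hy))
        rw [wt53, a1, a2]
        rfl
      rw [this, wt53, wt53, e11, e12, mu1, mu2]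
      norm_num
    have q2 : ∑ w ∈ insert w2 S', wt 5 3 G w1 w
        = 12 * (G.h w1 w2 : ℤ) + 5 * (G.m w1 w2 : ℤ) + ∑ y ∈ S', wt 5 3 G w1 y := by
      rw [sum_insert n2, wt53 w1 w2]
    rw [q1, q2, rv53, rv53, rv53, ht, hs, t1, t2] at hpos
    rw [sum_add_distrib]
    push_cast at hpos ⊢
    linarith
  -- common neighbours
  set cm : ℕ → ℤ := fun y => ((G.h w1 y * G.h w2 y : ℕ) : ℤ) with hcm
  have cm01 : ∀ y, cm y = 0 ∨ cm y = 1 := by
    intro y
    simp only [hcm]
    rcases h01 wf w1 y with h | h <;> rcases h01 wf w2 y with h' | h' <;> rw [h, h'] <;> simp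
  have cmwt : ∀ y, 24 * cm y ≤ wt 5 3 G w1 y + wt 5 3 G w2 y := by
    intro y
    rw [wt53, wt53]
    simp only [hcm]
    have a1 : (0 : ℤ) ≤ G.m w1 y := Int.natCast_nonneg _
    have a2 : (0 : ℤ) ≤ G.m w2 y := Int.natCast_nonneg _
    rcases h01 wf w1 y with h | h <;> rcases h01 wf w2 y with h' | h' <;> rw [h, h'] <;>
      push_cast <;> linarith
  have wf' : (G.mg u w1 w2).WF 5 3 := mg_wf wf hu hw1 hw2 hh1
  -- potentials
  have hpos' : ∀ S ⊆ (G.mg u w1 w2).V, S.Nonempty →
      -((3 : ℕ) : ℤ) + 1 ≤ rho 5 3 (G.mg u w1 w2) S := by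
    intro S hS hne
    have hmem : ∀ v ∈ S, v ∈ G.V ∧ v ≠ u ∧ v ≠ w2 := fun v hv => mg_mem.1 (hS hv)
    by_cases hw : w1 ∈ S
    · -- the merged vertex is in `S`
      set S' := S.erase w1 with hS'
      have hSe : S = insert w1 S' := (insert_erase hw).symm
      have n1' : w1 ∉ S' := notMem_erase _ _
      have hmem' : ∀ v ∈ S', v ∈ G.V ∧ v ≠ u ∧ v ≠ w2 := fun v hv => hmem v (mem_of_mem_erase hv)
      have k1 := key S' (fun v hv => (hmem' v hv).1) (fun h => (hmem' u h).2.1 rfl) n1'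
        (fun h => (hmem' w2 h).2.2 rfl)
      have k2 := mg_rho_out (G := G) (u := u) (w1 := w1) (w2 := w2) n1'
      rw [hSe, rho_insert wf' n1', rv53, mg_t1, mg_s1]
      have k3 : ∑ w ∈ S', wt 5 3 (G.mg u w1 w2) w1 w
          = ∑ y ∈ S', (wt 5 3 G w1 y + wt 5 3 G w2 y) - 12 * ∑ y ∈ S', cm y := by
        rw [mul_sum, ← sum_sub_distrib]
        refine sum_congr rfl fun y hy => ?_
        have hyn : y ≠ w1 := fun h => n1' (h ▸ hy)
        rw [wt53, wt53, wt53, mg_h1 hyn, mg_m1 hyn]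
        simp only [hcm]
        rcases h01 wf w1 y with h | h <;> rcases h01 wf w2 y with h' | h' <;> rw [h, h'] <;>
          push_cast <;> ring
      rw [k3]
      have k4 : 0 ≤ ∑ y ∈ S', cm y := sum_nonneg fun y _ => by
        rcases cm01 y with h | h <;> rw [h] <;> norm_num
      have k5 : (∑ v ∈ S', ((G.h w1 v * G.h w2 v : ℕ) : ℤ)) = ∑ y ∈ S', cm y := rfl
      rw [k5] at k2
      have hm0 : (0 : ℤ) ≤ G.m w1 w2 := Int.natCast_nonneg _
      have h12le : G.h w1 w2 ≤ 1 := wf.hle _ _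
      have c1 : ((2 - G.h w1 w2 : ℕ) : ℤ) = 2 - (G.h w1 w2 : ℤ) := by
        omega
      have c2 : ((min (G.s w1) (G.s w2) - G.h w1 w2 : ℕ) : ℤ) + (G.h w1 w2 : ℤ)
          + 4 ≥ (G.s w1 : ℤ) + (G.s w2 : ℤ) := by
        omega
      rw [c1]
      have h120 : (0 : ℤ) ≤ G.h w1 w2 := Int.natCast_nonneg _
      push_cast at c2 ⊢
      linarith
    · -- the merged vertex is not in `S`
      have k2 := mg_rho_out (G := G) (u := u) (w1 := w1) (w2 := w2) hw
      have k5 : (∑ v ∈ S, ((G.h w1 v * G.h w2 v : ℕ) : ℤ)) = ∑ y ∈ S, cm y := rfl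
      rw [k5] at k2
      have k1 := key S (fun v hv => (hmem v hv).1) (fun h => (hmem u h).2.1 rfl) hw
        (fun h => (hmem w2 h).2.2 rfl)
      have k6 : 24 * ∑ y ∈ S, cm y ≤ ∑ y ∈ S, (wt 5 3 G w1 y + wt 5 3 G w2 y) := by
        rw [mul_sum]
        exact sum_le_sum fun y _ => cmwt y
      have hSV : S ⊆ G.V := fun v hv => (hmem v hv).1
      have hm0 : (0 : ℤ) ≤ G.m w1 w2 := Int.natCast_nonneg _
      have h120 : (0 : ℤ) ≤ G.h w1 w2 := Int.natCast_nonneg _
      have s1c : (G.s w1 : ℤ) ≤ 4 := by exact_mod_cast s1b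
      have s2c : (G.s w2 : ℤ) ≤ 4 := by exact_mod_cast s2b
      have hr := M.pos S hSV hne
      by_cases hc0 : ∀ y ∈ S, cm y = 0
      · rw [sum_eq_zero hc0] at k2
        linarith
      · push Not at hc0
        obtain ⟨y, hy, hcy⟩ := hc0
        have hcy1 : cm y = 1 := (cm01 y).resolve_left hcy
        have hyne : G.h w1 y ≠ 0 ∧ G.h w2 y ≠ 0 := by
          constructor
          · intro h
            apply hcy
            simp only [hcm]
            rw [h, zero_mul]
            rfl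
          · intro h
            apply hcy
            simp only [hcm]
            rw [h, mul_zero]
            rfl
        -- `rho S ≥ 6`
        have k7 : 6 ≤ rho 5 3 G S := by
          by_contra hlt
          have hsm : rho 5 3 G S ≤ ((5 : ℕ) : ℤ) := by
            push_cast
            omega
          have hSne : S ≠ G.V := fun h => hw (h ▸ hw1)
          have hno := M.anti2 P hSV hne hSne hsm
            (Or.inl ⟨y, hSV hy, w1, hw1, fun h => hw h.2, by rw [wf.hsymm]; exact hyne.1⟩)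
          have hb : y ∈ bd G S := mem_bd.2 ⟨hy, w1, mem_sdiff.2 ⟨hw1, hw⟩, by
            have : G.h y w1 ≠ 0 := by rw [wf.hsymm]; exact hyne.1
            omega⟩
          obtain ⟨b1, b2⟩ := M.e0 P hSV hsm hno hb
          exact (hmem y hy).2.1 (hone y (hSV hy) (Or.inl (by rw [wf.hsymm]; exact hyne.1)) b1 b2)
        by_cases hc1 : ∑ y ∈ S, cm y ≤ 1
        · push_cast
          linarith
        · have : 2 ≤ ∑ y ∈ S, cm y := by omega
          push_cast
          linarith
  -- the order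
  have hless : Less (G.mg u w1 w2) G := by
    left
    unfold hc
    set V' := (G.V \ {u, w2}).erase w1 with hV'
    have mV' : ∀ z, z ∈ V' ↔ z ∈ G.V ∧ z ≠ u ∧ z ≠ w1 ∧ z ≠ w2 := by
      intro z
      simp only [hV', mem_erase, mem_sdiff, mem_insert, mem_singleton]
      tauto
    have hw1m : w1 ∈ G.V \ {u, w2} := by
      simp only [mem_sdiff, mem_insert, mem_singleton]
      exact ⟨hw1, by tauto⟩
    have hVeq : (G.mg u w1 w2).V = insert w1 V' := (insert_erase hw1m).symm
    have nw1 : w1 ∉ V' := notMem_erase _ _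
    have nw2 : w2 ∉ V' := fun h => ((mV' w2).1 h).2.2.2 rfl
    have nu : u ∉ V' := fun h => ((mV' u).1 h).2.1 rfl
    have hVe2 : G.V = insert u (insert w1 (insert w2 V')) := by
      ext z
      simp only [mem_insert, mV']
      constructor
      · intro hz
        tauto
      · rintro (rfl | rfl | rfl | h)
        · exact hu
        · exact hw1
        · exact hw2
        · exact h.1
    have nA : w1 ∉ insert w2 V' := by
      rw [mem_insert]
      tauto
    have nB : u ∉ insert w1 (insert w2 V') := by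
      rw [mem_insert, mem_insert]
      tauto
    have L : ∑ v ∈ (G.mg u w1 w2).V, ∑ w ∈ (G.mg u w1 w2).V, (G.mg u w1 w2).h v w
        ≤ 2 * ∑ y ∈ V', (G.h w1 y + G.h w2 y) + ∑ v ∈ V', ∑ w ∈ V', G.h v w := by
      rw [hVeq, sum_insert nw1, sum_insert nw1, mg_h0]
      have a1 : ∑ x ∈ V', (G.mg u w1 w2).h w1 x ≤ ∑ y ∈ V', (G.h w1 y + G.h w2 y) := by
        refine sum_le_sum fun y hy => ?_
        rw [mg_h1 ((mV' y).1 hy).2.2.1]
        exact Nat.sub_le _ _
      have a2 : ∑ x ∈ V', ∑ w ∈ insert w1 V', (G.mg u w1 w2).h x w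
          ≤ ∑ y ∈ V', (G.h w1 y + G.h w2 y) + ∑ v ∈ V', ∑ w ∈ V', G.h v w := by
        rw [← sum_add_distrib]
        refine sum_le_sum fun y hy => ?_
        rw [sum_insert nw1, mg_h1' ((mV' y).1 hy).2.2.1]
        refine add_le_add (Nat.sub_le _ _) (le_of_eq ?_)
        exact sum_congr rfl fun z hz => mg_h2 ((mV' y).1 hy).2.2.1 ((mV' z).1 hz).2.2.1
      omega
    have Rr : 2 * (∑ y ∈ V', (G.h w1 y + G.h w2 y)) + (∑ v ∈ V', ∑ w ∈ V', G.h v w) + 4
        ≤ ∑ v ∈ G.V, ∑ w ∈ G.V, G.h v w := by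
      rw [hVe2, sum_insert nB, sum_insert nA, sum_insert nw2]
      simp_rw [sum_insert nB, sum_insert nA, sum_insert nw2]
      rw [sum_add_distrib, sum_add_distrib, sum_add_distrib, sum_add_distrib]
      have b1 : ∑ x ∈ V', G.h x w1 = ∑ x ∈ V', G.h w1 x := sum_congr rfl fun x _ => wf.hsymm _ _
      have b2 : ∑ x ∈ V', G.h x w2 = ∑ x ∈ V', G.h w2 x := sum_congr rfl fun x _ => wf.hsymm _ _
      have b3 : G.h w1 u = 1 := by rw [wf.hsymm]; exact e11
      have b4 : G.h w2 u = 1 := by rw [wf.hsymm]; exact e12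
      rw [b1, b2, e11, e12, b3, b4]
      omega
    omega
  obtain ⟨x, A, hcol⟩ := M.ih _ wf' hpos' hless
  -- extend the colouring
  refine M.nc ?_
  have hVm : ∀ v, v ∈ G.V → v ≠ u → v ≠ w2 → v ∈ (G.mg u w1 w2).V :=
    fun v h1 h2 h3 => mg_mem.2 ⟨h1, h2, h3⟩
  let x' : ℕ → Bool := fun v => if v = u then !(x w1) else if v = w2 then x w1 else x v
  let A' : ℕ → ℕ → ℕ := fun v w =>
    if v = u ∨ w = u then 0
    else if (v = w1 ∨ v = w2) then (if (w = w1 ∨ w = w2) then 0 else A w1 w)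
    else if (w = w1 ∨ w = w2) then (if x v = x w1 then 0 else G.m v w - A w1 v)
    else A v w
  have xu : x' u = !(x w1) := if_pos rfl
  have xw1 : x' w1 = x w1 := by
    simp only [x']
    rw [if_neg hu1.symm, if_neg h12]
  have xw2 : x' w2 = x w1 := by
    simp only [x']
    rw [if_neg hu2.symm]
    simp
  have xo : ∀ v, v ≠ u → v ≠ w2 → x' v = x v := by
    intro v h1 h2
    simp only [x']
    rw [if_neg h1, if_neg h2]
  have Auv : ∀ w, A' u w = 0 := fun w => if_pos (Or.inl rfl)
  have Avu : ∀ v, A' v u = 0 := fun v => if_pos (Or.inr rfl)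
  have A11 : ∀ v w, (v = w1 ∨ v = w2) → (w = w1 ∨ w = w2) → A' v w = 0 := by
    intro v w hv hw
    simp only [A']
    split_ifs <;> rfl
  have A1o : ∀ v w, (v = w1 ∨ v = w2) → w ≠ u → w ≠ w1 → w ≠ w2 → A' v w = A w1 w := by
    intro v w hv a1 a2 a3
    have hvu : v ≠ u := by
      rcases hv with rfl | rfl
      · exact hu1.symm
      · exact hu2.symm
    simp only [A']
    rw [if_neg (by tauto), if_pos hv, if_neg (by tauto)]
  have Ao1 : ∀ v w, v ≠ u → v ≠ w1 → v ≠ w2 → (w = w1 ∨ w = w2) →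
      A' v w = if x v = x w1 then 0 else G.m v w - A w1 v := by
    intro v w a1 a2 a3 hw
    have hwu : w ≠ u := by
      rcases hw with rfl | rfl
      · exact hu1.symm
      · exact hu2.symm
    simp only [A']
    rw [if_neg (by tauto), if_neg (by tauto), if_pos hw]
  have Aoo : ∀ v w, v ≠ u → v ≠ w1 → v ≠ w2 → w ≠ u → w ≠ w1 → w ≠ w2 → A' v w = A v w := by
    intro v w a1 a2 a3 b1 b2 b3
    simp only [A']
    rw [if_neg (by tauto), if_neg (by tauto), if_neg (by tauto)]
  -- coverage between the merged vertex and the others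
  have cov1 : ∀ v ∈ G.V, v ≠ u → v ≠ w1 → v ≠ w2 → x v ≠ x w1 →
      G.m w1 v + G.m w2 v ≤ A v w1 + A w1 v := by
    intro v hv a1 a2 a3 hne
    have := hcol.cov v (hVm v hv a1 a3) w1 (hVm w1 hw1 hu1.symm h12) hne
    rw [mg_m1' a2] at this
    exact this
  set V' := (G.V \ {u, w2}).erase w1 with hV'
  have mV' : ∀ z, z ∈ V' ↔ z ∈ G.V ∧ z ≠ u ∧ z ≠ w1 ∧ z ≠ w2 := by
    intro z
    simp only [hV', mem_erase, mem_sdiff, mem_insert, mem_singleton]
    tauto
  have hw1m : w1 ∈ G.V \ {u, w2} := by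
    simp only [mem_sdiff, mem_insert, mem_singleton]
    exact ⟨hw1, by tauto⟩
  have hVeq : (G.mg u w1 w2).V = insert w1 V' := (insert_erase hw1m).symm
  have nw1 : w1 ∉ V' := notMem_erase _ _
  have nw2 : w2 ∉ V' := fun h => ((mV' w2).1 h).2.2.2 rfl
  have nu : u ∉ V' := fun h => ((mV' u).1 h).2.1 rfl
  have hVe2 : G.V = insert u (insert w1 (insert w2 V')) := by
    ext z
    simp only [mem_insert, mV']
    constructor
    · intro hz
      tauto
    · rintro (rfl | rfl | rfl | h)
      · exact hu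
      · exact hw1
      · exact hw2
      · exact h.1
  have nA : w1 ∉ insert w2 V' := by
    rw [mem_insert]
    tauto
  have nB : u ∉ insert w1 (insert w2 V') := by
    rw [mem_insert, mem_insert]
    tauto
  refine ⟨x', A', ?_, ?_⟩
  · intro v hv w hw hne
    by_cases hvu : v = u
    · subst hvu
      by_cases hww1 : w = w1
      · rw [hww1, mu1]; exact Nat.zero_le _
      · by_cases hww2 : w = w2
        · rw [hww2, mu2]; exact Nat.zero_le _
        · rw [(hrest w hw hww1 hww2).2]; exact Nat.zero_le _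
    · by_cases hwu : w = u
      · subst hwu
        rw [wf.msymm]
        by_cases hww1 : v = w1
        · rw [hww1, mu1]; exact Nat.zero_le _
        · by_cases hww2 : v = w2
          · rw [hww2, mu2]; exact Nat.zero_le _
          · rw [(hrest v hv hww1 hww2).2]; exact Nat.zero_le _
      · by_cases hv12 : v = w1 ∨ v = w2
        · by_cases hw12 : w = w1 ∨ w = w2
          · exfalso
            apply hne
            rcases hv12 with rfl | rfl <;> rcases hw12 with rfl | rfl <;> simp [xw1, xw2]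
          · push Not at hw12
            rw [A1o v w hv12 hwu hw12.1 hw12.2, Ao1 w v hwu hw12.1 hw12.2 hv12]
            have hxv : x' v = x w1 := by
              rcases hv12 with rfl | rfl
              · exact xw1
              · exact xw2
            rw [hxv, xo w hwu hw12.2] at hne
            rw [if_neg (fun h => hne h.symm), wf.msymm v w]
            omega
        · push Not at hv12
          by_cases hw12 : w = w1 ∨ w = w2
          · rw [A1o w v hw12 hvu hv12.1 hv12.2, Ao1 v w hvu hv12.1 hv12.2 hw12]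
            have hxw : x' w = x w1 := by
              rcases hw12 with rfl | rfl
              · exact xw1
              · exact xw2
            rw [hxw, xo v hvu hv12.2] at hne
            rw [if_neg hne]
            omega
          · push Not at hw12
            rw [Aoo v w hvu hv12.1 hv12.2 hwu hw12.1 hw12.2,
              Aoo w v hwu hw12.1 hw12.2 hvu hv12.1 hv12.2]
            rw [xo v hvu hv12.2, xo w hwu hw12.2] at hne
            have := hcol.cov v (hVm v hv hvu hv12.2) w (hVm w hw hwu hw12.2) hne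
            rw [mg_m2 hv12.1 hw12.1] at this
            exact this
  · intro v hv
    have hex : load G x' A' G.V v = ((if x' v = x' u then G.h v u else 0) + A' v u)
        + (((if x' v = x' w1 then G.h v w1 else 0) + A' v w1)
        + (((if x' v = x' w2 then G.h v w2 else 0) + A' v w2)
        + ∑ w ∈ V', ((if x' v = x' w then G.h v w else 0) + A' v w))) := by
      unfold load
      rw [hVe2, sum_insert nB, sum_insert nA, sum_insert nw2]
    have hex1 : ∀ v, load (G.mg u w1 w2) x A (G.mg u w1 w2).V v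
        = ((if x v = x w1 then (G.mg u w1 w2).h v w1 else 0) + A v w1)
        + ∑ w ∈ V', ((if x v = x w then (G.mg u w1 w2).h v w else 0) + A v w) := by
      intro v
      unfold load
      rw [hVeq, sum_insert nw1]
    rw [hex]
    by_cases hvu : v = u
    · -- the net
      subst hvu
      have z1 : x' v ≠ x' w1 := by rw [xu, xw1]; cases x w1 <;> simp
      have z2 : x' v ≠ x' w2 := by rw [xu, xw2]; cases x w1 <;> simp
      have z3 : ∑ w ∈ V', ((if x' v = x' w then G.h v w else 0) + A' v w) = 0 := by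
        refine sum_eq_zero fun w hw => ?_
        have hw' := (mV' w).1 hw
        rw [Auv, (hrest w hw'.1 hw'.2.2.1 hw'.2.2.2).1]
        simp
      rw [z3, if_neg z1, if_neg z2, Auv, Auv, Auv, wf.hirr]
      have : (if x' v = x' v then 0 else 0) = 0 := by simp
      rw [this]
      unfold thr
      split_ifs <;> omega
    · by_cases hv12 : v = w1 ∨ v = w2
      · -- the merged vertices
        have hxv : x' v = x w1 := by
          rcases hv12 with rfl | rfl
          · exact xw1
          · exact xw2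
        have z1 : x' v ≠ x' u := by rw [xu, hxv]; cases x w1 <;> simp
        have z2 : A' v w1 = 0 := A11 v w1 hv12 (Or.inl rfl)
        have z3 : A' v w2 = 0 := A11 v w2 hv12 (Or.inr rfl)
        have z4 : ∑ w ∈ V', ((if x' v = x' w then G.h v w else 0) + A' v w)
            ≤ ∑ w ∈ V', ((if x w1 = x w then (G.mg u w1 w2).h w1 w else 0) + A w1 w) := by
          refine sum_le_sum fun w hw => ?_
          have hw' := (mV' w).1 hw
          rw [A1o v w hv12 hw'.2.1 hw'.2.2.1 hw'.2.2.2, hxv, xo w hw'.2.1 hw'.2.2.2,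
            mg_h1 hw'.2.2.1]
          refine Nat.add_le_add_right ?_ _
          split_ifs
          · rcases h01 wf w1 w with h | h <;> rcases h01 wf w2 w with h' | h' <;>
              rcases hv12 with rfl | rfl <;> simp [h, h']
          · exact Nat.zero_le _
        have hcap := hcol.cap w1 (hVm w1 hw1 hu1.symm h12)
        rw [hex1, mg_h0] at hcap
        have z5 : (if x' v = x' w1 then G.h v w1 else 0) + (if x' v = x' w2 then G.h v w2 else 0)
            ≤ G.h w1 w2 := by
          rw [hxv, xw1, xw2, if_pos rfl, if_pos rfl]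
          rcases hv12 with rfl | rfl
          · rw [wf.hirr]; omega
          · rw [wf.hirr, wf.hsymm]; omega
        rw [if_neg z1, Avu, z2, z3]
        have z6 : thr (G.mg u w1 w2) (x w1) w1 + (if 1 ≤ thr (G.mg u w1 w2) (x w1) w1 then
            G.h w1 w2 else 0) ≤ thr G (x' v) v := by
          rw [hxv]
          unfold thr
          rw [mg_t1, mg_s1]
          have h12le : G.h w1 w2 ≤ 1 := wf.hle _ _
          rcases hv12 with rfl | rfl
          · split_ifs <;> omega
          · split_ifs <;> omega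
        rw [if_pos (by omega)] at z6
        omega
      · -- the other vertices
        push Not at hv12
        have hxv : x' v = x v := xo v hvu hv12.2
        have z1 : G.h v u = 0 := by
          rw [wf.hsymm]
          exact (hrest v hv hv12.1 hv12.2).1
        have z4 : ∑ w ∈ V', ((if x' v = x' w then G.h v w else 0) + A' v w)
            = ∑ w ∈ V', ((if x v = x w then (G.mg u w1 w2).h v w else 0) + A v w) := by
          refine sum_congr rfl fun w hw => ?_
          have hw' := (mV' w).1 hw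
          rw [Aoo v w hvu hv12.1 hv12.2 hw'.2.1 hw'.2.2.1 hw'.2.2.2, hxv,
            xo w hw'.2.1 hw'.2.2.2, mg_h2 hv12.1 hw'.2.2.1]
        have hcap := hcol.cap v (hVm v hv hvu hv12.2)
        rw [hex1, mg_h1' hv12.1] at hcap
        have z5 : (if x' v = x' u then G.h v u else 0) = 0 := by
          rw [z1]
          simp
        rw [z5, Avu, z4, hxv, xw1, xw2, Ao1 v w1 hvu hv12.1 hv12.2 (Or.inl rfl),
          Ao1 v w2 hvu hv12.1 hv12.2 (Or.inr rfl)]
        have z6 : thr (G.mg u w1 w2) (x v) v + (if 1 ≤ thr (G.mg u w1 w2) (x v) v then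
            G.h w1 v * G.h w2 v else 0) ≤ thr G (x v) v := by
          unfold thr
          rw [mg_t2 hv12.1, mg_s2 hv12.1]
          generalize G.h w1 v * G.h w2 v = c
          split_ifs <;> omega
        rw [if_pos (by omega)] at z6
        have hs1 : G.h v w1 = G.h w1 v := wf.hsymm _ _
        have hs2 : G.h v w2 = G.h w2 v := wf.hsymm _ _
        have ms1 : G.m v w1 = G.m w1 v := wf.msymm _ _
        have ms2 : G.m v w2 = G.m w2 v := wf.msymm _ _
        rw [hs1, hs2, ms1, ms2]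
        by_cases hx : x v = x w1
        · simp only [if_pos hx] at hcap ⊢
          rcases h01 wf w1 v with h | h <;> rcases h01 wf w2 v with h' | h' <;>
            rw [h, h'] at hcap z6 ⊢ <;> simp only [Nat.zero_mul, Nat.mul_zero, Nat.one_mul,
              Nat.mul_one] at hcap z6 <;> omega
        · simp only [if_neg hx] at hcap ⊢
          have hcv := cov1 v hv hvu hv12.1 hv12.2 hx
          omega

end Pool.Agent.Lib.MP_4006b4_co_c
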