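import Mathlib
import Pool.Agent.Lib.MP_4006b4_co_c.Aux5

/-!
# There is no net without ordinary edges (piece D)
-/

open Finset

namespace Pool.Agent.Lib.MP_4006b4_co_c

section

variable {G : Str}

/-- Gluing a vertex without ordinary edges; all its links are paid by the other ends. -/
theorem glue_link {v : ℕ} (hv : v ∈ G.V) (hirr : G.m v v = 0) (hh : ∀ w ∈ G.V, G.h v w = 0)
    (hh' : ∀ w ∈ G.V, G.h w v = 0) (hms : ∀ w, G.m w v = G.m v w)
    {x : ℕ → Bool} {A : ℕ → ℕ → ℕ} {c : Bool} (hc : 1 ≤ thr G c v)
    (hcov : ∀ p ∈ G.V.erase v, ∀ q ∈ G.V.erase v, x p ≠ x q → G.m p q ≤ A p q + A q p)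
    (hcap : ∀ w ∈ G.V.erase v, load G x A (G.V.erase v) w + 1
      + (if x w = c then 0 else G.m v w) ≤ thr G (x w) w) : Colorable G := by
  classical
  obtain ⟨y, hy⟩ : ∃ y : ℕ → Bool, y = fun w => if w = v then c else x w := ⟨_, rfl⟩
  obtain ⟨B, hB⟩ : ∃ B : ℕ → ℕ → ℕ, B = fun p q => if p = v then 0 else
    if q = v then (if x p = c then 0 else G.m v p) else A p q := ⟨_, rfl⟩
  have hyv : y v = c := by rw [hy]; exact if_pos rfl
  have hyw : ∀ w, w ≠ v → y w = x w := fun w hw => by rw [hy]; exact if_neg hw
  have hB1 : ∀ q, B v q = 0 := fun q => by rw [hB]; exact if_pos rfl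
  have hB2 : ∀ p, p ≠ v → B p v = if x p = c then 0 else G.m v p := fun p hp => by
    rw [hB]
    show (if p = v then 0 else if v = v then (if x p = c then 0 else G.m v p) else A p v) = _
    rw [if_neg hp, if_pos rfl]
  have hB3 : ∀ p q, p ≠ v → q ≠ v → B p q = A p q := fun p q hp hq => by
    rw [hB]
    show (if p = v then 0 else if q = v then (if x p = c then 0 else G.m v p) else A p q) = _
    rw [if_neg hp, if_neg hq]
  refine ⟨y, B, ?_, ?_⟩
  · intro p hp q hq hne
    by_cases hpv : p = v
    · subst hpv
      by_cases hqv : q = p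
      · subst hqv
        exact absurd rfl hne
      · rw [hB1, hB2 q hqv]
        rw [hyv, hyw q hqv] at hne
        rw [if_neg (Ne.symm hne)]
        omega
    · by_cases hqv : q = v
      · subst hqv
        rw [hB1, hB2 p hpv]
        rw [hyv, hyw p hpv] at hne
        rw [if_neg hne, hms]
        omega
      · rw [hB3 p q hpv hqv, hB3 q p hqv hpv]
        rw [hyw p hpv, hyw q hqv] at hne
        exact hcov p (mem_erase.2 ⟨hpv, hp⟩) q (mem_erase.2 ⟨hqv, hq⟩) hne
  · intro w hw
    by_cases hwv : w = v
    · subst hwv
      have h0 : load G y B G.V w = 0 := by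
        unfold load
        refine sum_eq_zero fun q hq => ?_
        rw [hB1, hh q hq]
        split_ifs <;> rfl
      rw [h0, hyv]
      omega
    · have h1 : load G y B G.V w = load G x A (G.V.erase v) w
          + (if x w = c then 0 else G.m v w) := by
        unfold load
        rw [← add_sum_erase _ _ hv, hB2 w hwv, hh' w hw]
        have h2 : ∑ q ∈ G.V.erase v, ((if y w = y q then G.h w q else 0) + B w q)
            = ∑ q ∈ G.V.erase v, ((if x w = x q then G.h w q else 0) + A w q) := by
          refine sum_congr rfl fun q hq => ?_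
          have hqv := ne_of_mem_erase hq
          rw [hyw w hwv, hyw q hqv, hB3 w q hwv hqv]
        rw [h2]
        split_ifs <;> omega
      have h3 := hcap w (mem_erase.2 ⟨hwv, hw⟩)
      rw [h1, hyw w hwv]
      omega

/-- Auxiliary: the two link neighbours are in different states and `y` pays for the extra link. -/
theorem netm_aux {v y z : ℕ} (hv : v ∈ G.V) (wf : G.WF 5 3) (hh : ∀ w ∈ G.V, G.h v w = 0)
    (hc : ∀ c, 1 ≤ thr G c v) (hy : y ∈ G.V.erase v) (hz : z ∈ G.V.erase v) (hyz : y ≠ z)
    (hmy : G.m v y = 1) (hm0 : ∀ w ∈ G.V, w ≠ y → w ≠ z → G.m v w = 0)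
    {x : ℕ → Bool} {A : ℕ → ℕ → ℕ}
    (hcov : ∀ p ∈ G.V.erase v, ∀ q ∈ G.V.erase v, x p ≠ x q →
      G.m p q + dl y z p q ≤ A p q + A q p)
    (hcap : ∀ w ∈ G.V.erase v, load G x A (G.V.erase v) w + 1 ≤ thr G (x w) w)
    (hxyz : x y ≠ x z) (hA : 1 ≤ A y z) : Colorable G := by
  classical
  refine glue_link hv (wf.mirr v) hh (fun w hw => by rw [wf.hsymm]; exact hh w hw)
    (fun w => wf.msymm w v) (c := x z) (x := x)
    (A := fun p q => A p q - if p = y ∧ q = z then 1 else 0) (hc _) ?_ ?_
  · intro p hp q hq hne
    have h1 := hcov p hp q hq hne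
    show G.m p q ≤ (A p q - if p = y ∧ q = z then 1 else 0)
      + (A q p - if q = y ∧ p = z then 1 else 0)
    by_cases h2 : p = y ∧ q = z
    · obtain ⟨rfl, rfl⟩ := h2
      rw [dl_pq] at h1
      rw [if_pos ⟨rfl, rfl⟩, if_neg (fun h => hyz h.1.symm)]
      omega
    · by_cases h3 : q = y ∧ p = z
      · obtain ⟨rfl, rfl⟩ := h3
        rw [dl_symm, dl_pq] at h1
        rw [if_neg h2, if_pos ⟨rfl, rfl⟩]
        omega
      · rw [if_neg h2, if_neg h3]
        omega
  · intro w hw
    have h1 := hcap w hw
    by_cases hwy : w = y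
    · subst hwy
      have h2 : load G x (fun p q => A p q - if p = w ∧ q = z then 1 else 0) (G.V.erase v) w + 1
          = load G x A (G.V.erase v) w := by
        unfold load
        rw [← add_sum_erase _ _ hz, ← add_sum_erase (G.V.erase v)
          (fun q => (if x w = x q then G.h w q else 0) + A w q) hz]
        have h3 : ∑ q ∈ (G.V.erase v).erase z, ((if x w = x q then G.h w q else 0)
            + (A w q - if w = w ∧ q = z then 1 else 0))
            = ∑ q ∈ (G.V.erase v).erase z, ((if x w = x q then G.h w q else 0) + A w q) := by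
          refine sum_congr rfl fun q hq => ?_
          have h9 : (if w = w ∧ q = z then 1 else 0) = 0 :=
            if_neg (fun h => (ne_of_mem_erase hq) h.2)
          rw [h9, Nat.sub_zero]
        have h4 : (A w z - if w = w ∧ z = z then 1 else 0) + 1 = A w z := by
          rw [if_pos ⟨rfl, rfl⟩]
          omega
        show (if x w = x z then G.h w z else 0) + (A w z - if w = w ∧ z = z then 1 else 0)
          + ∑ q ∈ (G.V.erase v).erase z, ((if x w = x q then G.h w q else 0)
            + (A w q - if w = w ∧ q = z then 1 else 0)) + 1 = _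
        rw [h3]
        omega
      rw [if_neg hxyz, hmy]
      omega
    · have h2 : load G x (fun p q => A p q - if p = y ∧ q = z then 1 else 0) (G.V.erase v) w
          = load G x A (G.V.erase v) w := by
        unfold load
        refine sum_congr rfl fun q _ => ?_
        have h9 : (if w = y ∧ q = z then 1 else 0) = 0 := if_neg (fun h => hwy h.1)
        show (if x w = x q then G.h w q else 0) + (A w q - if w = y ∧ q = z then 1 else 0) = _
        rw [h9, Nat.sub_zero]
      rw [h2]
      by_cases hwz : w = z
      · subst hwz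
        rw [if_pos rfl]
        omega
      · rw [hm0 w (mem_of_mem_erase hw) hwy hwz]
        split_ifs <;> omega

/-- There is no net without ordinary edges. -/
theorem MinCE.nolinknet (M : MinCE 5 3 G) {v : ℕ} (hv : v ∈ G.V) (ht : G.t v = 1)
    (hs : G.s v = 1) (hh : ∀ w ∈ G.V, G.h v w = 0) : False := by
  classical
  have hc : ∀ c, 1 ≤ thr G c v := by
    intro c
    unfold thr
    split_ifs <;> omega
  have hV1 : G.V.erase v ⊆ G.V := erase_subset _ _
  have hV2 : G.V.erase v ≠ G.V := fun h => by
    have := h.symm ▸ hv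
    exact notMem_erase v G.V this
  -- at most two links
  have hN : nn G v (G.V.erase v) ≤ 2 := by
    have hcol : IsCol (G.res {v}) (fun _ => true) (fun _ _ => 0) := by
      refine ⟨?_, ?_⟩
      · intro p hp q hq hne
        exact absurd rfl hne
      · intro w hw
        have hw' : w = v := mem_singleton.1 hw
        subst hw'
        have : load (G.res {w}) (fun _ => true) (fun _ _ => 0) (G.res {w}).V w = 0 := by
          unfold load
          show ∑ q ∈ ({w} : Finset ℕ), ((if true = true then G.h w q else 0) + 0) = 0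
          rw [sum_singleton, M.wf.hirr]
          rfl
        rw [this]
        have := hc true
        unfold thr at this ⊢
        exact this
    obtain ⟨S, hS, hSne, hr⟩ := M.ext (singleton_subset_iff.2 hv) (singleton_nonempty v) hcol
    have hu : {v} ∪ S = G.V := by
      by_contra hcon
      have h1 := M.pr3 (S := {v} ∪ S) (union_subset (singleton_subset_iff.2 hv)
        (hS.trans sdiff_subset)) (hSne.mono subset_union_right) hcon
      have h2 := rho_sing (G := G) v
      rw [ht, hs] at h2
      have h3 : (0 : ℤ) ≤ (n1 G (fun _ => true) {v} S : ℤ) := Int.natCast_nonneg _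
      push_cast at hr h2
      linarith
    have hSe : S = G.V.erase v := by
      ext w
      rw [mem_erase]
      constructor
      · intro hw
        have h1 := mem_sdiff.1 (hS hw)
        exact ⟨fun h => h1.2 (mem_singleton.2 h), h1.1⟩
      · rintro ⟨h1, h2⟩
        rw [← hu, mem_union, mem_singleton] at h2
        tauto
    have h2 := rho_sing (G := G) v
    rw [ht, hs] at h2
    have h4 : nn G v S ≤ n1 G (fun _ => true) {v} S := by
      have := out_le_n1 (G := G) (x := fun _ => true) (T := {v}) (mem_singleton_self v) rfl S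
      omega
    have h5 := M.pos2 (Subset.refl _) M.Vne
    rw [hu] at hr
    rw [← hSe]
    have h6 : (nn G v S : ℤ) ≤ (n1 G (fun _ => true) {v} S : ℤ) := by exact_mod_cast h4
    push_cast at hr h2
    have h7 : (nn G v S : ℤ) ≤ 2 := by linarith
    exact_mod_cast h7
  by_cases hone : ∃ y, ∀ w ∈ G.V.erase v, w ≠ y → G.m v w = 0
  · -- at most one neighbour
    obtain ⟨y, hy⟩ := hone
    obtain ⟨x, A, hcol⟩ := M.colres hV1 hV2
    refine M.nc (glue_link hv (M.wf.mirr v) hh (fun w hw => by rw [M.wf.hsymm]; exact hh w hw)
      (fun w => M.wf.msymm w v) (c := x y) (x := x) (A := A) (hc _) hcol.cov ?_)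
    intro w hw
    have h1 : load G x A (G.V.erase v) w + 1 ≤ thr G (x w) w := hcol.cap w hw
    by_cases hwy : w = y
    · subst hwy
      rw [if_pos rfl]
      omega
    · rw [hy w hw hwy]
      split_ifs <;> omega
  · push Not at hone
    obtain ⟨y, hy, _, hmy⟩ := hone v
    obtain ⟨z, hz, hzy, hmz⟩ := hone y
    have hyz : y ≠ z := Ne.symm hzy
    have hsum : nn G v (G.V.erase v) = G.m v y + (G.m v z
        + ∑ w ∈ ((G.V.erase v).erase y).erase z, G.m v w) := by
      unfold nn
      rw [← add_sum_erase _ _ hy, ← add_sum_erase _ _ (mem_erase.2 ⟨hzy, hz⟩)]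
    have hmy1 : G.m v y = 1 := by omega
    have hmz1 : G.m v z = 1 := by omega
    have hrest : ∑ w ∈ ((G.V.erase v).erase y).erase z, G.m v w = 0 := by omega
    rw [sum_eq_zero_iff] at hrest
    have hm0 : ∀ w ∈ G.V, w ≠ y → w ≠ z → G.m v w = 0 := by
      intro w hw h1 h2
      by_cases hwv : w = v
      · rw [hwv]
        exact M.wf.mirr v
      · exact hrest w (mem_erase.2 ⟨h2, mem_erase.2 ⟨h1, mem_erase.2 ⟨hwv, hw⟩⟩⟩)
    obtain ⟨K, hK⟩ : ∃ K : Str, K = ⟨G.V.erase v, G.h, fun p q => G.m p q + dl y z p q,
      G.t, G.s⟩ := ⟨_, rfl⟩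
    have hKV : K.V = G.V.erase v := by rw [hK]
    have hKh : K.h = G.h := by rw [hK]
    have hKm : ∀ p q, K.m p q = G.m p q + dl y z p q := fun p q => by rw [hK]
    have hKt : K.t = G.t := by rw [hK]
    have hKs : K.s = G.s := by rw [hK]
    have wfK : K.WF 5 3 := by
      refine ⟨?_, ?_, ?_, ?_, ?_, ?_, ?_⟩
      · intro p q
        rw [hKh]
        exact M.wf.hsymm p q
      · intro p q
        rw [hKm, hKm, M.wf.msymm p q, dl_symm]
      · intro p
        rw [hKh]
        exact M.wf.hirr p
      · intro p
        rw [hKm, M.wf.mirr, dl_zero]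
        rintro (⟨rfl, h⟩ | ⟨rfl, h⟩)
        · exact hyz h
        · exact hyz h.symm
      · intro p q
        rw [hKh]
        exact M.wf.hle p q
      · intro p hp q hq h
        rw [hKV] at hp hq
        rw [hKh] at h
        rw [hKt]
        exact M.wf.tb p (hV1 hp) q (hV1 hq) h
      · intro p hp q hq h
        rw [hKV] at hp hq
        rw [hKh] at h
        rw [hKs]
        exact M.wf.sb p (hV1 hp) q (hV1 hq) h
    have hKc : Colorable K := by
      refine M.ihv K wfK ?_ ?_ ?_
      · intro S hS hSne
        rw [hKV] at hS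
        have hr : rho 5 3 K S = rho 5 3 G S - (∑ w ∈ S, (0 : ℤ))
            + if y ∈ S ∧ z ∈ S then ((3 : ℕ) : ℤ) * (((5 : ℕ) : ℤ) - 1) * 0
              + ((5 : ℕ) : ℤ) * (-1) else 0 := by
          refine rho_mod (G := G) (G' := K) hyz S 0 (-1) (fun _ => 0) ?_ ?_ ?_
          · intro p _ q _
            rw [hKh]
            ring
          · intro p _ q _
            rw [hKm]
            push_cast
            ring
          · intro p _
            unfold rv
            rw [hKt, hKs]
            ring
        rw [sum_const_zero] at hr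
        by_cases hb : y ∈ S ∧ z ∈ S
        · rw [if_pos hb] at hr
          have hvS : v ∉ S := fun h => notMem_erase v G.V (hS h)
          have h1 := rho_ins M.wf hvS
          have h2 : kk G v S = 0 := by
            unfold kk
            exact sum_eq_zero fun w hw => hh w (hV1 (hS hw))
          have h3 : 2 ≤ nn G v S := by
            unfold nn
            rw [← add_sum_erase _ _ hb.1, ← add_sum_erase _ _ (mem_erase.2 ⟨hzy, hb.2⟩)]
            omega
          have h3' : (2 : ℤ) ≤ (nn G v S : ℤ) := by exact_mod_cast h3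
          rw [ht, hs, h2] at h1
          have h4 := M.pos2 (S := insert v S) (insert_subset hv (hS.trans hV1))
            (insert_nonempty _ _)
          push_cast at h1 hr
          linarith
        · rw [if_neg hb] at hr
          have := M.pos2 (hS.trans hV1) hSne
          linarith
      · exact hc_mono (G := G) (G' := K) (by rw [hKV]; exact hV1)
          (fun p _ q _ => by rw [hKh])
      · rw [hKV]
        exact card_erase_lt_of_mem hv
    obtain ⟨x, A, hcol⟩ := hKc
    have hcov : ∀ p ∈ G.V.erase v, ∀ q ∈ G.V.erase v, x p ≠ x q →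
        G.m p q + dl y z p q ≤ A p q + A q p := by
      intro p hp q hq hne
      have := hcol.cov p (by rw [hKV]; exact hp) q (by rw [hKV]; exact hq) hne
      rw [hKm] at this
      exact this
    have hcap : ∀ w ∈ G.V.erase v, load G x A (G.V.erase v) w + 1 ≤ thr G (x w) w := by
      intro w hw
      have := hcol.cap w (by rw [hKV]; exact hw)
      have h1 : load K x A K.V w = load G x A (G.V.erase v) w := by
        unfold load
        rw [hKV, hKh]
      have h2 : thr K (x w) w = thr G (x w) w := by
        unfold thr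
        rw [hKt, hKs]
      rw [h1, h2] at this
      exact this
    by_cases hxyz : x y = x z
    · refine M.nc (glue_link hv (M.wf.mirr v) hh (fun w hw => by rw [M.wf.hsymm]; exact hh w hw)
        (fun w => M.wf.msymm w v) (c := x y) (x := x) (A := A) (hc _)
        (fun p hp q hq hne => (Nat.le_add_right _ _).trans (hcov p hp q hq hne)) ?_)
      intro w hw
      have h1 := hcap w hw
      by_cases hwy : x w = x y
      · rw [if_pos hwy]
        omega
      · rw [if_neg hwy, hm0 w (hV1 hw) (fun h => hwy (by rw [h])) (fun h => hwy (by rw [h, hxyz]))]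
        omega
    · have h1 := hcov y hy z hz hxyz
      rw [dl_pq] at h1
      by_cases hA : 1 ≤ A y z
      · exact M.nc (netm_aux hv M.wf hh hc hy hz hyz hmy1 hm0 hcov hcap hxyz hA)
      · refine M.nc (netm_aux hv M.wf hh hc hz hy hzy hmz1
          (fun w hw h1 h2 => hm0 w hw h2 h1) (fun p hp q hq hne => ?_) hcap
          (Ne.symm hxyz) (by omega))
        have h2 := hcov p hp q hq hne
        have h3 : dl z y p q = dl y z p q := by
          unfold dl
          by_cases h : (p = z ∧ q = y) ∨ (p = y ∧ q = z)
          · rw [if_pos h, if_pos (by tauto)]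
          · rw [if_neg h, if_neg (by tauto)]
        rw [h3]
        exact h2

end

end Pool.Agent.Lib.MP_4006b4_co_c
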