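import Mathlib
import Pool.Agent.Lib.MP_4006b4_co_c.Aux5

/-!
# A vertex has at most one net as an ordinary neighbour (piece D)
-/

open Finset

namespace Pool.Agent.Lib.MP_4006b4_co_c

section

variable {G : Str}

/-- No vertex is joined by ordinary edges to two nets. -/
theorem MinCE.twonets (M : MinCE 5 3 G) {x u u' : ℕ} (hx : x ∈ G.V) (hu : u ∈ G.V)
    (hu' : u' ∈ G.V) (huu : u ≠ u') (h1 : G.h x u ≠ 0) (h2 : G.h x u' ≠ 0)
    (ht : G.t u = 1) (hs : G.s u = 1) (ht' : G.t u' = 1) (hs' : G.s u' = 1) : False := by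
  classical
  have hxu : x ≠ u := fun h => h1 (by rw [h]; exact M.wf.hirr u)
  have hxu' : x ≠ u' := fun h => h2 (by rw [h]; exact M.wf.hirr u')
  have hle : 1 ≤ G.h x u' := Nat.one_le_iff_ne_zero.2 h2
  obtain ⟨G1, hG1⟩ : ∃ G1 : Str, G1 = G.rem x u' 1 0 G.t G.s := ⟨_, rfl⟩
  have wf1 : G1.WF 5 3 := by
    rw [hG1]
    exact rem_wf M.wf (fun _ => le_rfl) (fun _ => le_rfl)
  have hV1 : G1.V = G.V := by rw [hG1]; rfl
  have hm1 : ∀ p q, G1.m p q = G.m p q := fun p q => by
    rw [hG1]
    show G.m p q - 0 * dl x u' p q = _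
    rw [zero_mul]
    rfl
  have hh1 : ∀ p q, G1.h p q = G.h p q - dl x u' p q := fun p q => by
    rw [hG1]
    show G.h p q - 1 * dl x u' p q = _
    rw [one_mul]
  have ht1 : G1.t = G.t := by rw [hG1]; rfl
  have hs1 : G1.s = G.s := by rw [hG1]; rfl
  obtain ⟨K, hK⟩ : ∃ K : Str, K = ⟨G1.V, G1.h, fun p q => G1.m p q + dl u u' p q,
    G1.t, G1.s⟩ := ⟨_, rfl⟩
  have hKV : K.V = G1.V := by rw [hK]
  have hKh : K.h = G1.h := by rw [hK]
  have hKm : ∀ p q, K.m p q = G1.m p q + dl u u' p q := fun p q => by rw [hK]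
  have hKt : K.t = G1.t := by rw [hK]
  have hKs : K.s = G1.s := by rw [hK]
  have wfK : K.WF 5 3 := by
    refine ⟨?_, ?_, ?_, ?_, ?_, ?_, ?_⟩
    · intro p q
      rw [hKh]
      exact wf1.hsymm p q
    · intro p q
      rw [hKm, hKm, wf1.msymm p q, dl_symm]
    · intro p
      rw [hKh]
      exact wf1.hirr p
    · intro p
      rw [hKm, wf1.mirr, dl_zero]
      rintro (⟨rfl, h⟩ | ⟨rfl, h⟩)
      · exact huu h
      · exact huu h.symm
    · intro p q
      rw [hKh]
      exact wf1.hle p q
    · intro p hp q hq h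
      rw [hKV] at hp hq
      rw [hKh] at h
      rw [hKt]
      exact wf1.tb p hp q hq h
    · intro p hp q hq h
      rw [hKV] at hp hq
      rw [hKh] at h
      rw [hKs]
      exact wf1.sb p hp q hq h
  have hKc : Colorable K := by
    refine M.ih K wfK ?_ ?_
    · intro S hS hSne
      rw [hKV, hV1] at hS
      have hr : rho 5 3 K S = rho 5 3 G1 S - (∑ w ∈ S, (0 : ℤ))
          + if u ∈ S ∧ u' ∈ S then ((3 : ℕ) : ℤ) * (((5 : ℕ) : ℤ) - 1) * 0
            + ((5 : ℕ) : ℤ) * (-1) else 0 := by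
        refine rho_mod (G := G1) (G' := K) huu S 0 (-1) (fun _ => 0) ?_ ?_ ?_
        · intro p _ q _
          rw [hKh]
          ring
        · intro p _ q _
          rw [hKm]
          push_cast
          ring
        · intro p _
          unfold rv
          rw [hKt, hKs]
          ring
      rw [sum_const_zero] at hr
      have hr1 := rem_rho (a := 5) (b := 3) (dm := 0) M.wf hxu' hle (Nat.zero_le _) G.t G.s S
      rw [← hG1, sum_same, sum_same] at hr1
      have h5 := M.pos2 hS hSne
      push_cast at hr hr1 ⊢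
      by_cases hb : u ∈ S ∧ u' ∈ S
      · rw [if_pos hb] at hr
        by_cases hxS : x ∈ S
        · rw [if_pos ⟨hxS, hb.2⟩] at hr1
          linarith
        · rw [if_neg (fun h => hxS h.1)] at hr1
          have h6 := M.pr3 hS hSne (fun h => hxS (h ▸ hx))
          linarith
      · rw [if_neg hb] at hr
        by_cases hxS : x ∈ S ∧ u' ∈ S
        · rw [if_pos hxS] at hr1
          linarith
        · rw [if_neg hxS] at hr1
          linarith
    · left
      have h3 := hc_rem_lt (dm := 0) hx hu' h2 G.t G.s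
      rw [← hG1] at h3
      have h4 : hc K = hc G1 := by
        unfold hc
        rw [hKV, hKh]
      rw [h4]
      exact h3
  obtain ⟨y, B, hcol⟩ := hKc
  have huK : u ∈ K.V := by rw [hKV, hV1]; exact hu
  have huK' : u' ∈ K.V := by rw [hKV, hV1]; exact hu'
  have hxK : x ∈ K.V := by rw [hKV, hV1]; exact hx
  have hthr : ∀ c v, thr K c v = thr G c v := by
    intro c v
    unfold thr
    rw [hKt, hKs, ht1, hs1]
  have hl0 : ∀ v, v ∈ K.V → G.t v = 1 → G.s v = 1 → ∀ w ∈ K.V,
      (if y v = y w then K.h v w else 0) = 0 ∧ B v w = 0 := by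
    intro v hv h3 h4 w hw
    have h5 := hcol.cap v hv
    have h6 : thr K (y v) v = 1 := by
      rw [hthr]
      unfold thr
      split_ifs <;> assumption
    have h7 : load K y B K.V v = 0 := by omega
    unfold load at h7
    rw [sum_eq_zero_iff] at h7
    have h8 := h7 w hw
    exact ⟨by omega, by omega⟩
  have hyuu : y u = y u' := by
    by_contra hne
    have h3 := hcol.cov u huK u' huK' hne
    rw [(hl0 u huK ht hs u' huK').2, (hl0 u' huK' ht' hs' u huK).2, hKm, dl_pq] at h3
    omega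
  have hyux : y u ≠ y x := by
    intro h
    have h3 := (hl0 u huK ht hs x hxK).1
    rw [if_pos h, hKh, hh1, dl_zero, M.wf.hsymm u x] at h3
    · exact h1 (by simpa using h3)
    · rintro (⟨h, _⟩ | ⟨h, _⟩)
      · exact hxu h.symm
      · exact huu h
  refine M.nc ⟨y, B, ?_, ?_⟩
  · intro p hp q hq hne
    have h3 := hcol.cov p (by rw [hKV, hV1]; exact hp) q (by rw [hKV, hV1]; exact hq) hne
    rw [hKm, hm1] at h3
    omega
  · intro w hw
    have h3 := hcol.cap w (by rw [hKV, hV1]; exact hw)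
    have h4 := load_le_rem (G := G) hxu' 1 0 G.t G.s y B G.V w
    rw [if_neg (fun h => hyux (by rw [hyuu]; exact h.1.symm)), add_zero, ← hG1] at h4
    have h5 : load K y B K.V w = load G1 y B G.V w := by
      unfold load
      rw [hKV, hV1, hKh]
    rw [hthr, h5] at h3
    omega

end

end Pool.Agent.Lib.MP_4006b4_co_c
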