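import Mathlib
import Pool.Agent.Lib.MP_4006b4_co_c.ExtS
import Pool.Agent.Lib.MP_4006b4_co_c.Clause2
import Pool.Agent.Lib.MP_4006b4_co_c.End
import Pool.Agent.Lib.MP_4006b4_co_c.NetM
import Pool.Agent.Lib.MP_4006b4_co_c.NetX
import Pool.Agent.Lib.MP_4006b4_co_c.Merge

/-!
# The soft world (piece A): 1.1, 1.2 (assembled), 1.3, 1.4
-/

open Finset

namespace Pool.Agent.Lib.MP_4006b4_co_c

section

variable {G : Str}

/-- There is an edge. -/
theorem MinCE.hasH (M : MinCE 5 3 G) : ∃ p ∈ G.V, ∃ q ∈ G.V, G.h p q ≠ 0 := by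
  by_contra hcon
  push Not at hcon
  refine M.nc ⟨fun _ => true, fun _ _ => 0, fun _ _ _ _ hne => absurd rfl hne, ?_⟩
  intro v hv
  have h1 : load G (fun _ => true) (fun _ _ => 0) G.V v = 0 := by
    unfold load
    refine sum_eq_zero fun w hw => ?_
    rw [if_pos rfl, hcon v hv w hw]
    rfl
  rw [h1]
  exact M.tpos par53 hv

/-- Colouring the last vertex. -/
theorem last_col (wf : G.WF 5 3) {v : ℕ} (hv : v ∈ G.V) {x : ℕ → Bool} {A : ℕ → ℕ → ℕ}
    (hc : IsCol (G.res (G.V.erase v)) x A) (c : Bool)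
    (hcap : 1 ≤ thr (G.ctr (G.V.erase v) x) c v) : Colorable G := by
  have hV : (G.ctr (G.V.erase v) x).V = {v} := by
    show G.V \ G.V.erase v = {v}
    ext w
    rw [mem_sdiff, mem_erase, mem_singleton]
    constructor
    · rintro ⟨h1, h2⟩
      by_contra h
      exact h2 ⟨h, h1⟩
    · rintro rfl
      exact ⟨hv, fun h => h.1 rfl⟩
  have hy : IsCol (G.ctr (G.V.erase v) x) (fun _ => c) (fun _ _ => 0) := by
    refine ⟨fun _ _ _ _ hne => absurd rfl hne, ?_⟩
    intro w hw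
    rw [hV, mem_singleton] at hw
    subst hw
    have h1 : load (G.ctr (G.V.erase w) x) (fun _ => c) (fun _ _ => 0)
        (G.ctr (G.V.erase w) x).V w = 0 := by
      unfold load
      rw [hV, sum_singleton, if_pos rfl]
      show G.h w w + 0 = 0
      rw [wf.hirr]
    rw [h1]
    exact hcap
  obtain ⟨x', A', h, _⟩ := comb wf (erase_subset v G.V) hc hy
  exact ⟨x', A', h⟩

/-- No `(1, 1)` vertices. -/
theorem MinCE.nonet (M : MinCE 5 3 G) {u : ℕ} (hu : u ∈ G.V) : ¬ (G.t u = 1 ∧ G.s u = 1) := by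
  rintro ⟨ht, hs⟩
  by_cases hH : ∀ w ∈ G.V, G.h u w = 0
  · exact M.nolinknet hu ht hs hH
  push Not at hH
  obtain ⟨w1, hw1, h1⟩ := hH
  by_cases hm : ∃ y ∈ G.V, G.m u y ≠ 0
  · obtain ⟨y, hy, hm⟩ := hm
    exact M.e4 par53 hu hw1 hy h1 hm ht hs
  push Not at hm
  by_cases h2 : ∃ w2 ∈ G.V, w2 ≠ w1 ∧ G.h u w2 ≠ 0
  · obtain ⟨w2, hw2, hne, h2⟩ := h2
    refine M.merge hu hw1 hw2 (Ne.symm hne) h1 h2 ht hs ?_
    intro y hy hyw hty hsy
    by_contra hyu
    rcases hyw with h3 | h3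
    · exact M.twonets hw1 hu hy (Ne.symm hyu) (by rw [M.wf.hsymm]; exact h1)
        (by rw [M.wf.hsymm]; exact h3) ht hs hty hsy
    · exact M.twonets hw2 hu hy (Ne.symm hyu) (by rw [M.wf.hsymm]; exact h2)
        (by rw [M.wf.hsymm]; exact h3) ht hs hty hsy
  push Not at h2
  have hVne : G.V.erase u ≠ G.V := fun h => (notMem_erase u G.V) (by rw [h]; exact hu)
  obtain ⟨x, A, hc⟩ := M.colres (erase_subset u G.V) hVne
  refine M.nc (last_col M.wf hu hc (!x w1) ?_)
  have hz : ∀ v ∈ G.V.erase u, v ≠ w1 → G.h v u = 0 := by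
    intro v hv hne
    rw [M.wf.hsymm]
    exact h2 v (mem_of_mem_erase hv) hne
  have hzm : ∀ v ∈ G.V.erase u, G.m v u = 0 := by
    intro v hv
    rw [M.wf.msymm]
    exact hm v (mem_of_mem_erase hv)
  cases hx : x w1
  · show 1 ≤ (G.ctr (G.V.erase u) x).t u
    have e1 : (∑ v ∈ G.V.erase u, if x v then G.h v u else 0) = 0 := by
      refine sum_eq_zero fun v hv => ?_
      by_cases hvw : v = w1
      · rw [hvw, hx]
        rfl
      · rw [hz v hv hvw]
        split_ifs <;> rfl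
    rw [ctr_t_pos e1]
    have e2 : (∑ v ∈ G.V.erase u, if x v then 0 else G.m v u) = 0 := by
      refine sum_eq_zero fun v hv => ?_
      rw [hzm v hv]
      split_ifs <;> rfl
    rw [e2, ht]
  · show 1 ≤ (G.ctr (G.V.erase u) x).s u
    have e1 : (∑ v ∈ G.V.erase u, if x v then 0 else G.h v u) = 0 := by
      refine sum_eq_zero fun v hv => ?_
      by_cases hvw : v = w1
      · rw [hvw, hx]
        rfl
      · rw [hz v hv hvw]
        split_ifs <;> rfl
    rw [ctr_s_pos e1]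
    have e2 : (∑ v ∈ G.V.erase u, if x v then G.m v u else 0) = 0 := by
      refine sum_eq_zero fun v hv => ?_
      rw [hzm v hv]
      split_ifs <;> rfl
    rw [e2, hs]

/-- Vertices with an edge have first threshold 2. -/
theorem MinCE.t2 (M : MinCE 5 3 G) {u w : ℕ} (hu : u ∈ G.V) (hw : w ∈ G.V) (hh : G.h u w ≠ 0) :
    G.t u = 2 := by
  have h1 := M.tpos par53 hu
  have h2 := M.wf.tb u hu w hw hh
  by_contra h3
  have h4 : G.t u = 1 := by omega
  exact M.nonet hu ⟨h4, M.e1 par53 hu hw (by norm_num) hh h4⟩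

theorem MinCE.s4 (M : MinCE 5 3 G) {u w : ℕ} (hu : u ∈ G.V) (hw : w ∈ G.V) (hh : G.h u w ≠ 0) :
    G.s u ≤ 4 := by
  have := M.wf.sb u hu w hw hh
  omega

theorem MinCE.noH (M : MinCE 5 3 G) {T : Finset ℕ} (hT : T ⊆ G.V) (hne : T.Nonempty)
    (hTV : T ≠ G.V) (hsm : rho 5 3 G T ≤ 5)
    (hH : (∃ p ∈ G.V, ∃ q ∈ G.V, ¬ (p ∈ T ∧ q ∈ T) ∧ G.h p q ≠ 0) ∨ 2 ≤ #(G.V \ T)) : False := by
  have h1 := M.anti2 par53 hT hne hTV (by push_cast; exact hsm) hH
  obtain ⟨v, hv⟩ := M.bd_ne par53 hT hne hTV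
  exact M.nonet (hT (mem_bd.1 hv).1) (M.e0 par53 hT (by push_cast; exact hsm) h1 hv)

/-- A small set is the complement of a vertex. -/
theorem MinCE.small (M : MinCE 5 3 G) {T : Finset ℕ} (hT : T ⊆ G.V) (hne : T.Nonempty)
    (hTV : T ≠ G.V) (hsm : rho 5 3 G T ≤ 5) : ∃ v ∈ G.V, T = G.V.erase v := by
  have h1 : ¬ 2 ≤ #(G.V \ T) := fun h => M.noH hT hne hTV hsm (Or.inr h)
  have h2 : (G.V \ T).Nonempty := by
    by_contra h
    rw [not_nonempty_iff_eq_empty, sdiff_eq_empty_iff_subset] at h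
    exact hTV (Subset.antisymm hT h)
  have h3 : #(G.V \ T) = 1 := by
    have := card_pos.2 h2
    omega
  obtain ⟨v, hv⟩ := card_eq_one.1 h3
  have hvm : v ∈ G.V \ T := by rw [hv]; exact mem_singleton_self v
  refine ⟨v, (mem_sdiff.1 hvm).1, ?_⟩
  ext w
  rw [mem_erase]
  constructor
  · intro hw
    exact ⟨fun h => (mem_sdiff.1 hvm).2 (h ▸ hw), hT hw⟩
  · rintro ⟨h4, h5⟩
    by_contra h6
    have : w ∈ G.V \ T := mem_sdiff.2 ⟨h5, h6⟩
    rw [hv, mem_singleton] at this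
    exact h4 this

/-- Facts on exceptional vertices. -/
theorem MinCE.exc (M : MinCE 5 3 G) {v : ℕ} (hv : v ∈ G.V)
    (hsm : rho 5 3 G (G.V.erase v) ≤ 5) :
    (∀ w ∈ G.V, G.h v w = 0) ∧ (G.s v = 1 ∨ G.s v = 2) ∧
    G.t v + G.s v = nn G v G.V ∧ (∀ y ∈ G.V, G.m y v ≤ G.s v) ∧
    (1 + 2 * (G.s v : ℤ) ≤ rho 5 3 G (G.V.erase v)) ∧
    (∀ x A, IsCol (G.res (G.V.erase v)) x A →
      (∑ y ∈ G.V.erase v, if x y then G.m y v else 0) = G.s v ∧
      ∀ y ∈ G.V.erase v, G.m y v ≠ 0 → load G x A (G.V.erase v) y + 1 = thr G (x y) y) := by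
  classical
  have hT : G.V.erase v ⊆ G.V := erase_subset v G.V
  have hvT : v ∉ G.V.erase v := notMem_erase v G.V
  have hTV : G.V.erase v ≠ G.V := fun h => hvT (by rw [h]; exact hv)
  have hne : (G.V.erase v).Nonempty := by
    rw [nonempty_iff_ne_empty]
    intro h
    refine M.single (v := v) ?_
    rw [← insert_erase hv, h]
    simp
  have hsd : G.V \ G.V.erase v = {v} := by
    ext w
    rw [mem_sdiff, mem_erase, mem_singleton]
    constructor
    · rintro ⟨h1, h2⟩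
      by_contra h
      exact h2 ⟨h, h1⟩
    · rintro rfl
      exact ⟨hv, fun h => h.1 rfl⟩
  have hsm' : rho ((5 : ℕ)) 3 G (G.V.erase v) ≤ ((5 : ℕ) : ℤ) := by push_cast; exact hsm
  -- no edges at `v`
  have hh : ∀ w ∈ G.V, G.h v w = 0 := by
    intro w hw
    by_contra h
    exact M.noH hT hne hTV hsm (Or.inl ⟨v, hv, w, hw, fun h => hvT h.1, h⟩)
  have hh' : ∀ w ∈ G.V.erase v, G.h w v = 0 := by
    intro w hw
    rw [M.wf.hsymm]
    exact hh w (hT hw)
  -- number of link ends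
  have hN : nn G v G.V = ∑ y ∈ G.V.erase v, G.m y v := by
    unfold nn
    have e1 : ∑ r ∈ insert v (G.V.erase v), G.m v r = G.m v v + ∑ r ∈ G.V.erase v, G.m v r :=
      sum_insert hvT
    rw [insert_erase hv] at e1
    rw [e1, M.wf.mirr, zero_add]
    exact sum_congr rfl fun y _ => M.wf.msymm v y
  have hsplit : ∀ x : ℕ → Bool, (∑ y ∈ G.V.erase v, if x y then G.m y v else 0)
      + (∑ y ∈ G.V.erase v, if x y then 0 else G.m y v) = nn G v G.V := by
    intro x
    rw [hN, ← sum_add_distrib]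
    refine sum_congr rfl fun y _ => ?_
    split_ifs <;> simp
  have hrho := rho_ins M.wf (G := G) (w := v) hvT
  rw [insert_erase hv] at hrho
  have hkk : kk G v (G.V.erase v) = 0 := by
    unfold kk
    exact sum_eq_zero fun w hw => hh w (hT hw)
  have hnn : nn G v (G.V.erase v) = nn G v G.V := by
    rw [hN]
    unfold nn
    exact sum_congr rfl fun y _ => M.wf.msymm v y
  rw [hkk, hnn] at hrho
  have hposV := M.pos2 (Subset.refl G.V) ⟨v, hv⟩
  have hspos := M.spos par53 hv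
  -- the main count
  have key : ∀ x A, IsCol (G.res (G.V.erase v)) x A →
      (∑ y ∈ G.V.erase v, if x y then G.m y v else 0) = G.s v ∧
      G.t v + G.s v = nn G v G.V ∧ G.s v ≤ 2 := by
    intro x A hc
    obtain ⟨j, hj⟩ : ∃ j, j = ∑ y ∈ G.V.erase v, if x y then G.m y v else 0 := ⟨_, rfl⟩
    have hsp := hsplit x
    rw [← hj] at hsp ⊢
    have h1 : G.s v ≤ j := by
      by_contra hcon
      refine M.nc (last_col M.wf hv hc false ?_)
      show 1 ≤ (G.ctr (G.V.erase v) x).s v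
      have e1 : (∑ y ∈ G.V.erase v, if x y then 0 else G.h y v) = 0 := by
        refine sum_eq_zero fun y hy => ?_
        rw [hh' y hy]
        split_ifs <;> rfl
      rw [ctr_s_pos e1, ← hj]
      omega
    have h2 : G.t v + j ≤ nn G v G.V := by
      by_contra hcon
      refine M.nc (last_col M.wf hv hc true ?_)
      show 1 ≤ (G.ctr (G.V.erase v) x).t v
      have e1 : (∑ y ∈ G.V.erase v, if x y then G.h y v else 0) = 0 := by
        refine sum_eq_zero fun y hy => ?_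
        rw [hh' y hy]
        split_ifs <;> rfl
      rw [ctr_t_pos e1]
      omega
    have h3 := M.n1le par53 hT hne hsm' hc
    have h4 : n1 G x (G.V.erase v) (G.V \ G.V.erase v) = j := by
      unfold n1
      rw [hsd, hj]
      refine sum_congr rfl fun y hy => ?_
      rw [sum_singleton, hh' y hy, zero_add]
    rw [h4] at h3
    push_cast at h3
    have h5 : (G.t v : ℤ) + j ≤ (nn G v G.V : ℤ) := by exact_mod_cast h2
    have h6 : (G.s v : ℤ) ≤ j := by exact_mod_cast h1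
    have h7 : (1 : ℤ) ≤ G.s v := by exact_mod_cast hspos
    push_cast at hrho
    have h8 : (j : ℤ) ≤ 2 := by linarith
    have h9 : 5 * (nn G v G.V : ℤ) ≤ 5 * G.t v + 3 * G.s v + 4 := by linarith
    have h10 : (j : ℤ) = G.s v := by omega
    have h11 : (G.t v : ℤ) + G.s v = nn G v G.V := by omega
    refine ⟨by exact_mod_cast h10, by exact_mod_cast h11, by omega⟩
  obtain ⟨x0, A0, hc0⟩ := M.colres hT hTV
  obtain ⟨k1, k2, k3⟩ := key x0 A0 hc0
  refine ⟨hh, by omega, k2, ?_, ?_, ?_⟩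
  · intro y hy
    by_cases hm : G.m y v = 0
    · rw [hm]
      exact Nat.zero_le _
    have hyv : y ≠ v := fun h => hm (by rw [h]; exact M.wf.mirr v)
    have hyT : y ∈ G.V.erase v := mem_erase.2 ⟨hyv, hy⟩
    obtain ⟨x, A, hc, hx⟩ := M.both par53 hT hTV hsm' (v0 := y)
      (mem_bd.2 ⟨hyT, v, by rw [hsd]; exact mem_singleton_self v, by omega⟩) true
    rw [← (key x A hc).1]
    have h1 : (if x y then G.m y v else 0) ≤ ∑ y ∈ G.V.erase v, if x y then G.m y v else 0 :=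
      single_le_sum (f := fun y => if x y then G.m y v else 0) (fun _ _ => Nat.zero_le _) hyT
    rw [hx] at h1
    simpa using h1
  · have h11 : (G.t v : ℤ) + G.s v = nn G v G.V := by exact_mod_cast k2
    push_cast at hrho
    linarith
  · intro x A hc
    refine ⟨(key x A hc).1, ?_⟩
    intro y hy hm
    exact M.sat par53 hT hsm' hc
      (mem_bd.2 ⟨hy, v, by rw [hsd]; exact mem_singleton_self v, by omega⟩)

/-- No small set separates the ends of an edge. -/
theorem MinCE.sep6 (M : MinCE 5 3 G) {T : Finset ℕ} {u w : ℕ} (hT : T ⊆ G.V) (hu : u ∈ T)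
    (hw : w ∈ G.V) (hwT : w ∉ T) (hh : G.h u w ≠ 0) : 6 ≤ rho 5 3 G T := by
  by_contra hcon
  have hTV : T ≠ G.V := fun h => hwT (h ▸ hw)
  obtain ⟨v, hv, hTe⟩ := M.small hT ⟨u, hu⟩ hTV (by omega)
  have hwv : w = v := by
    by_contra hne
    exact hwT (hTe ▸ mem_erase.2 ⟨hne, hw⟩)
  have h1 := (M.exc hv (by rw [← hTe]; omega)).1 u (hT hu)
  rw [M.wf.hsymm, ← hwv] at h1
  exact hh h1

end

end Pool.Agent.Lib.MP_4006b4_co_c
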