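import Mathlib
import Pool.Agent.Lib.MP_4006b4_co_c.Soft

/-!
# Separators, part 1 (1.6, 1.7)
-/

open Finset

namespace Pool.Agent.Lib.MP_4006b4_co_c

section

variable {G : Str}

/-- Extending a colouring of `V - w` to `w`; all links at `w` are charged to `w`. -/
theorem extend_vertex (wf : G.WF 5 3) {w : ℕ} (hw : w ∈ G.V) {x : ℕ → Bool} {A : ℕ → ℕ → ℕ}
    (hc : IsCol (G.res (G.V.erase w)) x A) (c : Bool)
    (hcap : ∀ v ∈ G.V.erase w, x v = c → G.h v w ≠ 0 →
      load G x A (G.V.erase w) v + 2 ≤ thr G (x v) v)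
    (hw' : (∑ v ∈ G.V.erase w, (if x v = c then G.h w v else G.m w v)) + 1 ≤ thr G c w) :
    Colorable G := by
  classical
  refine ⟨fun v => if v = w then c else x v,
    fun v z => if v = w then (if z = w then 0 else (if x z = c then 0 else G.m w z))
      else (if z = w then 0 else A v z), ?_, ?_⟩
  · intro v hv z hz hne
    by_cases hvw : v = w
    · by_cases hzw : z = w
      · subst hvw
        subst hzw
        exact absurd rfl hne
      · subst hvw
        have hne' : x z ≠ c := by
          intro h
          apply hne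
          simp only [if_pos, if_neg hzw, h]
        simp only [if_true, if_neg hzw, if_neg hne']
        exact Nat.le_add_right _ _
    · by_cases hzw : z = w
      · subst hzw
        have hne' : x v ≠ c := by
          intro h
          apply hne
          simp only [if_true, if_neg hvw, h]
        simp only [if_true, if_neg hvw, if_neg hne']
        rw [wf.msymm v z]
        exact Nat.le_add_left _ _
      · simp only [if_neg hvw, if_neg hzw] at hne ⊢
        exact hc.cov v (mem_erase.2 ⟨hvw, hv⟩) z (mem_erase.2 ⟨hzw, hz⟩) hne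
  · intro v hv
    by_cases hvw : v = w
    · subst hvw
      have e : load G (fun z => if z = v then c else x z)
          (fun y z => if y = v then (if z = v then 0 else (if x z = c then 0 else G.m v z))
            else (if z = v then 0 else A y z)) G.V v
          = ∑ z ∈ G.V.erase v, (if x z = c then G.h v z else G.m v z) := by
        unfold load
        rw [← add_sum_erase _ _ hv]
        have h0 : ((if (if v = v then c else x v) = (if v = v then c else x v) then G.h v v else 0)
            + if v = v then (if v = v then 0 else (if x v = c then 0 else G.m v v))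
            else (if v = v then 0 else A v v)) = 0 := by
          simp [wf.hirr v]
        rw [h0, zero_add]
        refine sum_congr rfl fun z hz => ?_
        have hzv : z ≠ v := (mem_erase.1 hz).1
        simp only [if_true, if_neg hzv]
        by_cases hx : x z = c
        · rw [if_pos hx.symm, if_pos hx, if_pos hx, add_zero]
        · rw [if_neg (Ne.symm hx), if_neg hx, if_neg hx, zero_add]
      rw [e]
      simp only [if_true]
      exact hw'
    · have hv' : v ∈ G.V.erase w := mem_erase.2 ⟨hvw, hv⟩
      have e : load G (fun z => if z = w then c else x z)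
          (fun y z => if y = w then (if z = w then 0 else (if x z = c then 0 else G.m w z))
            else (if z = w then 0 else A y z)) G.V v
          = (if x v = c then G.h v w else 0) + load G x A (G.V.erase w) v := by
        unfold load
        rw [← add_sum_erase _ _ hw]
        congr 1
        · simp only [if_true, if_neg hvw, add_zero]
        · refine sum_congr rfl fun z hz => ?_
          have hzw : z ≠ w := (mem_erase.1 hz).1
          simp only [if_neg hvw, if_neg hzw]
      rw [e]
      simp only [if_neg hvw]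
      have h1 : load G x A (G.V.erase w) v + 1 ≤ thr G (x v) v := hc.cap v hv'
      by_cases hx : x v = c
      · rw [if_pos hx]
        by_cases hvh : G.h v w = 0
        · rw [hvh]
          omega
        · have h2 := hcap v hv' hx hvh
          have h3 := wf.hle v w
          omega
      · rw [if_neg hx]
        omega

theorem kk_erase_self (wf : G.WF 5 3) {w : ℕ} (hw : w ∈ G.V) :
    kk G w (G.V.erase w) = kk G w G.V := by
  unfold kk
  rw [← add_sum_erase _ _ hw, wf.hirr w, zero_add]

theorem nn_erase_self (wf : G.WF 5 3) {w : ℕ} (hw : w ∈ G.V) :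
    nn G w (G.V.erase w) = nn G w G.V := by
  unfold nn
  rw [← add_sum_erase _ _ hw, wf.mirr w, zero_add]

theorem adj_ne (wf : G.WF 5 3) {w u : ℕ} (hh : G.h w u ≠ 0) : u ≠ w := by
  intro h
  subst h
  exact hh (wf.hirr u)

/-- 1.6. [`T - e1(u) - e2(u)` is colourable by `sep6` (cost 8); use the spare of `u` on `uw`
(`ext1`): a violator containing `w` gives `rho T ≥ -2 + 7 + 3`, one not containing `w` separates
(`sep6`) and gives `rho T ≥ 6 + 3`.] -/
theorem MinCE.sep8 (M : MinCE 5 3 G) {T : Finset ℕ} {u w : ℕ} (hT : T ⊆ G.V) (hu : u ∈ T)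
    (hw : w ∈ G.V) (hwT : w ∉ T) (hh : G.h u w ≠ 0) : 8 ≤ rho 5 3 G T := by
  have hTV : T ≠ G.V := fun h => hwT (h ▸ hw)
  have hcol : Colorable (G.sub T (dec G.t u) (dec G.s u)) := by
    by_contra hn
    obtain ⟨S, hS, hne, hr⟩ := M.sub hT hTV (dec_le _ _) (dec_le _ _) hn
    have h1 := sum_dec_le (f := G.t) (u := u) S (c := ((5 : ℕ) : ℤ)) (by norm_num)
    have h2 := sum_dec_le (f := G.s) (u := u) S (c := ((3 : ℕ) : ℤ)) (by norm_num)
    have h3 := M.pos2 (hS.trans hT) hne
    by_cases huS : u ∈ S
    · have h4 := M.sep6 (hS.trans hT) huS hw (fun h => hwT (hS h)) hh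
      rw [if_pos huS] at h1 h2
      push_cast at h1 h2 hr
      linarith
    · rw [if_neg huS] at h1 h2
      push_cast at h1 h2 hr
      linarith
  obtain ⟨x, A, hc⟩ := hcol
  have hc' : IsCol (G.res T) x A :=
    IsCol.mono (G := G.sub T (dec G.t u) (dec G.s u)) (G' := G.res T) (fun _ h => h)
      (fun _ _ _ _ => le_rfl) (fun _ _ _ _ => le_rfl) (fun v _ => dec_le _ _ v)
      (fun v _ => dec_le _ _ v) hc
  have hsp : load G x A T u + 2 ≤ thr G (x u) u := by
    have h1 : load G x A T u + 1 ≤ thr (G.sub T (dec G.t u) (dec G.s u)) (x u) u := hc.cap u hu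
    cases hx : x u
    · rw [hx, thr_false] at h1
      rw [thr_false]
      have h2 : (G.sub T (dec G.t u) (dec G.s u)).s u = G.s u - 1 := dec_self _ _
      omega
    · rw [hx, thr_true] at h1
      rw [thr_true]
      have h2 : (G.sub T (dec G.t u) (dec G.s u)).t u = G.t u - 1 := dec_self _ _
      omega
  have hwVT : w ∈ G.V \ T := mem_sdiff.2 ⟨hw, hwT⟩
  obtain ⟨S, hS, hne, hr⟩ := ext1 M.wf M.ihv M.nc hT hc' (v0 := u) (r0 := w) (dh := 1) (dm := 0)
    hu hwVT (Nat.one_le_iff_ne_zero.2 hh) (Nat.zero_le _) rfl hsp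
  have hTS : T ∪ S ⊆ G.V := union_subset hT (hS.trans sdiff_subset)
  have hTSne : (T ∪ S).Nonempty := ⟨u, mem_union_left _ hu⟩
  have hn1 : (0 : ℤ) ≤ (n1 G x T S : ℤ) := Int.natCast_nonneg _
  by_cases hwS : w ∈ S
  · rw [if_pos hwS] at hr
    have h1 := M.pos2 hTS hTSne
    cases hx : x u
    · rw [hx] at hr
      simp only [gain] at hr
      push_cast at hr
      linarith
    · rw [hx] at hr
      simp only [gain] at hr
      push_cast at hr
      have h2 := out_le_n1 (G := G) hu hx S
      have h3 := kk_pos (G := G) (w := u) hwS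
      have h4 : (1 : ℤ) ≤ (n1 G x T S : ℤ) := by
        have : 1 ≤ n1 G x T S := by omega
        exact_mod_cast this
      linarith
  · rw [if_neg hwS] at hr
    have hwTS : w ∉ T ∪ S := by
      rw [mem_union]
      tauto
    have h1 := M.sep6 hTS (mem_union_left _ hu) hw hwTS hh
    linarith

/-- 1.7 (third part): `k = 1` forces `N ≥ s + 1`. [Else `V - w` with both thresholds of the only
`H`-neighbour `u` of `w` lowered (cost 8 on sets with `u`, which separate, `sep8`) is colourable and
every colouring extends to `w`: if `w = 2` fails then `[u = 2] + j ≥ s` (`j` = link ends of `w` in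
state 1), and `w = 1` has load `[u = 1] + N - j ≤ 1`.] -/
theorem MinCE.k1 (M : MinCE 5 3 G) {w u : ℕ} (hw : w ∈ G.V) (hu : u ∈ G.V) (hh : G.h w u ≠ 0)
    (hk : kk G w G.V = 1) : G.s w + 1 ≤ nn G w G.V := by
  by_contra hcon
  have huw : u ≠ w := adj_ne M.wf hh
  have huE : u ∈ G.V.erase w := mem_erase.2 ⟨huw, hu⟩
  have hh' : G.h u w ≠ 0 := by rwa [M.wf.hsymm]
  have hTV : G.V.erase w ≠ G.V := fun h => (mem_erase.1 (by rw [h]; exact hw : w ∈ G.V.erase w)).1 rfl
  have hT : G.V.erase w ⊆ G.V := erase_subset _ _
  have hwT : w ∉ G.V.erase w := fun h => (mem_erase.1 h).1 rfl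
  have hcol : Colorable (G.sub (G.V.erase w) (dec G.t u) (dec G.s u)) := by
    by_contra hn
    obtain ⟨S, hS, hne, hr⟩ := M.sub hT hTV (dec_le _ _) (dec_le _ _) hn
    have h1 := sum_dec_le (f := G.t) (u := u) S (c := ((5 : ℕ) : ℤ)) (by norm_num)
    have h2 := sum_dec_le (f := G.s) (u := u) S (c := ((3 : ℕ) : ℤ)) (by norm_num)
    have h3 := M.pos2 (hS.trans hT) hne
    by_cases huS : u ∈ S
    · have h4 := M.sep6 (hS.trans hT) huS hw (fun h => hwT (hS h)) hh'
      rw [if_pos huS] at h1 h2
      push_cast at h1 h2 hr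
      linarith
    · rw [if_neg huS] at h1 h2
      push_cast at h1 h2 hr
      linarith
  obtain ⟨x, A, hc⟩ := hcol
  have hc' : IsCol (G.res (G.V.erase w)) x A :=
    IsCol.mono (G := G.sub (G.V.erase w) (dec G.t u) (dec G.s u)) (G' := G.res (G.V.erase w))
      (fun _ h => h)
      (fun _ _ _ _ => le_rfl) (fun _ _ _ _ => le_rfl) (fun v _ => dec_le _ _ v)
      (fun v _ => dec_le _ _ v) hc
  have hsp : load G x A (G.V.erase w) u + 2 ≤ thr G (x u) u := by
    have h1 : load G x A (G.V.erase w) u + 1
        ≤ thr (G.sub (G.V.erase w) (dec G.t u) (dec G.s u)) (x u) u := hc.cap u huE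
    cases hx : x u
    · rw [hx, thr_false] at h1
      rw [thr_false]
      have h2 : (G.sub (G.V.erase w) (dec G.t u) (dec G.s u)).s u = G.s u - 1 := dec_self _ _
      omega
    · rw [hx, thr_true] at h1
      rw [thr_true]
      have h2 : (G.sub (G.V.erase w) (dec G.t u) (dec G.s u)).t u = G.t u - 1 := dec_self _ _
      omega
  -- `u` is the only neighbour
  have hhu : G.h w u = 1 := by
    have := M.wf.hle w u
    omega
  have hother : ∀ v ∈ G.V.erase w, v ≠ u → G.h w v = 0 := by
    intro v hv hvu
    have h1 : kk G w G.V = G.h w u + kk G w (G.V.erase u) := by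
      unfold kk
      rw [add_sum_erase _ _ hu]
    have h2 := kk_pos (G := G) (w := w) (mem_erase.2 ⟨hvu, (mem_erase.1 hv).2⟩)
    omega
  have hcap : ∀ c : Bool, ∀ v ∈ G.V.erase w, x v = c → G.h v w ≠ 0 →
      load G x A (G.V.erase w) v + 2 ≤ thr G (x v) v := by
    intro c v hv _ hvw
    by_cases hvu : v = u
    · subst hvu
      exact hsp
    · exact absurd (by rw [M.wf.hsymm]; exact hother v hv hvu) hvw
  have hN : nn G w (G.V.erase w) ≤ G.s w := by
    rw [nn_erase_self M.wf hw]
    omega
  have ht2 : G.t w = 2 := M.t2 hw hu hh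
  -- the link ends of `w`
  obtain ⟨j, hj⟩ : ∃ j, j = ∑ v ∈ G.V.erase w, (if x v = true then G.m w v else 0) := ⟨_, rfl⟩
  obtain ⟨j', hj'⟩ : ∃ j, j = ∑ v ∈ G.V.erase w, (if x v = false then G.m w v else 0) := ⟨_, rfl⟩
  have hjj : j + j' = nn G w (G.V.erase w) := by
    rw [hj, hj']
    unfold nn
    rw [← sum_add_distrib]
    refine sum_congr rfl fun v _ => ?_
    cases x v <;> simp
  have hsum : ∀ c : Bool, ∑ v ∈ G.V.erase w, (if x v = c then G.h w v else G.m w v)
      = (if x u = c then 1 else 0) + ∑ v ∈ G.V.erase w, (if x v = c then 0 else G.m w v) := by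
    intro c
    have e1 : ∀ v ∈ G.V.erase w, (if x v = c then G.h w v else G.m w v)
        = (if x v = c then G.h w v else 0) + (if x v = c then 0 else G.m w v) := by
      intro v _
      split_ifs <;> simp
    rw [sum_congr rfl e1, sum_add_distrib]
    congr 1
    rw [← add_sum_erase _ _ huE, hhu]
    have e2 : ∑ v ∈ (G.V.erase w).erase u, (if x v = c then G.h w v else 0) = 0 := by
      refine sum_eq_zero fun v hv => ?_
      rw [hother v (mem_erase.1 hv).2 (mem_erase.1 hv).1]
      split_ifs <;> rfl
    rw [e2, add_zero]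
  have hs1 := hsum true
  have hs2 := hsum false
  have e1 : ∑ v ∈ G.V.erase w, (if x v = true then 0 else G.m w v) = j' := by
    rw [hj']
    refine sum_congr rfl fun v _ => ?_
    cases x v <;> simp
  have e2 : ∑ v ∈ G.V.erase w, (if x v = false then 0 else G.m w v) = j := by
    rw [hj]
    refine sum_congr rfl fun v _ => ?_
    cases x v <;> simp
  rw [e1] at hs1
  rw [e2] at hs2
  by_cases hcase : (if x u = false then 1 else 0) + j + 1 ≤ G.s w
  · refine M.nc (extend_vertex M.wf hw hc' false (hcap false) ?_)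
    rw [hs2, thr_false]
    exact hcase
  · refine M.nc (extend_vertex M.wf hw hc' true (hcap true) ?_)
    rw [hs1, thr_true, ht2]
    have h3 : (if x u = true then 1 else 0) + (if x u = false then 1 else 0) = 1 := by
      cases x u <;> simp
    omega

/-- 1.7 (first part). [If `s = 1`: `ext1` with `T = {w}`, `w = 1`, spare on `wu`: `rho {w} = 10`,
a violator without `u` has `rho ≤ 7` (contradiction to `sep8`), so it is `V` and `d ≤ 2`; by `k1`
`k = 2`, `N = 0`; then `V - w` with `t` lowered at both neighbours is colourable (one of them: `8 - 5`;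
both: `rho S ≥ 12`) and every colouring extends.] -/
theorem MinCE.s2 (M : MinCE 5 3 G) {w u : ℕ} (hw : w ∈ G.V) (hu : u ∈ G.V) (hh : G.h w u ≠ 0) :
    2 ≤ G.s w := by
  by_contra hcon
  have hs1 : G.s w = 1 := by
    have := M.spos par53 hw
    omega
  have ht2 : G.t w = 2 := M.t2 hw hu hh
  have huw : u ≠ w := adj_ne M.wf hh
  have huE : u ∈ G.V.erase w := mem_erase.2 ⟨huw, hu⟩
  have hTV : G.V.erase w ≠ G.V := fun h => (mem_erase.1 (by rw [h]; exact hw : w ∈ G.V.erase w)).1 rfl
  have hT : G.V.erase w ⊆ G.V := erase_subset _ _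
  have hwT : w ∉ G.V.erase w := fun h => (mem_erase.1 h).1 rfl
  -- the degree is at most 2
  have hd : kk G w G.V + nn G w G.V ≤ 2 := by
    have hc0 : IsCol (G.res {w}) (fun _ => true) (fun _ _ => 0) := by
      refine ⟨fun v _ z _ hne => absurd rfl hne, ?_⟩
      intro v hv
      have hvw : v = w := mem_singleton.1 hv
      subst hvw
      show load (G.res {v}) (fun _ => true) (fun _ _ => 0) {v} v + 1 ≤ G.t v
      have : load (G.res {v}) (fun _ => true) (fun _ _ => 0) {v} v = 0 := by
        unfold load
        rw [sum_singleton]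
        show (if true = true then G.h v v else 0) + 0 = 0
        rw [M.wf.hirr v]
        rfl
      rw [this, ht2]
      norm_num
    have hsp : load G (fun _ => true) (fun _ _ => 0) {w} w + 2 ≤ thr G true w := by
      have : load G (fun _ => true) (fun _ _ => 0) {w} w = 0 := by
        unfold load
        rw [sum_singleton, M.wf.hirr w]
        rfl
      rw [this, thr_true, ht2]
    have huVT : u ∈ G.V \ {w} := by
      rw [mem_sdiff, mem_singleton]
      exact ⟨hu, huw⟩
    obtain ⟨S, hS, hne, hr⟩ := ext1 M.wf M.ihv M.nc (singleton_subset_iff.2 hw) hc0 (v0 := w)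
      (r0 := u) (dh := 1) (dm := 0) (mem_singleton_self w) huVT (Nat.one_le_iff_ne_zero.2 hh)
      (Nat.zero_le _) rfl hsp
    have hrw : rho 5 3 G {w} = 10 := by
      rw [rho_sing, ht2, hs1]
      norm_num
    rw [hrw] at hr
    have hTS : {w} ∪ S ⊆ G.V := union_subset (singleton_subset_iff.2 hw) (hS.trans sdiff_subset)
    have hTSne : ({w} ∪ S).Nonempty := ⟨w, mem_union_left _ (mem_singleton_self w)⟩
    have hn1 := out_le_n1 (G := G) (x := fun _ => true) (T := {w}) (mem_singleton_self w) rfl S
    by_cases huS : u ∈ S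
    · rw [if_pos huS] at hr
      simp only [gain] at hr
      push_cast at hr
      have h3 := kk_pos (G := G) (w := w) huS
      have h4 : (1 : ℤ) ≤ (n1 G (fun _ => true) {w} S : ℤ) := by
        have : 1 ≤ n1 G (fun _ => true) {w} S := by omega
        exact_mod_cast this
      have hTSV : {w} ∪ S = G.V := by
        by_contra hne'
        have := M.pr3 hTS hTSne hne'
        linarith
      have hSe : S = G.V.erase w := by
        ext v
        rw [mem_erase]
        constructor
        · intro hv
          have := hS hv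
          rw [mem_sdiff, mem_singleton] at this
          exact ⟨this.2, this.1⟩
        · rintro ⟨h1, h2⟩
          rw [← hTSV, mem_union, mem_singleton] at h2
          tauto
      have h5 := M.pos2 hTS hTSne
      rw [hSe, kk_erase_self M.wf hw, nn_erase_self M.wf hw, ← hSe] at hn1
      have h6 : (n1 G (fun _ => true) {w} S : ℤ) ≤ 2 := by linarith
      have h7 : n1 G (fun _ => true) {w} S ≤ 2 := by exact_mod_cast h6
      omega
    · rw [if_neg huS] at hr
      have huTS : u ∉ {w} ∪ S := by
        rw [mem_union, mem_singleton]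
        tauto
      have h1 := M.sep8 hTS (mem_union_left _ (mem_singleton_self w)) hu huTS hh
      have h2 : (0 : ℤ) ≤ (n1 G (fun _ => true) {w} S : ℤ) := Int.natCast_nonneg _
      linarith
  have hk0 : 1 ≤ kk G w G.V := by
    have := kk_pos (G := G) (w := w) hu
    omega
  have hk2 : kk G w G.V = 2 := by
    by_contra hne
    have h1 : kk G w G.V = 1 := by omega
    have h2 := M.k1 hw hu hh h1
    omega
  have hN0 : nn G w G.V = 0 := by omega
  have hm0 : ∀ v ∈ G.V, G.m w v = 0 := by
    intro v hv
    have := nn_pos (G := G) (w := w) hv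
    omega
  -- lower `t` at the neighbours
  let t' : ℕ → ℕ := fun v => if G.h w v = 0 then G.t v else G.t v - 1
  have ht' : ∀ v, t' v ≤ G.t v := by
    intro v
    show (if G.h w v = 0 then G.t v else G.t v - 1) ≤ G.t v
    split_ifs
    · exact le_rfl
    · exact Nat.sub_le _ _
  have hcol : Colorable (G.sub (G.V.erase w) t' G.s) := by
    by_contra hn
    obtain ⟨S, hS, hne, hr⟩ := M.sub hT hTV ht' (fun _ => le_rfl) hn
    rw [sum_same, sub_zero] at hr
    have h3 := M.pos2 (hS.trans hT) hne
    have h1 : ∑ v ∈ S, ((5 : ℕ) : ℤ) * ((G.t v : ℤ) - t' v) ≤ 5 * (kk G w S : ℤ) := by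
      unfold kk
      push_cast
      rw [mul_sum]
      refine sum_le_sum fun v _ => ?_
      show (5 : ℤ) * ((G.t v : ℤ) - ((if G.h w v = 0 then G.t v else G.t v - 1 : ℕ) : ℤ)) ≤ _
      by_cases h0 : G.h w v = 0
      · rw [if_pos h0, h0]
        simp
      · rw [if_neg h0]
        have h4 : (1 : ℤ) ≤ (G.h w v : ℤ) := by exact_mod_cast Nat.one_le_iff_ne_zero.2 h0
        have h5 : (G.t v : ℤ) - 1 ≤ ((G.t v - 1 : ℕ) : ℤ) := by omega
        linarith
    by_cases hk : kk G w S = 0
    · rw [hk] at h1
      push_cast at h1 hr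
      linarith
    · have hex : ∃ v ∈ S, G.h w v ≠ 0 := by
        by_contra hcon'
        push Not at hcon'
        exact hk (sum_eq_zero hcon')
      obtain ⟨v, hv, hvh⟩ := hex
      have hwS : w ∉ S := fun h => hwT (hS h)
      have h8 := M.sep8 (hS.trans hT) hv hw hwS (by rwa [M.wf.hsymm])
      have hkle : kk G w S ≤ 2 := by
        rw [← hk2]
        exact kk_mono w (hS.trans hT)
      have hk12 : kk G w S = 1 ∨ kk G w S = 2 := by omega
      rcases hk12 with hk1 | hk1
      · rw [hk1] at h1
        push_cast at h1 hr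
        linarith
      · have h9 := rho_ins M.wf hwS
        have hnS : nn G w S = 0 := by
          have := nn_mono (G := G) w (hS.trans hT)
          omega
        rw [hk1, hnS, ht2, hs1] at h9
        have h10 := M.pos2 (S := insert w S)
          (insert_subset hw (hS.trans hT)) (insert_nonempty _ _)
        rw [hk1] at h1
        push_cast at h1 hr h9
        linarith
  obtain ⟨x, A, hc⟩ := hcol
  have hc' : IsCol (G.res (G.V.erase w)) x A :=
    IsCol.mono (G := G.sub (G.V.erase w) t' G.s) (G' := G.res (G.V.erase w))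
      (fun _ h => h)
      (fun _ _ _ _ => le_rfl) (fun _ _ _ _ => le_rfl) (fun v _ => ht' v)
      (fun v _ => le_rfl) hc
  have hsum : ∀ c : Bool, ∑ v ∈ G.V.erase w, (if x v = c then G.h w v else G.m w v)
      = ∑ v ∈ G.V.erase w, (if x v = c then G.h w v else 0) := by
    intro c
    refine sum_congr rfl fun v hv => ?_
    rw [hm0 v (mem_erase.1 hv).2]
  have htot : ∑ v ∈ G.V.erase w, (if x v = true then G.h w v else 0)
      + ∑ v ∈ G.V.erase w, (if x v = false then G.h w v else 0) = 2 := by
    rw [← hk2, ← kk_erase_self M.wf hw]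
    unfold kk
    rw [← sum_add_distrib]
    refine sum_congr rfl fun v _ => ?_
    cases x v <;> simp
  by_cases hcase : ∑ v ∈ G.V.erase w, (if x v = true then G.h w v else 0) ≤ 1
  · refine M.nc (extend_vertex M.wf hw hc' true ?_ ?_)
    · intro v hv hxv hvw
      have h1 : load G x A (G.V.erase w) v + 1 ≤ thr (G.sub (G.V.erase w) t' G.s) (x v) v :=
        hc.cap v hv
      rw [hxv, thr_true] at h1
      have h2 : (G.sub (G.V.erase w) t' G.s).t v = G.t v - 1 := by
        show (if G.h w v = 0 then G.t v else G.t v - 1) = G.t v - 1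
        rw [if_neg (by rwa [M.wf.hsymm])]
      rw [hxv, thr_true]
      omega
    · rw [hsum, thr_true, ht2]
      omega
  · have hzero : ∑ v ∈ G.V.erase w, (if x v = false then G.h w v else 0) = 0 := by omega
    refine M.nc (extend_vertex M.wf hw hc' false ?_ ?_)
    · intro v hv hxv hvw
      exfalso
      have h1 := (sum_eq_zero_iff.1 hzero) v hv
      rw [if_pos hxv, M.wf.hsymm] at h1
      exact hvw h1
    · rw [hsum, hzero, thr_false, hs1]

/-- 1.7 (second part), from `sep8` for `V - w`. -/
theorem MinCE.deg (M : MinCE 5 3 G) {w u : ℕ} (hw : w ∈ G.V) (hu : u ∈ G.V) (hh : G.h w u ≠ 0) :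
    15 + 3 * (G.s w : ℤ) - rho 5 3 G G.V ≤ 12 * (kk G w G.V : ℤ) + 5 * (nn G w G.V : ℤ) := by
  have ht2 : G.t w = 2 := M.t2 hw hu hh
  have huw : u ≠ w := adj_ne M.wf hh
  have huE : u ∈ G.V.erase w := mem_erase.2 ⟨huw, hu⟩
  have hwT : w ∉ G.V.erase w := fun h => (mem_erase.1 h).1 rfl
  have h1 := rho_ins M.wf hwT
  rw [insert_erase hw, kk_erase_self M.wf hw, nn_erase_self M.wf hw, ht2] at h1
  have h2 := M.sep8 (erase_subset w G.V) huE hw hwT (by rwa [M.wf.hsymm])
  push_cast at h1
  linarith

end

end Pool.Agent.Lib.MP_4006b4_co_c
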