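import Mathlib
import Pool.Agent.Lib.MP_4006b4_co_c.SepA

/-!
# Separators, part 2 (2.3, 2.4')
-/

open Finset

namespace Pool.Agent.Lib.MP_4006b4_co_c

section

variable {G : Str}

/-- Colouring `T` with reserved units at `w`. -/
theorem MinCE.sep2_subcol (M : MinCE 5 3 G) {T : Finset ℕ} {w : ℕ} (hT : T ⊆ G.V) (hTV : T ≠ G.V)
    (hw : w ∈ T) (s' : ℕ → ℕ) (k : ℕ) (hs' : ∀ v, s' v ≤ G.s v) (hsw : s' w + k ≤ G.s w ∨ s' w = 0)
    (hC : ∀ S : Finset ℕ, ∑ v ∈ S, ((3 : ℕ) : ℤ) * ((G.s v : ℤ) - s' v)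
      ≤ if w ∈ S then 3 * (k : ℤ) else 0)
    (h : ∀ S ⊆ T, w ∈ S → 3 + 3 * (k : ℤ) ≤ rho 5 3 G S) :
    ∃ x A, IsCol (G.res T) x A ∧ (x w = true → load G x A T w + 2 ≤ thr G (x w) w) ∧
      (x w = false → load G x A T w + 1 + k ≤ thr G (x w) w) := by
  have hcol : Colorable (G.sub T (dec G.t w) s') := by
    by_contra hn
    obtain ⟨S, hS, hne, hr⟩ := M.sub hT hTV (dec_le _ _) hs' hn
    have h1 := sum_dec_le (f := G.t) (u := w) S (c := ((5 : ℕ) : ℤ)) (by norm_num)
    have h2 := hC S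
    by_cases hwS : w ∈ S
    · have h3 := h S hS hwS
      rw [if_pos hwS] at h1 h2
      push_cast at *
      linarith
    · have h3 := M.pos2 (hS.trans hT) hne
      rw [if_neg hwS] at h1 h2
      push_cast at *
      linarith
  obtain ⟨x, A, hc⟩ := hcol
  have hcap := hc.cap w hw
  refine ⟨x, A, ⟨hc.cov, ?_⟩, ?_, ?_⟩
  · intro v hv
    refine (hc.cap v hv).trans ?_
    cases x v
    · exact hs' v
    · exact dec_le G.t w v
  · intro hx
    rw [hx] at hcap ⊢
    have h1 : thr (G.sub T (dec G.t w) s') true w = G.t w - 1 := dec_self G.t w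
    have h2 : load (G.sub T (dec G.t w) s') x A (G.sub T (dec G.t w) s').V w
      = load G x A T w := rfl
    rw [h1, h2] at hcap
    rw [thr_true]
    omega
  · intro hx
    rw [hx] at hcap ⊢
    have h1 : thr (G.sub T (dec G.t w) s') false w = s' w := rfl
    have h2 : load (G.sub T (dec G.t w) s') x A (G.sub T (dec G.t w) s').V w
      = load G x A T w := rfl
    rw [h1, h2] at hcap
    rw [thr_false]
    omega

theorem sep2_union_eq_V {T S V : Finset ℕ} (_hT : T ⊆ V) (hS : S ⊆ V \ T) (h : T ∪ S = V) :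
    S = V \ T := by
  refine subset_antisymm hS fun v hv => ?_
  have h1 := mem_sdiff.1 hv
  rw [← h, mem_union] at h1
  tauto

theorem sep2_out_two {w u y : ℕ} {X : Finset ℕ} (hu : u ∈ G.V) (hy : y ∈ G.V) (hne : y ≠ u)
    (huX : u ∉ X) (hyX : y ∉ X) (h1 : G.h w u + G.m w u ≠ 0) (h2 : G.h w y + G.m w y ≠ 0) :
    2 ≤ out G w X := by
  unfold out
  have h3 : ({u, y} : Finset ℕ) ⊆ G.V \ X := by
    intro v hv
    rw [mem_insert, mem_singleton] at hv
    rcases hv with rfl | rfl
    · exact mem_sdiff.2 ⟨hu, huX⟩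
    · exact mem_sdiff.2 ⟨hy, hyX⟩
  have h4 := sum_le_sum_of_subset (f := fun r => G.h w r + G.m w r) h3
  rw [sum_pair hne.symm] at h4
  omega

theorem sep2_out_one {w u : ℕ} {X : Finset ℕ} (hu : u ∈ G.V) (huX : u ∉ X) :
    G.h w u + G.m w u ≤ out G w X := by
  unfold out
  exact single_le_sum (f := fun r => G.h w r + G.m w r) (fun _ _ => Nat.zero_le _)
    (mem_sdiff.2 ⟨hu, huX⟩)

theorem sep2_out_split {w : ℕ} {T S : Finset ℕ} (hS : S ⊆ G.V \ T) :
    out G w T = out G w (T ∪ S) + (kk G w S + nn G w S) := by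
  have h1 : G.V \ (T ∪ S) = (G.V \ T) \ S := by
    ext v
    simp only [mem_sdiff, mem_union]
    tauto
  unfold out kk nn
  rw [h1, ← sum_add_distrib, sum_sdiff hS]

/-- 2.3. [`T - e1(w) - e2(w)` is colourable, spare on `wu`: violator `S` with `u`: state 2:
`rho (T + S) ≤ 9 - 12 < -2`; state 1: `rho (T + S) + 2 n1 + 5 ≤ 6`, `n1 ≥ 1`, so `T + S = V` and
`n1 ≤ 1`; without `u`: `rho (T + S) ≤ 6 < 8`.] -/
theorem MinCE.sep10 (M : MinCE 5 3 G) {T : Finset ℕ} {w u : ℕ} (hT : T ⊆ G.V) (hw : w ∈ T)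
    (hu : u ∈ G.V) (huT : u ∉ T) (hh : G.h w u ≠ 0) (ho : 2 ≤ out G w T) :
    10 ≤ rho 5 3 G T := by
  by_contra hcon
  have hTV : T ≠ G.V := fun h => huT (h ▸ hu)
  obtain ⟨x, A, hc, hx1, hx2⟩ := M.sep2_subcol hT hTV hw (dec G.s w) 1 (dec_le _ _)
    (by rw [dec_self]; omega)
    (fun S => by
      have := sum_dec_le (f := G.s) (u := w) S (c := ((3 : ℕ) : ℤ)) (by norm_num)
      split_ifs at this ⊢ <;> push_cast at * <;> linarith)
    (fun S hS hwS => by
      have := M.sep8 (hS.trans hT) hwS hu (fun h => huT (hS h)) hh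
      push_cast
      linarith)
  have hsp : load G x A T w + 2 ≤ thr G (x w) w := by
    cases hxw : x w
    · have := hx2 hxw
      rw [hxw] at this
      omega
    · have := hx1 hxw
      rw [hxw] at this
      omega
  obtain ⟨S, hS, hne, hr⟩ := ext1 M.wf M.ihv M.nc hT hc (v0 := w) (r0 := u) (dh := 1) (dm := 0) hw
    (mem_sdiff.2 ⟨hu, huT⟩) (Nat.one_le_iff_ne_zero.2 hh) (Nat.zero_le _) rfl hsp
  have hTS : T ∪ S ⊆ G.V := union_subset hT (hS.trans sdiff_subset)
  have hTSne : (T ∪ S).Nonempty := ⟨w, mem_union_left _ hw⟩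
  by_cases huS : u ∈ S
  · rw [if_pos huS] at hr
    have h1 := M.pos2 hTS hTSne
    cases hxw : x w
    · rw [hxw] at hr
      have h2 : gain false 1 = 9 := rfl
      rw [h2] at hr
      linarith
    · rw [hxw] at hr
      have h2 : gain true 1 = 5 := rfl
      rw [h2] at hr
      have h3 := out_le_n1 (G := G) hw hxw S
      by_cases hV : T ∪ S = G.V
      · have h4 := sep2_union_eq_V hT hS hV
        rw [out_eq, ← h4] at ho
        have h5 : (2 : ℤ) ≤ n1 G x T S := by exact_mod_cast ho.trans h3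
        linarith
      · have h4 := M.pr3 hTS hTSne hV
        have h5 := kk_pos (G := G) (w := w) huS
        have h6 : (1 : ℤ) ≤ n1 G x T S := by
          have : 1 ≤ n1 G x T S := by omega
          exact_mod_cast this
        linarith
  · rw [if_neg huS] at hr
    have h1 := M.sep8 hTS (mem_union_left _ hw) hu (fun h => by
      rcases mem_union.1 h with h | h
      · exact huT h
      · exact huS h) hh
    linarith

/-- 2.4'. [By `sep10` all subsets of `T` containing `w` have `rho ≥ 10`, so `T - e1(w) - 2 e2(w)`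
(cost 11) is colourable. `w = 1`, spare on `wu`: `V`: `-2 + 2 n1 + 5 ≤ rho T - 3`, `n1 ≥ out`;
`u ∈ S`, `T + S ≠ V`: `3 + 2 + 5 ≤ 9` false; `u ∉ S`: `rho (T + S) + 2 n1 ≤ 9`, so by `sep10`
`out (T + S) ≤ 1`, `n1 ≥ 2`, `rho (T + S) ≤ 5` false (`sep8`). `w = 2`: two spares (`ext2`), on `wu`
and on a second edge or link `g = wy` leaving `T`: with `u`: `≥ min (-2 + 9 + 5, 3 + 9)`; without `u`,
with `y`: `8 + 5`; without both: `rho (T + S) ≤ 9` and `out (T + S) ≥ 2`, false by `sep10`.] -/
theorem MinCE.sep12 (M : MinCE 5 3 G) {T : Finset ℕ} {w u : ℕ} (hT : T ⊆ G.V) (hw : w ∈ T)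
    (hu : u ∈ G.V) (huT : u ∉ T) (hh : G.h w u ≠ 0) (ho : 3 ≤ out G w T)
    (hr : rho 5 3 G T ≤ 12) : 2 * (out G w T : ℤ) + 6 ≤ rho 5 3 G T := by
  have hTV : T ≠ G.V := fun h => huT (h ▸ hu)
  obtain ⟨x, A, hc, hx1, hx2⟩ := M.sep2_subcol hT hTV hw (dec (dec G.s w) w) 2
    (fun v => (dec_le _ _ _).trans (dec_le _ _ _))
    (by rw [dec_self, dec_self]; omega)
    (fun S => by
      have := sum_dec2_le (f := G.s) (u := w) (w := w) S (c := ((3 : ℕ) : ℤ)) (by norm_num)
      split_ifs at this ⊢ <;> push_cast at * <;> linarith)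
    (fun S hS hwS => by
      have := M.sep10 (hS.trans hT) hwS hu (fun h => huT (hS h)) hh
        ((by omega : 2 ≤ out G w T).trans (out_mono hS))
      push_cast
      linarith)
  have huV : u ∈ G.V \ T := mem_sdiff.2 ⟨hu, huT⟩
  have hh1 : 1 ≤ G.h w u := Nat.one_le_iff_ne_zero.2 hh
  cases hxw : x w
  · -- state 2
    have hsp := hx2 hxw
    -- the second unit
    obtain ⟨y, hy, dh1, dm1, e1, e2, e3, e4⟩ : ∃ y ∈ G.V \ T, ∃ dh1 dm1,
        dh1 + 1 * dl w u w y ≤ G.h w y ∧ dm1 + 0 * dl w u w y ≤ G.m w y ∧ dh1 + dm1 = 1 ∧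
        ∀ X : Finset ℕ, u ∉ X → y ∉ X → 2 ≤ out G w X := by
      by_cases hmu : G.m w u = 0
      · have : ∃ y ∈ G.V \ T, y ≠ u ∧ G.h w y + G.m w y ≠ 0 := by
          by_contra hcon
          push Not at hcon
          have h1 : out G w T = G.h w u + G.m w u := by
            unfold out
            exact sum_eq_single_of_mem u huV fun b hb hbu => hcon b hb hbu
          have h2 := M.wf.hle w u
          omega
        obtain ⟨y, hy, hyu, hym⟩ := this
        have hdl : dl w u w y = 0 := by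
          unfold dl
          rw [if_neg]
          rintro (⟨_, h⟩ | ⟨h, _⟩)
          · exact hyu h
          · exact huT (h ▸ hw)
        have hX : ∀ X : Finset ℕ, u ∉ X → y ∉ X → 2 ≤ out G w X := fun X h1 h2 =>
          sep2_out_two hu (mem_sdiff.1 hy).1 hyu h1 h2 (by omega) hym
        by_cases hhy : G.h w y = 0
        · exact ⟨y, hy, 0, 1, by rw [hdl]; omega, by omega, rfl, hX⟩
        · exact ⟨y, hy, 1, 0, by rw [hdl]; omega, by omega, rfl, hX⟩
      · have hdl : dl w u w u = 1 := by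
          unfold dl
          rw [if_pos (Or.inl ⟨rfl, rfl⟩)]
        exact ⟨u, huV, 0, 1, by rw [hdl]; omega, by omega, rfl, fun X h1 _ =>
          le_trans (by omega) (sep2_out_one hu h1)⟩
    have g1 : (5 : ℤ) ≤ gain false dh1 := by
      have : gain false dh1 = 5 + 4 * (dh1 : ℤ) := rfl
      rw [this]
      have : (0 : ℤ) ≤ dh1 := Int.natCast_nonneg _
      linarith
    obtain ⟨S, hS, hne, hr2⟩ := ext2 M.wf M.ihv M.nc hT hc (v0 := w) (r0 := u) (dh0 := 1)
      (dm0 := 0) (v1 := w) (r1 := y) (dh1 := dh1) (dm1 := dm1) hw huV hh1 (Nat.zero_le _) rfl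
      hw hy e1 e2 e3 (by omega) (by omega) (fun _ => by omega)
    rw [hxw] at hr2
    have g0 : gain false 1 = 9 := rfl
    rw [g0] at hr2
    have hTS : T ∪ S ⊆ G.V := union_subset hT (hS.trans sdiff_subset)
    have hTSne : (T ∪ S).Nonempty := ⟨w, mem_union_left _ hw⟩
    have hn : (0 : ℤ) ≤ n1 G x T S := Int.natCast_nonneg _
    by_cases huS : u ∈ S
    · rw [if_pos huS] at hr2
      by_cases hV : T ∪ S = G.V
      · have h4 := sep2_union_eq_V hT hS hV
        have hyS : y ∈ S := h4 ▸ hy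
        rw [if_pos hyS] at hr2
        have h1 := M.pos2 hTS hTSne
        linarith
      · have h4 := M.pr3 hTS hTSne hV
        split_ifs at hr2 <;> linarith
    · rw [if_neg huS] at hr2
      have huTS : u ∉ T ∪ S := fun h => by
        rcases mem_union.1 h with h | h
        · exact huT h
        · exact huS h
      by_cases hyS : y ∈ S
      · rw [if_pos hyS] at hr2
        have h1 := M.sep8 hTS (mem_union_left _ hw) hu huTS hh
        linarith
      · rw [if_neg hyS] at hr2
        have hyTS : y ∉ T ∪ S := fun h => by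
          rcases mem_union.1 h with h | h
          · exact (mem_sdiff.1 hy).2 h
          · exact hyS h
        have h1 := M.sep10 hTS (mem_union_left _ hw) hu huTS hh (e4 _ huTS hyTS)
        linarith
  · -- state 1
    have hsp := hx1 hxw
    obtain ⟨S, hS, hne, hr2⟩ := ext1 M.wf M.ihv M.nc hT hc (v0 := w) (r0 := u) (dh := 1) (dm := 0)
      hw huV hh1 (Nat.zero_le _) rfl hsp
    rw [hxw] at hr2
    have g0 : gain true 1 = 5 := rfl
    rw [g0] at hr2
    have hTS : T ∪ S ⊆ G.V := union_subset hT (hS.trans sdiff_subset)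
    have hTSne : (T ∪ S).Nonempty := ⟨w, mem_union_left _ hw⟩
    have h3 := out_le_n1 (G := G) hw hxw S
    by_cases huS : u ∈ S
    · rw [if_pos huS] at hr2
      by_cases hV : T ∪ S = G.V
      · have h4 := sep2_union_eq_V hT hS hV
        have h1 := M.pos2 hTS hTSne
        have h5 : (out G w T : ℤ) ≤ n1 G x T S := by
          have : out G w T ≤ n1 G x T S := by
            rw [out_eq, ← h4]
            exact h3
          exact_mod_cast this
        linarith
      · have h4 := M.pr3 hTS hTSne hV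
        have h5 := kk_pos (G := G) (w := w) huS
        have h6 : (1 : ℤ) ≤ n1 G x T S := by
          have : 1 ≤ n1 G x T S := by omega
          exact_mod_cast this
        linarith
    · rw [if_neg huS] at hr2
      have huTS : u ∉ T ∪ S := fun h => by
        rcases mem_union.1 h with h | h
        · exact huT h
        · exact huS h
      have h8 := M.sep8 hTS (mem_union_left _ hw) hu huTS hh
      have h9 := sep2_out_split (G := G) (w := w) hS
      by_cases h10 : 2 ≤ out G w (T ∪ S)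
      · have h11 := M.sep10 hTS (mem_union_left _ hw) hu huTS hh h10
        have hn : (0 : ℤ) ≤ n1 G x T S := Int.natCast_nonneg _
        linarith
      · have h12 : (2 : ℤ) ≤ n1 G x T S := by
          have : 2 ≤ n1 G x T S := by omega
          exact_mod_cast this
        linarith

end

end Pool.Agent.Lib.MP_4006b4_co_c
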