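import Mathlib
import Pool.Agent.Lib.MP_4006b4_co_c.Sep
import Pool.Agent.Lib.MP_4006b4_co_c.G1
import Pool.Agent.Lib.MP_4006b4_co_c.Crit
import Pool.Agent.Lib.MP_4006b4_co_c.Final

/-!
# Bad vertices (2.4)
-/

open Finset

namespace Pool.Agent.Lib.MP_4006b4_co_c

/-- Bad vertices. -/
structure Bad (G : Str) (w : ℕ) : Prop where
  hw : w ∈ G.V
  hu : ∃ u ∈ G.V, G.h w u ≠ 0
  hk : G.s w ≤ kk G w G.V
  hd : G.s w + 2 ≤ kk G w G.V + nn G w G.V

section

variable {G : Str}

theorem MinCE.exists_bad (M : MinCE 5 3 G) : ∃ w, Bad G w := by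
  by_contra hcon
  push Not at hcon
  refine M.nc (final_col M.wf (fun v hv => ⟨M.tpos par53 hv, M.spos par53 hv⟩)
    (fun v hv w hw hh => M.t2 hv hw hh) ?_)
  intro v hv hH
  by_contra h
  push Not at h
  obtain ⟨h1, h2⟩ := h
  have e1 : ∑ w ∈ G.V, (G.h v w + G.m v w) = kk G v G.V + nn G v G.V := sum_add_distrib
  rw [e1] at h2
  have h1' : G.s v < kk G v G.V + 1 := h1
  exact hcon v ⟨hv, hH, by omega, by omega⟩

theorem MinCE.g1_nc (M : MinCE 5 3 G) {w u : ℕ} (hw : w ∈ G.V) (hu : u ∈ G.V)
    (hwu : G.h w u ≠ 0) : ¬ Colorable (G.g1 w u) := by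
  rintro ⟨x, A, h⟩
  have h' : IsCol ((G.g1 w u).res (G.V.erase w)) x A := h
  obtain ⟨x', A', hc, -, -, -⟩ := g1_lift M.wf (M.t2 hw hu hwu) hwu (erase_subset w G.V)
    (notMem_erase w G.V) h'
  rw [insert_erase hw] at hc
  exact M.nc ⟨x', A', hc⟩

/-- A weight bound for `G1` through the potential of `X + w`. -/
theorem MinCE.g1_ge (M : MinCE 5 3 G) {w u : ℕ} (hw : w ∈ G.V) (hu : u ∈ G.V)
    (hwu : G.h w u ≠ 0) {X : Finset ℕ} (hX : X ⊆ G.V.erase w) :
    rho 5 3 (G.g1 w u) X = rho 5 3 G (insert w X) - 7 - 3 * (G.s w : ℤ) + 2 * (kk G w X : ℤ)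
      + 2 * (nn G w X : ℤ) + (if u ∈ X then 5 else 0)
      + 3 * ((∑ y ∈ X, (G.m w y - G.s y) : ℕ) : ℤ) := by
  have h1 := g1_rho M.wf hwu (X := X) (fun z hz hwz =>
    M.t2 (mem_of_mem_erase (hX hz)) hw (by rw [M.wf.hsymm]; exact hwz))
  have h2 := rho_ins M.wf (w := w) (X := X) (fun h => notMem_erase w G.V (hX h))
  have h3 := M.t2 hw hu hwu
  rw [h3] at h2
  rw [h1, h2]
  push_cast
  ring

/-- Violators of `G1` (2.4). [With `e` = number of edges and links from `w` to `X`: by `g1_rho` and
`rho_ins`, `rho (X + w) + 2 e + 5 [u ∈ X] ≤ 4 + 3 s`; then the case analysis with `sep8`, `sep10`,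
`sep12`, `small`, `exc`.] -/
theorem MinCE.bad_pos (M : MinCE 5 3 G) {w u : ℕ} (B : Bad G w) (hu : u ∈ G.V)
    (hwu : G.h w u ≠ 0) {X : Finset ℕ} (hX : X ⊆ G.V.erase w) (hne : X.Nonempty)
    (hXV : X ≠ G.V.erase w) : (-2 : ℤ) ≤ rho 5 3 (G.g1 w u) X := by
  by_contra hcon
  have hw := B.hw
  have hwX : w ∉ X := fun h => notMem_erase w G.V (hX h)
  have hXG : X ⊆ G.V := hX.trans (erase_subset _ _)
  have hTG : insert w X ⊆ G.V := insert_subset hw hXG
  have hTV : insert w X ≠ G.V := by
    intro h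
    apply hXV
    rw [← h, erase_insert hwX]
  have hXVV : X ≠ G.V := fun h => hwX (h ▸ hw)
  have h1 := M.g1_ge hw hu hwu hX
  have h2 : (0 : ℤ) ≤ ((∑ y ∈ X, (G.m w y - G.s y) : ℕ) : ℤ) := Int.natCast_nonneg _
  have hs2 := M.s2 hw hu hwu
  have hs4 := M.s4 hw hu hwu
  have hk := B.hk
  have hd := B.hd
  have h3 := rho_ins M.wf (w := w) (X := X) hwX
  rw [M.t2 hw hu hwu] at h3
  have hkX := kk_mono (G := G) w hXG
  have hnX := nn_mono (G := G) w hXG
  -- number of edges and links of `w` leaving `T`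
  have hout : out G w (insert w X) + kk G w X + nn G w X = kk G w G.V + nn G w G.V := by
    rw [out_eq]
    have k1 := kk_sdiff (G := G) w hTG
    have k2 := nn_sdiff (G := G) w hTG
    have k3 : kk G w (insert w X) = kk G w X := by
      unfold kk
      rw [sum_insert hwX, M.wf.hirr, zero_add]
    have k4 : nn G w (insert w X) = nn G w X := by
      unfold nn
      rw [sum_insert hwX, M.wf.mirr, zero_add]
    rw [k3] at k1
    rw [k4] at k2
    omega
  have hwT : w ∈ insert w X := mem_insert_self _ _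
  have hwu1 : G.h w u = 1 := by
    have := M.wf.hle w u
    omega
  by_cases huX : u ∈ X
  · rw [if_pos huX] at h1
    have he : 1 ≤ kk G w X := by
      have := kk_pos (G := G) (w := w) huX
      omega
    by_cases hmiss : ∃ z ∈ G.V, z ∉ insert w X ∧ G.h w z ≠ 0
    · obtain ⟨z, hz, hzT, hwz⟩ := hmiss
      have h8 := M.sep8 hTG hwT hz hzT hwz
      have h10 : 2 ≤ out G w (insert w X) → 10 ≤ rho 5 3 G (insert w X) :=
        M.sep10 hTG hwT hz hzT hwz
      rcases le_or_gt 2 (out G w (insert w X)) with ho | ho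
      · have := h10 ho
        omega
      · omega
    · push Not at hmiss
      have hkk : kk G w X = kk G w G.V := by
        have k1 := kk_sdiff (G := G) w hXG
        have k2 : kk G w (G.V \ X) = 0 := by
          unfold kk
          refine sum_eq_zero fun r hr => ?_
          obtain ⟨hr1, hr2⟩ := mem_sdiff.1 hr
          by_cases hrw : r = w
          · rw [hrw]; exact M.wf.hirr w
          · exact hmiss r hr1 (fun h => by
              rcases mem_insert.1 h with h | h
              · exact hrw h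
              · exact hr2 h)
        omega
      by_cases h6 : 6 ≤ rho 5 3 G (insert w X)
      · omega
      · obtain ⟨v, hv, hTe⟩ := M.small hTG ⟨w, hwT⟩ hTV (by omega)
        have hex := M.exc hv (by rw [← hTe]; omega)
        obtain ⟨e1, e2, e3, e4, e5, e6⟩ := hex
        rw [← hTe] at e5
        have hwv : v ≠ w := by
          intro h
          rw [h] at hTe
          exact notMem_erase w G.V (hTe ▸ hwT)
        have k5 : nn G w X + G.m w v = nn G w G.V := by
          have k1 := nn_sdiff (G := G) w hTG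
          have k4 : nn G w (insert w X) = nn G w X := by
            unfold nn
            rw [sum_insert hwX, M.wf.mirr, zero_add]
          have k6 : G.V \ insert w X = {v} := by
            rw [hTe]
            ext r
            simp only [mem_sdiff, mem_erase, mem_singleton]
            constructor
            · rintro ⟨h1, h2⟩
              by_contra h3
              exact h2 ⟨h3, h1⟩
            · rintro rfl
              exact ⟨hv, fun h => h.1 rfl⟩
          rw [k6, k4] at k1
          have k7 : nn G w {v} = G.m w v := by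
            unfold nn
            rw [sum_singleton]
          omega
        have k8 := e4 w hw
        omega
  · rw [if_neg huX] at h1
    have huT : u ∉ insert w X := by
      intro h
      rcases mem_insert.1 h with h | h
      · rw [h] at hwu
        exact hwu (M.wf.hirr w)
      · exact huX h
    have h8 := M.sep8 hTG hwT hu huT hwu
    have h10 : 2 ≤ out G w (insert w X) → 10 ≤ rho 5 3 G (insert w X) :=
      M.sep10 hTG hwT hu huT hwu
    have h12 : 3 ≤ out G w (insert w X) → rho 5 3 G (insert w X) ≤ 12 →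
        2 * (out G w (insert w X) : ℤ) + 6 ≤ rho 5 3 G (insert w X) :=
      M.sep12 hTG hwT hu huT hwu
    have hp2 := M.pos2 hXG hne
    have hp3 := M.pr3 hXG hne hXVV
    have hk1 : 1 ≤ kk G w X → 8 ≤ rho 5 3 G X := by
      intro hk1
      have : ∃ z ∈ X, G.h w z ≠ 0 := by
        by_contra hno
        push Not at hno
        have : kk G w X = 0 := sum_eq_zero hno
        omega
      obtain ⟨z, hz, hwz⟩ := this
      exact M.sep8 hXG hz hw hwX (by rw [M.wf.hsymm]; exact hwz)
    rcases Nat.lt_or_ge (kk G w X) 1 with hk0 | hk0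
    · rcases Nat.lt_or_ge (nn G w X) 1 with hn0 | hn0
      · omega
      · rcases le_or_gt 3 (out G w (insert w X)) with ho | ho
        · have := h10 (by omega)
          rcases le_or_gt (rho 5 3 G (insert w X)) 12 with h | h
          · have := h12 ho h
            omega
          · omega
        · rcases le_or_gt 2 (out G w (insert w X)) with ho2 | ho2
          · have := h10 ho2
            omega
          · omega
    · have := hk1 hk0
      rcases le_or_gt 3 (out G w (insert w X)) with ho | ho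
      · have := h10 (by omega)
        rcases le_or_gt (rho 5 3 G (insert w X)) 12 with h | h
        · have := h12 ho h
          omega
        · omega
      · rcases le_or_gt 2 (out G w (insert w X)) with ho2 | ho2
        · have := h10 ho2
          omega
        · omega

/-- The numbers at a bad vertex (2.4). -/
theorem MinCE.bad_num (M : MinCE 5 3 G) {w u : ℕ} (B : Bad G w) (hu : u ∈ G.V)
    (hwu : G.h w u ≠ 0) :
    (-4 : ℤ) ≤ rho 5 3 (G.g1 w u) (G.V.erase w) ∧ rho 5 3 (G.g1 w u) (G.V.erase w) ≤ -3 ∧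
    kk G w G.V + nn G w G.V = G.s w + 2 ∧ rho 5 3 G G.V ≤ -1 ∧
    (G.s w = 3 ∧ rho 5 3 (G.g1 w u) (G.V.erase w) = -3 ∨ G.s w = 4) ∧
    (∀ y ∈ G.V.erase w, G.m w y ≤ G.s y) := by
  have hw := B.hw
  have hwu' : u ≠ w := by
    intro h
    rw [h] at hwu
    exact hwu (M.wf.hirr w)
  have huE : u ∈ G.V.erase w := mem_erase.2 ⟨hwu', hu⟩
  obtain ⟨S, hS, hne, hr⟩ := M.ihc (g1_wf M.wf w u) (Or.inl (g1_hc M.wf hw hu hwu))
    (M.g1_nc hw hu hwu)
  have hS' : S ⊆ G.V.erase w := hS
  have hSe : S = G.V.erase w := by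
    by_contra hne2
    have := M.bad_pos B hu hwu hS' hne hne2
    push_cast at hr
    linarith
  subst hSe
  have h1 := M.g1_ge hw hu hwu (Subset.refl (G.V.erase w))
  rw [if_pos huE, insert_erase hw] at h1
  have hs4 := M.s4 hw hu hwu
  have hp2 := M.pos2 (Subset.refl G.V) ⟨w, hw⟩
  have hk : kk G w (G.V.erase w) = kk G w G.V := by
    unfold kk
    rw [← add_sum_erase G.V (fun r => G.h w r) hw, M.wf.hirr, zero_add]
  have hn : nn G w (G.V.erase w) = nn G w G.V := by
    unfold nn
    rw [← add_sum_erase G.V (fun r => G.m w r) hw, M.wf.mirr, zero_add]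
  rw [hk, hn] at h1
  have hd := B.hd
  push_cast at hr
  have h2 : (0 : ℤ) ≤ ((∑ y ∈ G.V.erase w, (G.m w y - G.s y) : ℕ) : ℤ) := Int.natCast_nonneg _
  have h0 : (∑ y ∈ G.V.erase w, (G.m w y - G.s y)) = 0 := by omega
  rw [h0] at h1
  refine ⟨by omega, by omega, by omega, by omega, by omega, ?_⟩
  intro y hy
  have := (sum_eq_zero_iff.1 h0) y hy
  omega

theorem MinCE.bad_crit (M : MinCE 5 3 G) {w u : ℕ} (B : Bad G w) (hu : u ∈ G.V)
    (hwu : G.h w u ≠ 0) : Crit (G.g1 w u) where
  wf := g1_wf M.wf w u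
  nc := M.g1_nc B.hw hu hwu
  ih := fun G' wf' hp hh => M.ih G' wf'
    (fun S hS hne => by have := hp S hS hne; push_cast; linarith)
    (Or.inl (lt_of_le_of_lt hh (g1_hc M.wf B.hw hu hwu)))
  pos := fun S hS hne hSV => M.bad_pos B hu hwu hS hne hSV
  d1 := (M.bad_num B hu hwu).1
  d2 := (M.bad_num B hu hwu).2.1

end

end Pool.Agent.Lib.MP_4006b4_co_c
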