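import Mathlib
import Pool.Agent.Lib.MP_4006b4_co_c.Bad

/-!
# Bad vertices are impossible (Part 3)
-/

open Finset

namespace Pool.Agent.Lib.MP_4006b4_co_c

section

variable {G : Str}

theorem p3_res_wf {a b : ℕ} (wf : G.WF a b) {T : Finset ℕ} (hT : T ⊆ G.V) : (G.res T).WF a b where
  hsymm := wf.hsymm
  msymm := wf.msymm
  hirr := wf.hirr
  mirr := wf.mirr
  hle := wf.hle
  tb := fun v hv w hw h => wf.tb v (hT hv) w (hT hw) h
  sb := fun v hv w hw h => wf.sb v (hT hv) w (hT hw) h

theorem Crit.p3_colres {K : Str} (C : Crit K) {T : Finset ℕ} (hT : T ⊆ K.V) (hTV : T ≠ K.V) :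
    Colorable (K.res T) := by
  refine C.ih (K.res T) (p3_res_wf C.wf hT) ?_ ?_
  · intro S hS hne
    have hS' : S ⊆ T := hS
    have h1 := C.pos S (hS'.trans hT) hne (fun h => hTV (Finset.Subset.antisymm hT (h ▸ hS')))
    have h2 : rho 5 3 (K.res T) S = rho 5 3 K S :=
      rho_congr (fun _ _ _ _ => rfl) (fun _ _ _ _ => rfl) (fun _ _ => rfl) (fun _ _ => rfl)
    rw [h2]
    exact h1
  · exact hc_mono hT fun v _ w _ => le_rfl

/-- helper86's claim: if `v` is exceptional and `w` sends `s v` links to `v`, no `H`-neighbour of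
`w` is linked to `v`. [`G1(z)` restricted to `V - w - v` is colourable (proper subsets of a `Crit`
structure), lift it (`g1_lift`) to a colouring of `V - v`; `exc`: exactly `s v` link ends of `v` are in
state 1 and all neighbours of `v` are saturated; `w` uses all of them, so `z = 2`, but then `w` has
load 0.] -/
theorem MinCE.claim (M : MinCE 5 3 G) {w v z : ℕ} (B : Bad G w) (hv : v ∈ G.V)
    (hex : rho 5 3 G (G.V.erase v) ≤ 5) (hm : G.m w v = G.s v) (hz : z ∈ G.V)
    (hwz : G.h w z ≠ 0) : G.m v z = 0 := by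
  by_contra hvz
  obtain ⟨e1, e2, e3, e4, e5, e6⟩ := M.exc hv hex
  have hwv : w ≠ v := by
    intro h
    rw [h, M.wf.mirr] at hm
    omega
  have hzv : z ≠ v := by
    intro h
    apply hwz
    rw [M.wf.hsymm, h]
    exact e1 w B.hw
  have hzw : z ≠ w := by
    intro h
    apply hwz
    rw [h, M.wf.hirr]
  have C := M.bad_crit B hz hwz
  have hTs : (G.V.erase w).erase v ⊆ (G.g1 w z).V := erase_subset _ _
  have hTne : (G.V.erase w).erase v ≠ (G.g1 w z).V := by
    intro h
    have h1 : v ∈ (G.V.erase w).erase v := by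
      rw [h]
      exact mem_erase.2 ⟨hwv.symm, hv⟩
    simp at h1
  obtain ⟨x, A, hcol⟩ := C.p3_colres hTs hTne
  obtain ⟨x', A', hc', hxw, hx', hl⟩ := g1_lift M.wf (M.t2 B.hw hz hwz) hwz
    ((erase_subset _ _).trans (erase_subset _ _)) (by simp) hcol
  have hins : insert w ((G.V.erase w).erase v) = G.V.erase v := by
    ext r
    simp only [mem_insert, mem_erase]
    constructor
    · rintro (h | ⟨h1, h2, h3⟩)
      · exact ⟨h ▸ hwv, h ▸ B.hw⟩
      · exact ⟨h1, h3⟩
    · rintro ⟨h1, h2⟩
      by_cases h : r = w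
      · exact Or.inl h
      · exact Or.inr ⟨h1, h, h2⟩
  rw [hins] at hc' hl
  obtain ⟨f1, f2⟩ := e6 x' A' hc'
  have hwm : w ∈ G.V.erase v := mem_erase.2 ⟨hwv, B.hw⟩
  have hzm : z ∈ G.V.erase v := mem_erase.2 ⟨hzv, hz⟩
  have g1 : (if x' w then G.m w v else 0) + (if x' z then G.m z v else 0)
      ≤ ∑ y ∈ G.V.erase v, if x' y then G.m y v else 0 := by
    have h1 : ({w, z} : Finset ℕ) ⊆ G.V.erase v := by
      intro r hr
      rcases mem_insert.1 hr with h | h
      · rw [h]; exact hwm
      · rw [mem_singleton.1 h]; exact hzm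
    have h2 := sum_le_sum_of_subset (f := fun y => if x' y then G.m y v else 0) h1
    rwa [sum_pair hzw.symm] at h2
  rw [f1, hxw, if_pos rfl, hm] at g1
  have g2 : x' z = false := by
    by_contra hne
    rw [Bool.not_eq_false] at hne
    rw [hne, if_pos rfl, M.wf.msymm] at g1
    omega
  have hzT : z ∈ (G.V.erase w).erase v := mem_erase.2 ⟨hzv, mem_erase.2 ⟨hzw, hz⟩⟩
  have g3 : x z = false := by rw [← hx' z hzT]; exact g2
  have g4 := f2 w hwm (by rw [hm]; omega)
  rw [hl, hxw, thr_true, M.t2 B.hw hz hwz, if_neg (by rw [g3]; simp)] at g4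
  omega

/-- Two first-part vertices count in `n1`. -/
theorem two_le_n1 {x : ℕ → Bool} {T : Finset ℕ} {w z : ℕ} (hwz : w ≠ z) (hw : w ∈ T) (hz : z ∈ T)
    (hxw : x w = true) (hxz : x z = true) (S : Finset ℕ) :
    (kk G w S + nn G w S) + (kk G z S + nn G z S) ≤ n1 G x T S := by
  have e : ∀ r, x r = true → kk G r S + nn G r S
      = ∑ q ∈ S, if x r then G.h r q + G.m r q else 0 := by
    intro r hr
    unfold kk nn
    rw [← sum_add_distrib]
    refine sum_congr rfl fun q _ => ?_
    rw [hr]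
    rfl
  have h1 : ({w, z} : Finset ℕ) ⊆ T := by
    intro r hr
    rcases mem_insert.1 hr with h | h
    · rw [h]; exact hw
    · rw [mem_singleton.1 h]; exact hz
  have h2 := sum_le_sum_of_subset
    (f := fun v => ∑ q ∈ S, if x v then G.h v q + G.m v q else 0) h1
  rw [sum_pair hwz] at h2
  unfold n1
  rw [e w hxw, e z hxz]
  exact h2

/-- The extension step of 3.5, in a form which does not depend on the states. -/
theorem MinCE.p35ext (M : MinCE 5 3 G) {w z y y' : ℕ} {T : Finset ℕ} (hT : T ⊆ G.V)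
    (hw : w ∈ T) (hz : z ∈ T) (hwz : w ≠ z) (hy : y ∈ G.V \ T) (hy' : y' ∈ G.V \ T)
    (hzy : G.h z y + G.m z y ≠ 0) (hwy : G.m w y' ≠ 0)
    {x : ℕ → Bool} {A : ℕ → ℕ → ℕ} (hc : IsCol (G.res T) x A)
    (hxw : x w = false → load G x A T w + 2 ≤ thr G (x w) w)
    (hxz : x z = false → load G x A T z + 2 ≤ thr G (x z) z) :
    ∃ S ⊆ G.V \ T, S.Nonempty ∧ rho 5 3 G (T ∪ S)
      + (if x w then 2 * (nn G w S : ℤ) else if y' ∈ S then 5 else 0)
      + (if x z then 2 * (kk G z S + nn G z S : ℤ) else if y ∈ S then 5 else 0)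
      ≤ rho 5 3 G T - 3 := by
  have hdl : dl z y w y' = 0 := by
    unfold dl
    refine if_neg ?_
    rintro (⟨h, _⟩ | ⟨h, _⟩)
    · exact hwz h
    · rw [h] at hw
      exact (mem_sdiff.1 hy).2 hw
  have hdl2 : ∀ c : ℕ, c * dl z y w y' = 0 := fun c => by rw [hdl, mul_zero]
  obtain ⟨dh, dm, hdh, hdm, hd⟩ : ∃ dh dm : ℕ, dh ≤ G.h z y ∧ dm ≤ G.m z y ∧ dh + dm = 1 := by
    by_cases h : G.h z y = 0
    · exact ⟨0, 1, Nat.zero_le _, by omega, rfl⟩
    · exact ⟨1, 0, by omega, Nat.zero_le _, rfl⟩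
  have hgain : ∀ d : ℕ, (5 : ℤ) ≤ gain false d := by
    intro d
    unfold gain
    simp
  have hn0 : ∀ S, (0 : ℤ) ≤ (n1 G x T S : ℤ) := fun S => by positivity
  cases hw' : x w with
  | false =>
    have hxw' := hxw hw'
    cases hz' : x z with
    | false =>
      have hxz' := hxz hz'
      obtain ⟨S, h1, h2, h3⟩ := ext2 M.wf M.ihv M.nc hT hc hz hy hdh hdm hd hw hy'
        (dh1 := 0) (dm1 := 1) (by rw [hdl2]; exact Nat.zero_le _) (by rw [hdl2]; omega) rfl hxz' hxw'
        (fun h => absurd h.symm hwz)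
      refine ⟨S, h1, h2, ?_⟩
      rw [hw', hz'] at h3
      have := hgain dh
      have := hgain 0
      have := hn0 S
      simp only [Bool.false_eq_true, if_false]
      split_ifs at h3 ⊢ <;> linarith
    | true =>
      obtain ⟨S, h1, h2, h3⟩ := ext1 M.wf M.ihv M.nc hT hc hw hy' (dh := 0) (dm := 1)
        (Nat.zero_le _) (by omega) rfl hxw'
      refine ⟨S, h1, h2, ?_⟩
      rw [hw'] at h3
      have h4 := out_le_n1 (G := G) hz hz' S
      have h5 : (kk G z S + nn G z S : ℤ) ≤ (n1 G x T S : ℤ) := by exact_mod_cast h4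
      have := hgain 0
      simp only [Bool.false_eq_true, if_false, if_true]
      split_ifs at h3 ⊢ <;> linarith
  | true =>
    cases hz' : x z with
    | false =>
      have hxz' := hxz hz'
      obtain ⟨S, h1, h2, h3⟩ := ext1 M.wf M.ihv M.nc hT hc hz hy hdh hdm hd hxz'
      refine ⟨S, h1, h2, ?_⟩
      rw [hz'] at h3
      have h4 := out_le_n1 (G := G) hw hw' S
      have h5 : (kk G w S + nn G w S : ℤ) ≤ (n1 G x T S : ℤ) := by exact_mod_cast h4
      have h6 : (0 : ℤ) ≤ (kk G w S : ℤ) := by positivity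
      have := hgain dh
      simp only [Bool.false_eq_true, if_false, if_true]
      split_ifs at h3 ⊢ <;> linarith
    | true =>
      obtain ⟨S, h1, h2, h3⟩ := ext0 M.wf M.ihv M.nc hT ⟨w, hw⟩ hc
      refine ⟨S, h1, h2, ?_⟩
      have h4 := two_le_n1 (G := G) hwz hw hz hw' hz' S
      have h5 : ((kk G w S + nn G w S) + (kk G z S + nn G z S) : ℤ) ≤ (n1 G x T S : ℤ) := by
        exact_mod_cast h4
      have h6 : (0 : ℤ) ≤ (kk G w S : ℤ) := by positivity
      simp only [if_true]
      linarith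

/-- 3.5 (short version). `w` bad, `s w = 4`, all `H`-neighbours of `w` in `S`, both links of `w` leave
`T = S + w`, `z` an `H`-neighbour of `w` with an edge or link `zy` leaving `T`: `rho T ≥ 7`.
[If `rho T = 6`: `T - e2(w) - e2(z)` (cost 6) is colourable (proper subsets of `T` have `rho ≥ 6`:
`small` and cardinality). Savings: at `z`: 2 (state 1) or 5 (spare); at `w`: `2 + 2` (state 1) or 5
(spare on a chosen link `wy'`). `V` would need `-2 + 6 ≤ 3`. Otherwise the violator `T + R` is
`V - v`, `rho = 3`, `s v = 1` and the savings on `R` are 0: `w = 1`: `m w v = 2`; `w = 2`: choose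
`y' ≠ y` if possible (else `m w y = 2`); both contradict `m w v ≤ s v = 1`.] -/
theorem MinCE.p35 (M : MinCE 5 3 G) {w z y : ℕ} {S : Finset ℕ} (B : Bad G w) (hs : G.s w = 4)
    (hS : S ⊆ G.V) (hwS : w ∉ S) (hk : kk G w G.V = 4) (hkS : kk G w S = 4)
    (hn : nn G w G.V = 2) (hnS : nn G w S = 0) (hz : z ∈ S) (hwz : G.h w z ≠ 0)
    (hy : y ∈ G.V) (hyS : y ∉ S) (hyw : y ≠ w) (hzy : G.h z y + G.m z y ≠ 0)
    (h6 : 6 ≤ rho 5 3 G (insert w S)) : 7 ≤ rho 5 3 G (insert w S) := by
  by_contra hcon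
  have hr : rho 5 3 G (insert w S) = 6 := by omega
  obtain ⟨T, hTd⟩ : ∃ T, T = insert w S := ⟨_, rfl⟩
  rw [← hTd] at hr
  have hT : T ⊆ G.V := by
    rw [hTd]
    exact insert_subset B.hw hS
  have hwT : w ∈ T := by rw [hTd]; exact mem_insert_self _ _
  have hzT : z ∈ T := by rw [hTd]; exact mem_insert_of_mem hz
  have hwz' : w ≠ z := fun h => hwS (h ▸ hz)
  have hyT : y ∉ T := by
    rw [hTd, mem_insert]
    rintro (h | h)
    · exact hyw h
    · exact hyS h
  have hTV : T ≠ G.V := fun h => hyT (h ▸ hy)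
  have hTc : #T + 1 ≤ #G.V := by
    have := card_lt_card ((ssubset_iff_subset_ne).2 ⟨hT, hTV⟩)
    omega
  -- links of `w`
  have hnT : nn G w (G.V \ T) = 2 := by
    have h1 := nn_sdiff (G := G) w hT
    have h2 : nn G w T = 0 := by
      rw [hTd, insert_eq, nn_union w (disjoint_singleton_left.2 hwS), hnS]
      simp [nn, M.wf.mirr]
    omega
  -- the colouring
  obtain ⟨x, A, hc, hxw, hxz⟩ : ∃ x A, IsCol (G.res T) x A ∧
      (x w = false → load G x A T w + 2 ≤ thr G (x w) w) ∧
      (x z = false → load G x A T z + 2 ≤ thr G (x z) z) := by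
    have hcol : Colorable (G.sub T G.t (dec (dec G.s w) z)) := by
      by_contra hn
      obtain ⟨S', hS', hne, hr'⟩ := M.sub hT hTV (fun v => le_rfl)
        (fun v => (dec_le _ _ _).trans (dec_le _ _ _)) hn
      simp only [sub_self, mul_zero, sum_const_zero, sub_zero] at hr'
      have e1 : ∑ v ∈ S', ((3 : ℕ) : ℤ) * ((G.s v : ℤ) - (dec (dec G.s w) z v : ℤ)) ≤ 6 := by
        have e2 : ∑ v ∈ S', ((3 : ℕ) : ℤ) * ((G.s v : ℤ) - (dec (dec G.s w) z v : ℤ))
            = ∑ v ∈ S', ((3 : ℕ) : ℤ) * ((G.s v : ℤ) - (dec G.s w v : ℤ))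
              + ∑ v ∈ S', ((3 : ℕ) : ℤ) * ((dec G.s w v : ℤ) - (dec (dec G.s w) z v : ℤ)) := by
          rw [← sum_add_distrib]
          exact sum_congr rfl fun v _ => by ring
        have e3 := sum_dec_le (f := G.s) (u := w) S' (c := ((3 : ℕ) : ℤ)) (by norm_num)
        have e4 := sum_dec_le (f := dec G.s w) (u := z) S' (c := ((3 : ℕ) : ℤ)) (by norm_num)
        rw [e2]
        split_ifs at e3 e4 <;> push_cast at e3 e4 ⊢ <;> linarith
      have hr'' : rho 5 3 G S' ≤ 3 := by push_cast at hr' e1 ⊢; linarith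
      have h5 : S' ≠ T := by
        intro h
        rw [h, hr] at hr''
        omega
      have h6' : #S' < #T := card_lt_card ((ssubset_iff_subset_ne).2 ⟨hS', h5⟩)
      have h7 : S' ≠ G.V := by
        intro h
        rw [h] at h6'
        omega
      obtain ⟨v, hv, hSv⟩ := M.small (hS'.trans hT) hne h7 (by linarith)
      have h8 : #S' = #G.V - 1 := by rw [hSv]; exact card_erase_of_mem hv
      omega
    obtain ⟨x, A, hcc⟩ := hcol
    refine ⟨x, A, ?_, ?_, ?_⟩
    · refine IsCol.mono (G := G.sub T G.t (dec (dec G.s w) z)) (G' := G.res T) (Subset.refl _)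
        (fun _ _ _ _ => le_rfl) (fun _ _ _ _ => le_rfl) (fun _ _ => le_rfl)
        (fun v _ => (dec_le _ _ _).trans (dec_le _ _ _)) hcc
    · intro hx
      have h1 := hcc.cap w hwT
      have h2 : thr (G.sub T G.t (dec (dec G.s w) z)) (x w) w = G.s w - 1 := by
        rw [hx, thr_false]
        show dec (dec G.s w) z w = _
        rw [dec_ne _ hwz', dec_self]
      rw [h2] at h1
      have h3 : load (G.sub T G.t (dec (dec G.s w) z)) x A
        (G.sub T G.t (dec (dec G.s w) z)).V w = load G x A T w := rfl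
      rw [h3] at h1
      rw [hx, thr_false]
      omega
    · intro hx
      have h1 := hcc.cap z hzT
      have h2 : thr (G.sub T G.t (dec (dec G.s w) z)) (x z) z = G.s z - 1 := by
        rw [hx, thr_false]
        show dec (dec G.s w) z z = _
        rw [dec_self, dec_ne _ hwz'.symm]
      rw [h2] at h1
      have h3 : load (G.sub T G.t (dec (dec G.s w) z)) x A
        (G.sub T G.t (dec (dec G.s w) z)).V z = load G x A T z := rfl
      rw [h3] at h1
      rw [hx, thr_false]
      omega
  have hyVT : y ∈ G.V \ T := mem_sdiff.2 ⟨hy, hyT⟩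
  -- the choice of `y'`
  obtain ⟨y', hy', hwy', hor⟩ : ∃ y' ∈ G.V \ T, G.m w y' ≠ 0 ∧ (y' ≠ y ∨ G.m w y = 2) := by
    by_cases h : ∃ y' ∈ G.V \ T, G.m w y' ≠ 0 ∧ y' ≠ y
    · obtain ⟨y', h1, h2, h3⟩ := h
      exact ⟨y', h1, h2, Or.inl h3⟩
    · push Not at h
      have h1 : nn G w (G.V \ T) = G.m w y := by
        unfold nn
        refine sum_eq_single_of_mem y hyVT ?_
        intro r hr hry
        by_contra hne
        exact hry (h r hr hne)
      exact ⟨y, hyVT, by omega, Or.inr (by omega)⟩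
  obtain ⟨R, hR, hRne, hRr⟩ := M.p35ext hT hwT hzT hwz' hyVT hy' hzy hwy' hc hxw hxz
  rw [hr] at hRr
  have hTR : T ∪ R ⊆ G.V := union_subset hT (hR.trans sdiff_subset)
  have hkn : ∀ q ∈ R, (G.h z q + G.m z q : ℤ) ≤ (kk G z R + nn G z R : ℤ) := by
    intro q hq
    have h1 := kk_pos (G := G) (w := z) hq
    have h2 := nn_pos (G := G) (w := z) hq
    have h3 : (G.h z q : ℤ) ≤ kk G z R := by exact_mod_cast h1
    have h4 : (G.m z q : ℤ) ≤ nn G z R := by exact_mod_cast h2
    linarith
  have hzy1 : (1 : ℤ) ≤ G.h z y + G.m z y := by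
    have : 1 ≤ G.h z y + G.m z y := Nat.one_le_iff_ne_zero.2 hzy
    exact_mod_cast this
  -- nonnegativity and lower bounds of the savings
  have s1 : (0 : ℤ) ≤ (if x w then 2 * (nn G w R : ℤ) else if y' ∈ R then 5 else 0) := by
    split_ifs <;> positivity
  have s2 : (0 : ℤ) ≤ (if x z then 2 * (kk G z R + nn G z R : ℤ) else if y ∈ R then 5 else 0) := by
    split_ifs <;> positivity
  have s3 : y ∈ R → (2 : ℤ) ≤
      (if x z then 2 * (kk G z R + nn G z R : ℤ) else if y ∈ R then 5 else 0) := by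
    intro h
    have := hkn y h
    rw [if_pos h]
    split_ifs <;> linarith
  by_cases hV : T ∪ R = G.V
  · have hRV : R = G.V \ T := by
      refine Finset.Subset.antisymm hR ?_
      intro r hr
      rw [mem_sdiff, ← hV, mem_union] at hr
      tauto
    have h1 := M.pos2 hTR ⟨w, mem_union_left _ hwT⟩
    have h2 := s3 (hRV ▸ hyVT)
    have h3 : (4 : ℤ) ≤ (if x w then 2 * (nn G w R : ℤ) else if y' ∈ R then 5 else 0) := by
      rw [if_pos (hRV ▸ hy' : y' ∈ R), hRV, hnT]
      split_ifs <;> norm_num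
    linarith
  · obtain ⟨v, hv, hTv⟩ := M.small hTR ⟨w, mem_union_left _ hwT⟩ hV (by linarith)
    obtain ⟨e1, e2, e3, e4, e5, e6⟩ := M.exc hv (by rw [← hTv]; linarith)
    rw [← hTv] at e5
    have e7 : G.s v = 1 := by omega
    rw [e7] at e5
    push_cast at e5
    have hvT : v ∉ T ∪ R := by
      rw [hTv]
      exact notMem_erase _ _
    -- outside `T ∪ R` there is only `v`
    have hout : ∀ q ∈ G.V, q ∉ T → q ∉ R → q = v := by
      intro q hq h1 h2
      by_contra hne
      have h3 : q ∈ T ∪ R := by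
        rw [hTv]
        exact mem_erase.2 ⟨hne, hq⟩
      rcases mem_union.1 h3 with h | h
      · exact h1 h
      · exact h2 h
    have hyR : y ∉ R := by
      intro h
      have := s3 h
      linarith
    have hyv : y = v := hout y hy hyT hyR
    have hw2 : (if x w then 2 * (nn G w R : ℤ) else if y' ∈ R then 5 else 0) = (0 : ℤ) := by
      linarith
    have hmv : G.m w v = 2 := by
      cases hxw' : x w with
      | true =>
        rw [hxw', if_pos rfl] at hw2
        have h1 : nn G w R = 0 := by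
          have : (nn G w R : ℤ) = 0 := by linarith
          exact_mod_cast this
        have h2 : nn G w (G.V \ T) = G.m w v := by
          unfold nn
          refine sum_eq_single_of_mem v (hyv ▸ hyVT) ?_
          intro r hr hrv
          rw [mem_sdiff] at hr
          by_contra hne
          have h3 : r ∈ R := by
            by_contra hrR
            exact hrv (hout r hr.1 hr.2 hrR)
          have h4 := nn_pos (G := G) (w := w) h3
          omega
        omega
      | false =>
        rw [hxw'] at hw2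
        simp only [Bool.false_eq_true, if_false] at hw2
        have h1 : y' ∉ R := by
          intro h
          rw [if_pos h] at hw2
          norm_num at hw2
        have h2 : y' = v := hout y' (mem_sdiff.1 hy').1 (mem_sdiff.1 hy').2 h1
        rcases hor with h | h
        · exact absurd (h2.trans hyv.symm) h
        · rw [← hyv]
          exact h
    have h9 := e4 w B.hw
    omega

/-- 3.4. [Suppose `u ∈ S`, `T = S + w`, `e = kk + nn` of `w` to `S`:
`rho T ≤ rho' S + 2 + 3 s - 2 e`. (i) some `H`-neighbour of `w` is missing in `S`: `e ≥ 2`,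
`sep8`/`sep10`/`sep12`. (ii) none missing and `rho T ≥ 6`: `e ≥ k ≥ s`: only `s = k = e = 4`,
`rho T = 6`: `p35`. (iii) `T = V - v` exceptional: then `m w v = s v` and `y = v`: `claim`.] -/
theorem MinCE.p34 (M : MinCE 5 3 G) {w u z y : ℕ} {S : Finset ℕ} (B : Bad G w) (hu : u ∈ G.V)
    (hwu : G.h w u ≠ 0) (hz : z ∈ G.V) (hwz : G.h w z ≠ 0) (hzu : z ≠ u)
    (hy : y ∈ G.V) (hyw : y ≠ w) (hzy : G.h z y + G.m z y ≠ 0)
    (hS : S ⊆ G.V.erase w) (hzS : z ∈ S) (hyS : y ∉ S)
    (hr : rho 5 3 (G.g1 w u) S ≤ 0) : u ∉ S := by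
  classical
  intro huS
  have hSV : S ⊆ G.V := fun v hv => mem_of_mem_erase (hS hv)
  have hwS : w ∉ S := fun h => ne_of_mem_erase (hS h) rfl
  have hTV : insert w S ⊆ G.V := insert_subset B.hw hSV
  obtain ⟨-, -, hd, -, hs, hms⟩ := M.bad_num B hu hwu
  have ht : G.t w = 2 := M.t2 B.hw hu hwu
  -- the potential of `T`
  have h1 := g1_rho (G := G) M.wf hwu (X := S)
    (fun v hv hh => M.t2 (hSV hv) B.hw (by rwa [M.wf.hsymm]))
  have h0 : (∑ y ∈ S, (G.m w y - G.s y) : ℕ) = 0 :=
    sum_eq_zero fun v hv => Nat.sub_eq_zero_of_le (hms v (hS hv))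
  rw [h0, if_pos huS] at h1
  have h2 := rho_ins M.wf hwS
  rw [ht] at h2
  push_cast at h1 h2
  have hk1 := kk_sdiff (G := G) w hSV
  have hn1 := nn_sdiff (G := G) w hSV
  -- `w` sends nothing to itself
  have hout : out G w (insert w S) = kk G w (G.V \ S) + nn G w (G.V \ S) := by
    rw [out_eq]
    have e1 : G.V \ S = insert w (G.V \ insert w S) := by
      ext v
      simp only [mem_sdiff, mem_insert]
      constructor
      · rintro ⟨a1, a2⟩
        by_cases h : v = w
        · exact Or.inl h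
        · exact Or.inr ⟨a1, fun h' => h'.elim h a2⟩
      · rintro (h | ⟨a1, a2⟩)
        · exact ⟨h ▸ B.hw, h ▸ hwS⟩
        · exact ⟨a1, fun h' => a2 (Or.inr h')⟩
    have e2 : w ∉ G.V \ insert w S := by simp
    have e3 : kk G w (G.V \ S) = kk G w (G.V \ insert w S) := by
      rw [e1]
      unfold kk
      rw [sum_insert e2, M.wf.hirr, zero_add]
    have e4 : nn G w (G.V \ S) = nn G w (G.V \ insert w S) := by
      rw [e1]
      unfold nn
      rw [sum_insert e2, M.wf.mirr, zero_add]
    rw [e3, e4]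
  by_cases hmiss : ∃ u' ∈ G.V, G.h w u' ≠ 0 ∧ u' ∉ S
  · obtain ⟨u', hu', hwu', huS'⟩ := hmiss
    have huT' : u' ∉ insert w S := by
      rw [mem_insert]
      rintro (h | h)
      · rw [h, M.wf.hirr] at hwu'
        exact hwu' rfl
      · exact huS' h
    have h8 := M.sep8 hTV (mem_insert_self w S) hu' huT' hwu'
    -- two neighbours in `S`
    have he : 2 ≤ kk G w S := by
      have : kk G w {z, u} ≤ kk G w S := kk_mono w (by
        intro v hv
        rcases mem_insert.1 hv with h | h
        · exact h ▸ hzS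
        · exact (mem_singleton.1 h) ▸ huS)
      refine le_trans ?_ this
      unfold kk
      rw [sum_pair hzu]
      omega
    rcases hs with ⟨hs3, -⟩ | hs4
    · rw [hs3] at h2
      push_cast at h2
      omega
    · rw [hs4] at h2 hd
      push_cast at h2
      have ho : 2 ≤ out G w (insert w S) := by
        rw [hout]
        omega
      have h10 := M.sep10 hTV (mem_insert_self w S) hu' huT' hwu' ho
      have h12 := M.sep12 hTV (mem_insert_self w S) hu' huT' hwu' (by rw [hout]; omega) (by omega)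
      rw [hout] at h12
      push_cast at h12
      omega
  · push Not at hmiss
    have hk0 : kk G w (G.V \ S) = 0 := by
      refine sum_eq_zero fun v hv => ?_
      rw [mem_sdiff] at hv
      by_contra hne
      exact hv.2 (hmiss v hv.1 hne)
    have hk := B.hk
    have hTne : insert w S ≠ G.V := by
      intro h
      rw [← h, mem_insert] at hy
      exact hy.elim hyw hyS
    by_cases h6 : 6 ≤ rho 5 3 G (insert w S)
    · rcases hs with ⟨hs3, -⟩ | hs4
      · rw [hs3] at h2
        push_cast at h2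
        omega
      · rw [hs4] at h2 hd hk
        push_cast at h2
        have := M.p35 B hs4 hSV hwS (by omega) (by omega) (by omega) (by omega) hzS hwz hy hyS hyw
          hzy h6
        omega
    · obtain ⟨v, hv, hTe⟩ := M.small hTV ⟨w, mem_insert_self w S⟩ hTne (by omega)
      have hyv : y = v := by
        by_contra hne
        have : y ∈ insert w S := by
          rw [hTe]
          exact mem_erase.2 ⟨hne, hy⟩
        exact (mem_insert.1 this).elim hyw hyS
      subst hyv
      have hex : rho 5 3 G (G.V.erase y) ≤ 5 := by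
        rw [← hTe]
        omega
      obtain ⟨x1, x2, -, x4, x5, -⟩ := M.exc hy hex
      have hm1 := x4 w B.hw
      have hVS : nn G w (G.V \ S) = G.m w y := by
        have e1 : G.V \ S = {w, y} := by
          ext v
          rw [mem_sdiff, mem_insert, mem_singleton]
          constructor
          · rintro ⟨a1, a2⟩
            by_cases h : v = y
            · exact Or.inr h
            · left
              have : v ∈ insert w S := by
                rw [hTe]
                exact mem_erase.2 ⟨h, a1⟩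
              exact (mem_insert.1 this).resolve_right a2
          · rintro (h | h)
            · exact ⟨h ▸ B.hw, h ▸ hwS⟩
            · exact ⟨h ▸ hy, h ▸ hyS⟩
        rw [e1]
        unfold nn
        rw [sum_pair (Ne.symm hyw), M.wf.mirr, zero_add]
      rw [← hTe] at x5
      have hm : G.m w y = G.s y := by
        rcases hs with ⟨hs3, -⟩ | hs4
        · rw [hs3] at h2 hd
          push_cast at h2
          omega
        · rw [hs4] at h2 hd
          push_cast at h2
          omega
      have c1 := M.claim B hy hex hm hz hwz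
      have c2 := x1 z hz
      rw [M.wf.hsymm z y, M.wf.msymm z y, c1, c2] at hzy
      exact hzy rfl

/-- 3.7: every `H`-neighbour `z` of a bad vertex satisfies `m w z ≥ 1`. [Choose another
`H`-neighbour `u`, `K = G1(u)` is `Crit`; `z` has a neighbour in `V - w` (else `kk z = 1`,
`nn z = m w z ≤ 2`, against `k1` and `s2`); `Crit.sets` (hypothesis `hdeg` from `deg`) and `p34` give
the hypothesis of `Crit.iso`; so `s z - m w z ≤ 1`, and `s z ≥ 2`.] -/
theorem MinCE.p37 (M : MinCE 5 3 G) {w z : ℕ} (B : Bad G w) (hz : z ∈ G.V) (hwz : G.h w z ≠ 0) :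
    1 ≤ G.m w z := by
  classical
  have hzw : z ≠ w := fun h => by
    rw [h, M.wf.hirr] at hwz
    exact hwz rfl
  have hzw' : G.h z w ≠ 0 := by rwa [M.wf.hsymm]
  have hle := M.wf.hle w z
  -- the numbers at `w`
  obtain ⟨-, -, hd, hV, hs, -⟩ := M.bad_num B hz hwz
  have hk := B.hk
  -- another neighbour
  obtain ⟨u, hu, hwu, huz⟩ : ∃ u ∈ G.V, G.h w u ≠ 0 ∧ u ≠ z := by
    by_contra hcon
    push Not at hcon
    have h1 : kk G w G.V = G.h w z := by
      unfold kk
      refine sum_eq_single_of_mem z hz fun v hv hvz => ?_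
      by_contra hne
      exact hvz (hcon v hv hne)
    rcases hs with ⟨hs3, -⟩ | hs4 <;> omega
  have C := M.bad_crit B hu hwu
  have hKV : (G.g1 w u).V = G.V.erase w := rfl
  have huK : u ∈ (G.g1 w u).V := by
    rw [hKV]
    refine mem_erase.2 ⟨fun h => ?_, hu⟩
    rw [h, M.wf.hirr] at hwu
    exact hwu rfl
  have hzK : z ∈ (G.g1 w u).V := by
    rw [hKV]
    exact mem_erase.2 ⟨hzw, hz⟩
  have hzt : (G.g1 w u).t z = 0 := by
    show (if z = u then G.t z - 1 else if G.h w z = 0 then G.t z else 0) = 0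
    rw [if_neg (Ne.symm huz), if_neg hwz]
  have hKs : (G.g1 w u).s z = G.s z - G.m w z := rfl
  have hk2 : kk G z G.V = G.h z w + kk G z (G.V.erase w) := by
    unfold kk
    rw [add_sum_erase _ _ B.hw]
  have hn2 : nn G z G.V = G.m z w + nn G z (G.V.erase w) := by
    unfold nn
    rw [add_sum_erase _ _ B.hw]
  have hs2 := M.s2 hz B.hw hzw'
  have hs4' := M.s4 hz B.hw hzw'
  have hle' := M.wf.hle z w
  have hdeg' := M.deg hz B.hw hzw'
  have hdeg : ¬ ((G.g1 w u).s z = 4 ∧ kk (G.g1 w u) z (G.g1 w u).V = 1 ∧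
      nn (G.g1 w u) z (G.g1 w u).V = 0) := by
    rintro ⟨a1, a2, a3⟩
    have b2 : kk G z (G.V.erase w) = 1 := a2
    have b3 : nn G z (G.V.erase w) = 0 := a3
    rw [hKs] at a1
    have b4 : G.m z w = G.m w z := M.wf.msymm z w
    rw [hk2, hn2, b2, b3] at hdeg'
    push_cast at hdeg'
    omega
  have hex : ∃ y ∈ (G.g1 w u).V, (G.g1 w u).h z y + (G.g1 w u).m z y ≠ 0 := by
    by_contra hcon
    push Not at hcon
    have hcon' : ∀ y ∈ G.V.erase w, G.h z y + G.m z y = 0 := hcon
    have b2 : kk G z (G.V.erase w) = 0 :=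
      sum_eq_zero fun v hv => by have := hcon' v hv; omega
    have b3 : nn G z (G.V.erase w) = 0 :=
      sum_eq_zero fun v hv => by have := hcon' v hv; omega
    have b4 : G.m z w = G.m w z := M.wf.msymm z w
    have b5 : G.m w z ≤ nn G w G.V := nn_pos hz
    have b6 := M.k1 hz B.hw hzw' (by omega)
    omega
  have hall : ∀ y ∈ (G.g1 w u).V, (G.g1 w u).h z y + (G.g1 w u).m z y ≠ 0 →
      ∃ S ⊆ (G.g1 w u).V, z ∈ S ∧ u ∉ S ∧ y ∉ S ∧ rho 5 3 (G.g1 w u) S ≤ 0 := by
    intro y hy hzy
    obtain ⟨S, hS, hzS, hyS, hr⟩ := C.sets hzK hy hzt hzy hdeg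
    have hy1 : y ∈ G.V := mem_of_mem_erase hy
    have hy2 : y ≠ w := ne_of_mem_erase hy
    exact ⟨S, hS, hzS, M.p34 B hu hwu hz hwz (Ne.symm huz) hy1 hy2 hzy hS hzS hyS hr, hyS, hr⟩
  have hiso := C.iso huK hzt hall hex
  rw [hKs] at hiso
  omega

/-- There is no minimal counterexample. [By `p37` `nn G w V ≥ kk G w V`; `kk ≥ s ≥ 3` and
`kk + nn = s + 2`.] -/
theorem MinCE.false53 (M : MinCE 5 3 G) : False := by
  obtain ⟨w, B⟩ := M.exists_bad
  obtain ⟨u, hu, hwu⟩ := B.hu
  obtain ⟨-, -, hd, -, hs, -⟩ := M.bad_num B hu hwu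
  have hk := B.hk
  have h1 : kk G w G.V ≤ nn G w G.V := by
    unfold kk nn
    refine sum_le_sum fun r hr => ?_
    by_cases h : G.h w r = 0
    · rw [h]
      exact Nat.zero_le _
    · exact (M.wf.hle w r).trans (M.p37 B hr h)
  rcases hs with ⟨hs3, -⟩ | hs4 <;> omega

end

/-- **Main theorem** for `(5, 3)`. -/
theorem main53 (G : Str) (wf : G.WF 5 3)
    (pos : ∀ S ⊆ G.V, S.Nonempty → (-2 : ℤ) ≤ rho 5 3 G S) : Colorable G := by
  revert wf pos
  refine less_wf.induction (C := fun G => G.WF 5 3 →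
    (∀ S ⊆ G.V, S.Nonempty → (-2 : ℤ) ≤ rho 5 3 G S) → Colorable G) G ?_
  intro G ih wf pos
  by_contra hnc
  exact MinCE.false53 ⟨wf, fun S hS hne => by have := pos S hS hne; push_cast; linarith, hnc,
    fun G' wf' pos' hl => ih G' hl wf' (fun S hS hne => by
      have := pos' S hS hne; push_cast at this; linarith)⟩

end Pool.Agent.Lib.MP_4006b4_co_c
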